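import Pool.Agent.Helper34.KDB.Defs

/-! KDP-A1: the cut-off function. -/

set_option autoImplicit false

namespace KDB

open MeasureTheory Set Filter Topology
open scoped ENNReal NNReal ContDiff

section

variable {E : Type*} [SeminormedAddCommGroup E] (G : Finset E) (z z' : E)

theorem bump_nonneg : 0 ≤ bump G z := NNReal.coe_nonneg _

theorem bump_le_one : bump G z ≤ 1 := by
  unfold bump
  have h : (G.sup fun c => (2 - ‖z - c‖).toNNReal ⊓ 1 : ℝ≥0) ≤ 1 :=
    Finset.sup_le fun c _ => inf_le_right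
  exact_mod_cast h

theorem bump_eq_one (h : ∃ c ∈ G, ‖z - c‖ ≤ 1) : bump G z = 1 := by
  obtain ⟨c, hc, hz⟩ := h
  refine le_antisymm (bump_le_one G z) ?_
  unfold bump
  have h1 : (1 : ℝ≥0) ≤ (2 - ‖z - c‖).toNNReal ⊓ 1 := by
    refine le_inf ?_ le_rfl
    rw [← Real.toNNReal_one]
    exact Real.toNNReal_le_toNNReal (by linarith)
  have h2 : (1 : ℝ≥0) ≤ (G.sup fun c => (2 - ‖z - c‖).toNNReal ⊓ 1 : ℝ≥0) :=
    h1.trans (Finset.le_sup (f := fun c => (2 - ‖z - c‖).toNNReal ⊓ 1) hc)
  exact_mod_cast h2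

theorem bump_eq_zero (h : ∀ c ∈ G, 2 ≤ ‖z - c‖) : bump G z = 0 := by
  unfold bump
  have h1 : (G.sup fun c => (2 - ‖z - c‖).toNNReal ⊓ 1 : ℝ≥0) ≤ 0 := by
    refine Finset.sup_le fun c hc => ?_
    refine inf_le_left.trans ?_
    rw [Real.toNNReal_of_nonpos (by linarith [h c hc])]
  have h2 : (G.sup fun c => (2 - ‖z - c‖).toNNReal ⊓ 1 : ℝ≥0) = 0 := le_antisymm h1 zero_le
  rw [h2]; rfl

private theorem A1_aux : bump G z ≤ bump G z' + ‖z - z'‖ := by
  unfold bump
  have h : (G.sup fun c => (2 - ‖z - c‖).toNNReal ⊓ 1 : ℝ≥0) ≤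
      (G.sup fun c => (2 - ‖z' - c‖).toNNReal ⊓ 1 : ℝ≥0) + (‖z - z'‖).toNNReal := by
    refine Finset.sup_le fun c hc => ?_
    have h2 := Finset.le_sup (f := fun c => (2 - ‖z' - c‖).toNNReal ⊓ 1) hc
    refine le_trans ?_ (add_le_add_left h2 _)
    have h3 : (2 - ‖z - c‖).toNNReal ≤ (2 - ‖z' - c‖).toNNReal + (‖z - z'‖).toNNReal := by
      refine le_trans ?_ (Real.toNNReal_add_le)
      apply Real.toNNReal_le_toNNReal
      have : ‖z' - c‖ ≤ ‖z - c‖ + ‖z - z'‖ := by
        have h4 : z' - c = (z - c) - (z - z') := by abel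
        rw [h4]; exact norm_sub_le _ _
      linarith
    rcases le_total ((2 - ‖z' - c‖).toNNReal) 1 with h5 | h5
    · rw [inf_eq_left.2 h5]
      exact inf_le_left.trans h3
    · rw [inf_eq_right.2 h5]
      exact inf_le_right.trans (le_add_of_nonneg_right zero_le)
  have h6 : ((G.sup fun c => (2 - ‖z - c‖).toNNReal ⊓ 1 : ℝ≥0) : ℝ) ≤
      (((G.sup fun c => (2 - ‖z' - c‖).toNNReal ⊓ 1 : ℝ≥0) + (‖z - z'‖).toNNReal : ℝ≥0) : ℝ) := by
    exact_mod_cast h
  rw [NNReal.coe_add, Real.coe_toNNReal _ (norm_nonneg _)] at h6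
  exact h6

theorem bump_lip : |bump G z - bump G z'| ≤ ‖z - z'‖ := by
  rw [abs_sub_le_iff]
  constructor
  · linarith [A1_aux G z z']
  · have := A1_aux G z' z
    rw [norm_sub_rev] at this
    linarith

end

private theorem A1_vol {d : ℕ} (c : V d × V d) : volume (Metric.closedBall c 2) = 16 ^ d := by
  rw [← closedBall_prod_same, Measure.volume_eq_prod, Measure.prod_prod,
    Real.volume_pi_closedBall _ (by norm_num), Real.volume_pi_closedBall _ (by norm_num)]
  rw [← ENNReal.ofReal_mul (by positivity), ← mul_pow, Fintype.card_fin]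
  rw [ENNReal.ofReal_pow (by norm_num)]
  norm_num

/-- `16 ^ d` is the volume of the ball of radius `2` of `V d × V d` (sup norm) -/
theorem bump_integral {d : ℕ} (G : Finset (V d × V d)) :
    Integrable (bump G) ∧ ∫ z, bump G z ≤ (G.card : ℝ) * 16 ^ d := by
  have hcont : Continuous (bump G) := by
    have : LipschitzWith 1 (bump G) := by
      apply LipschitzWith.of_dist_le_mul
      intro x y
      rw [Real.dist_eq, dist_eq_norm]
      simpa using bump_lip G x y
    exact this.continuous
  have hle : ∀ z, bump G z ≤ ∑ c ∈ G, (Metric.closedBall c 2).indicator (fun _ => (1 : ℝ)) z := by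
    intro z
    by_cases h : ∀ c ∈ G, 2 ≤ ‖z - c‖
    · rw [bump_eq_zero G z h]
      exact Finset.sum_nonneg fun c _ => Set.indicator_nonneg (fun _ _ => zero_le_one) _
    · push Not at h
      obtain ⟨c, hc, hz⟩ := h
      have h1 : (Metric.closedBall c 2).indicator (fun _ => (1 : ℝ)) z = 1 := by
        rw [Set.indicator_of_mem]
        rw [Metric.mem_closedBall, dist_eq_norm]; exact hz.le
      calc bump G z ≤ 1 := bump_le_one G z
        _ = (Metric.closedBall c 2).indicator (fun _ => (1 : ℝ)) z := h1.symm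
        _ ≤ _ := Finset.single_le_sum
            (f := fun c => (Metric.closedBall c 2).indicator (fun _ => (1 : ℝ)) z)
            (fun i _ => Set.indicator_nonneg (fun _ _ => zero_le_one) _) hc
  have hint : ∀ c ∈ G, Integrable
      (fun z : V d × V d => (Metric.closedBall c 2).indicator (fun _ => (1 : ℝ)) z) := by
    intro c _
    rw [integrable_indicator_iff Metric.isClosed_closedBall.measurableSet]
    refine integrableOn_const ?_
    rw [A1_vol]
    exact ENNReal.pow_ne_top (by norm_num)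
  have hint2 : Integrable
      (fun z : V d × V d => ∑ c ∈ G, (Metric.closedBall c 2).indicator (fun _ => (1 : ℝ)) z) :=
    integrable_finsetSum _ hint
  have hint3 : Integrable (bump G) := by
    refine hint2.mono' hcont.aestronglyMeasurable (Eventually.of_forall fun z => ?_)
    rw [Real.norm_eq_abs, abs_of_nonneg (bump_nonneg G z)]
    exact hle z
  refine ⟨hint3, ?_⟩
  refine (integral_mono hint3 hint2 hle).trans ?_
  rw [integral_finsetSum _ hint]
  have h1 : ∀ c ∈ G, ∫ z : V d × V d, (Metric.closedBall c 2).indicator (fun _ => (1 : ℝ)) z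
      = 16 ^ d := by
    intro c _
    rw [integral_indicator Metric.isClosed_closedBall.measurableSet, setIntegral_const, smul_eq_mul,
      mul_one, Measure.real, A1_vol]
    simp
  rw [Finset.sum_congr rfl h1, Finset.sum_const, nsmul_eq_mul]

end KDB
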