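import Pool.Agent.Helper34.KDB.Defs

/-! KDP-A2: the jump operator `TT`. -/

set_option autoImplicit false

namespace KDB

open MeasureTheory Set Filter Topology
open scoped ENNReal NNReal ContDiff

variable {d : ℕ} {k : V d × V d → V d → ℝ} {m c W : ℝ} {f : V d × V d → ℝ}

private theorem A2_shift_meas (hf : Measurable f) (z : V d × V d) :
    Measurable (fun w : V d => f (z.1, z.2 + w)) :=
  hf.comp (measurable_const.prodMk (measurable_const.add measurable_id))

private theorem A2_int (hk : KOk k m c W) {g : V d → ℝ} (hg : Measurable g) (B : ℝ)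
    (hB : ∀ w, |g w| ≤ B) (z : V d × V d) : Integrable (fun w => g w * k z w) := by
  refine Integrable.mono' ((hk.int z).const_mul B)
    (hg.aestronglyMeasurable.mul (hk.int z).aestronglyMeasurable) (Eventually.of_forall fun w => ?_)
  rw [Real.norm_eq_abs, abs_mul, abs_of_nonneg (hk.nonneg z w)]
  exact mul_le_mul_of_nonneg_right (hB w) (hk.nonneg z w)

private theorem A2_K (hk : KOk k m c W) (z : V d × V d) : 0 ≤ ∫ w, k z w :=
  integral_nonneg fun w => hk.nonneg z w

theorem TT_measurable (hk : KOk k m c W) (hf : Measurable f) : Measurable (TT k f) := by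
  have h1 : Measurable (fun q : (V d × V d) × V d =>
      (f (q.1.1, q.1.2 + q.2) - f q.1) * k q.1 q.2) := by
    refine Measurable.mul (Measurable.sub (hf.comp ?_) (hf.comp measurable_fst)) ?_
    · exact (measurable_fst.comp measurable_fst).prodMk
        ((measurable_snd.comp measurable_fst).add measurable_snd)
    · exact hk.meas
  have h2 : StronglyMeasurable (fun z : V d × V d => ∫ w : V d,
      (f (z.1, z.2 + w) - f z) * k z w) :=
    StronglyMeasurable.integral_prod_right
      (f := fun (z : V d × V d) (w : V d) => (f (z.1, z.2 + w) - f z) * k z w)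
      h1.stronglyMeasurable
  exact hf.add h2.measurable

/-- the integrand is integrable and `TT` is an average -/
theorem TT_eq (hk : KOk k m c W) (hf : Measurable f) (B : ℝ) (hB : ∀ z, |f z| ≤ B)
    (z : V d × V d) :
    Integrable (fun w => f (z.1, z.2 + w) * k z w) ∧
      TT k f z = f z * (1 - ∫ w, k z w) + ∫ w, f (z.1, z.2 + w) * k z w := by
  have h1 : Integrable (fun w => f (z.1, z.2 + w) * k z w) :=
    A2_int hk (A2_shift_meas hf z) B (fun w => hB _) z
  refine ⟨h1, ?_⟩
  unfold TT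
  have h2 : (fun w : V d => (f (z.1, z.2 + w) - f z) * k z w) =
      fun w => f (z.1, z.2 + w) * k z w - f z * k z w := by
    funext w
    ring
  rw [h2, integral_sub h1 ((hk.int z).const_mul _), integral_const_mul]
  ring

private theorem A2_abs (h01 : ∀ z, 0 ≤ f z ∧ f z ≤ 1) : ∀ z, |f z| ≤ 1 := fun z => by
  rw [abs_of_nonneg (h01 z).1]
  exact (h01 z).2

private theorem A2_mass (hk : KOk k m c W) (hf : Measurable f) (h01 : ∀ z, 0 ≤ f z ∧ f z ≤ 1)
    (z : V d × V d) : 0 ≤ ∫ w, f (z.1, z.2 + w) * k z w ∧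
      ∫ w, f (z.1, z.2 + w) * k z w ≤ ∫ w, k z w := by
  refine ⟨integral_nonneg fun w => mul_nonneg (h01 _).1 (hk.nonneg z w), ?_⟩
  refine integral_mono (A2_int hk (A2_shift_meas hf z) 1 (fun w => A2_abs h01 _) z) (hk.int z)
    fun w => ?_
  exact mul_le_of_le_one_left (hk.nonneg z w) (h01 _).2

theorem TT_mem (hk : KOk k m c W) (hm : m ≤ 1) (hf : Measurable f)
    (h01 : ∀ z, 0 ≤ f z ∧ f z ≤ 1) (z : V d × V d) : 0 ≤ TT k f z ∧ TT k f z ≤ 1 := by
  rw [(TT_eq hk hf 1 (A2_abs h01) z).2]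
  have h1 := A2_mass hk hf h01 z
  have h2 := A2_K hk z
  have h3 := hk.mass z
  have h4 := h01 z
  constructor
  · nlinarith
  · nlinarith

theorem TT_sub_le (hk : KOk k m c W) (hf : Measurable f)
    (h01 : ∀ z, 0 ≤ f z ∧ f z ≤ 1) (z : V d × V d) : |TT k f z - f z| ≤ m := by
  rw [(TT_eq hk hf 1 (A2_abs h01) z).2]
  have h1 := A2_mass hk hf h01 z
  have h2 := A2_K hk z
  have h3 := hk.mass z
  have h4 := h01 z
  rw [abs_le]
  constructor
  · nlinarith
  · nlinarith

theorem TT_half (hk : KOk k m c W) (hm : m ≤ 1 / 2) (hf : Measurable f)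
    (h01 : ∀ z, 0 ≤ f z ∧ f z ≤ 1) (z : V d × V d) : f z / 2 ≤ TT k f z := by
  rw [(TT_eq hk hf 1 (A2_abs h01) z).2]
  have h1 := A2_mass hk hf h01 z
  have h2 := A2_K hk z
  have h3 := hk.mass z
  have h4 := h01 z
  nlinarith

theorem TT_lip (hk : KOk k m c W) (hm : m ≤ 1) (hf : Measurable f)
    (h01 : ∀ z, 0 ≤ f z ∧ f z ≤ 1) (b : ℝ) (hb : ∀ z z', |f z - f z'| ≤ b * ‖z - z'‖)
    (z z' : V d × V d) : |TT k f z - TT k f z'| ≤ (b + c) * ‖z - z'‖ := by
  have hm1 := A2_shift_meas hf z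
  have hm2 := A2_shift_meas hf z'
  have i1 := A2_int hk hm1 1 (fun w => A2_abs h01 _) z
  have i2 := A2_int hk hm2 1 (fun w => A2_abs h01 _) z
  have i3 := A2_int hk hm2 1 (fun w => A2_abs h01 _) z'
  have hk1 := A2_K hk z
  have hk2 := hk.mass z
  have hbz : 0 ≤ b * ‖z - z'‖ := (abs_nonneg _).trans (hb z z')
  -- the decomposition
  have e1 : ∫ w, (f (z.1, z.2 + w) - f (z'.1, z'.2 + w)) * k z w =
      (∫ w, f (z.1, z.2 + w) * k z w) - ∫ w, f (z'.1, z'.2 + w) * k z w := by
    rw [← integral_sub i1 i2]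
    congr 1
    funext w
    ring
  have e2 : ∫ w, (f (z'.1, z'.2 + w) - f z') * (k z w - k z' w) =
      (∫ w, f (z'.1, z'.2 + w) * k z w) - (∫ w, f (z'.1, z'.2 + w) * k z' w) -
        f z' * ((∫ w, k z w) - ∫ w, k z' w) := by
    have j1 : Integrable (fun w => f (z'.1, z'.2 + w) * k z w - f (z'.1, z'.2 + w) * k z' w) :=
      i2.sub i3
    have j2 : Integrable (fun w => f z' * (k z w - k z' w)) :=
      ((hk.int z).sub (hk.int z')).const_mul _
    rw [← integral_sub i2 i3, ← integral_sub (hk.int z) (hk.int z'), ← integral_const_mul,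
      ← integral_sub j1 j2]
    congr 1
    funext w
    ring
  have e3 : TT k f z - TT k f z' = (f z - f z') * (1 - ∫ w, k z w) +
      (∫ w, (f (z.1, z.2 + w) - f (z'.1, z'.2 + w)) * k z w) +
      ∫ w, (f (z'.1, z'.2 + w) - f z') * (k z w - k z' w) := by
    rw [(TT_eq hk hf 1 (A2_abs h01) z).2, (TT_eq hk hf 1 (A2_abs h01) z').2, e1, e2]
    ring
  -- the three terms
  have t1 : |(f z - f z') * (1 - ∫ w, k z w)| ≤ b * ‖z - z'‖ * (1 - ∫ w, k z w) := by
    have h1 : 0 ≤ 1 - ∫ w, k z w := by linarith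
    rw [abs_mul, abs_of_nonneg h1]
    exact mul_le_mul_of_nonneg_right (hb z z') h1
  have t2 : |∫ w, (f (z.1, z.2 + w) - f (z'.1, z'.2 + w)) * k z w| ≤
      b * ‖z - z'‖ * ∫ w, k z w := by
    rw [← integral_const_mul, ← Real.norm_eq_abs]
    refine norm_integral_le_of_norm_le ((hk.int z).const_mul _) (Eventually.of_forall fun w => ?_)
    rw [Real.norm_eq_abs, abs_mul, abs_of_nonneg (hk.nonneg z w)]
    refine mul_le_mul_of_nonneg_right ((hb _ _).trans (le_of_eq ?_)) (hk.nonneg z w)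
    congr 2
    ext1
    · rfl
    · show z.2 + w - (z'.2 + w) = z.2 - z'.2
      abel
  have t3 : |∫ w, (f (z'.1, z'.2 + w) - f z') * (k z w - k z' w)| ≤ c * ‖z - z'‖ := by
    refine le_trans ?_ (hk.lip z z')
    have j3 : Integrable (fun w => |k z w - k z' w|) := ((hk.int z).sub (hk.int z')).abs
    rw [← Real.norm_eq_abs]
    refine norm_integral_le_of_norm_le j3 (Eventually.of_forall fun w => ?_)
    rw [Real.norm_eq_abs, abs_mul]
    refine mul_le_of_le_one_left (abs_nonneg _) ?_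
    rw [abs_le]
    have h1 := h01 (z'.1, z'.2 + w)
    have h2 := h01 z'
    constructor <;> linarith
  rw [e3]
  refine (abs_add_le _ _).trans ?_
  refine (add_le_add ((abs_add_le _ _).trans (add_le_add t1 t2)) t3).trans (le_of_eq ?_)
  ring

end KDB
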