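import Pool.Agent.Helper34.KDB.Defs

/-! KDP-A3: total mass under the jump operator and under free flight. -/

set_option autoImplicit false

namespace KDB

open MeasureTheory Set Filter Topology
open scoped ENNReal NNReal ContDiff

variable {d : ℕ}

/-- free flight preserves the Lebesgue measure -/
theorem measurePreserving_Sh (h : ℝ) :
    MeasurePreserving (Sh (d := d) h) (volume : Measure (V d × V d)) volume := by
  have h1 : MeasurePreserving (fun p : V d × V d => (p.1, p.2 + h • p.1))
      ((volume : Measure (V d)).prod (volume : Measure (V d))) (volume.prod volume) := by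
    refine MeasurePreserving.skew_product (f := id) (g := fun x y => y + h • x)
      (MeasurePreserving.id _) (by fun_prop) ?_
    filter_upwards with x
    exact (measurePreserving_add_right volume (h • x)).map_eq
  have h2 : MeasurePreserving (Prod.swap : V d × V d → V d × V d)
      ((volume : Measure (V d)).prod (volume : Measure (V d))) (volume.prod volume) :=
    Measure.measurePreserving_swap
  have h3 := (h2.comp h1).comp h2
  have h4 : ((Prod.swap ∘ fun p : V d × V d => (p.1, p.2 + h • p.1)) ∘ Prod.swap) =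
      Sh (d := d) h := by
    ext1 z
    rfl
  rw [h4] at h3
  exact h3

/-- the part `k0` of the kernel that does not depend on the state preserves the integral, the
other part adds at most its total intensity -/
theorem TT_mass {k0 : V d → ℝ} {X : V d × V d → ℝ} {A : V d × V d → V d → ℝ} {a : ℝ}
    (hk0 : Integrable k0) (hk0n : ∀ w, 0 ≤ k0 w) (hXi : Integrable X) (hXn : ∀ z, 0 ≤ X z)
    (hXm : Measurable X) (hAm : Measurable (Function.uncurry A)) (hAn : ∀ z w, 0 ≤ A z w)
    (hAi : ∀ z, Integrable (A z)) (hAa : ∀ z, ∫ w, A z w ≤ a)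
    {f : V d × V d → ℝ} (hf : Measurable f) (h01 : ∀ z, 0 ≤ f z ∧ f z ≤ 1)
    (hfi : Integrable f) :
    Integrable (TT (fun z w => k0 w + X z * A z w) f) ∧
      ∫ z, TT (fun z w => k0 w + X z * A z w) f z ≤ (∫ z, f z) + a * ∫ z, X z := by
  have hb : ∀ z w, |f (z.1, z.2 + w) - f z| ≤ 1 := by
    intro z w
    have h1 := h01 (z.1, z.2 + w)
    have h2 := h01 z
    rw [abs_le]
    constructor <;> linarith
  have hshm : ∀ z : V d × V d, Measurable (fun w : V d => f (z.1, z.2 + w)) := fun z =>
    hf.comp (by fun_prop)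
  have hi0 : ∀ z, Integrable (fun w => (f (z.1, z.2 + w) - f z) * k0 w) := fun z =>
    hk0.bdd_mul ((hshm z).sub_const _).aestronglyMeasurable
      (Eventually.of_forall fun w => by rw [Real.norm_eq_abs]; exact hb z w)
  have hi1 : ∀ z, Integrable (fun w => (f (z.1, z.2 + w) - f z) * A z w) := fun z =>
    (hAi z).bdd_mul ((hshm z).sub_const _).aestronglyMeasurable
      (Eventually.of_forall fun w => by rw [Real.norm_eq_abs]; exact hb z w)
  have hi2 : ∀ z : V d × V d, Integrable (fun w => f (z.1, z.2 + w) * k0 w) := fun z =>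
    hk0.bdd_mul (c := 1) (hshm z).aestronglyMeasurable
      (Eventually.of_forall fun w => by
        rw [Real.norm_eq_abs, abs_of_nonneg (h01 _).1]; exact (h01 _).2)
  have hTT : TT (fun z w => k0 w + X z * A z w) f = fun z =>
      f z + ((∫ w, f (z.1, z.2 + w) * k0 w) - f z * ∫ w, k0 w) +
        X z * ∫ w, (f (z.1, z.2 + w) - f z) * A z w := by
    ext z
    have e1 : (fun w => (f (z.1, z.2 + w) - f z) * (k0 w + X z * A z w)) = fun w =>
        (f (z.1, z.2 + w) * k0 w - f z * k0 w) + X z * ((f (z.1, z.2 + w) - f z) * A z w) := by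
      ext w
      ring
    have e2 : ∫ w, ((f (z.1, z.2 + w) * k0 w - f z * k0 w) +
        X z * ((f (z.1, z.2 + w) - f z) * A z w)) =
        (∫ w, (f (z.1, z.2 + w) * k0 w - f z * k0 w)) +
          ∫ w, X z * ((f (z.1, z.2 + w) - f z) * A z w) :=
      integral_add ((hi2 z).sub (hk0.const_mul _)) ((hi1 z).const_mul _)
    have e3 : ∫ w, (f (z.1, z.2 + w) * k0 w - f z * k0 w) =
        (∫ w, f (z.1, z.2 + w) * k0 w) - ∫ w, f z * k0 w :=
      integral_sub (hi2 z) (hk0.const_mul _)
    rw [TT, e1, e2, e3, integral_const_mul, integral_const_mul]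
    ring
  -- the part with `k0`
  have htr : ∀ w : V d, MeasurePreserving (fun z : V d × V d => (z.1, z.2 + w)) volume volume := by
    intro w
    have h1 := (MeasurePreserving.id (volume : Measure (V d))).prod
      (measurePreserving_add_right (volume : Measure (V d)) w)
    exact h1
  have htri : ∀ w : V d, ∫ z : V d × V d, f (z.1, z.2 + w) = ∫ z, f z := by
    intro w
    have h1 := integral_map (μ := (volume : Measure (V d × V d))) (htr w).measurable.aemeasurable
      (f := f) hf.aestronglyMeasurable
    rw [(htr w).map_eq] at h1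
    exact h1.symm
  have hm2 : Measurable (fun p : (V d × V d) × V d => f (p.1.1, p.1.2 + p.2)) :=
    hf.comp (by fun_prop)
  have hFi : Integrable (fun p : (V d × V d) × V d => f (p.1.1, p.1.2 + p.2) * k0 p.2)
      ((volume : Measure (V d × V d)).prod (volume : Measure (V d))) := by
    have hsm : AEStronglyMeasurable (fun p : (V d × V d) × V d => f (p.1.1, p.1.2 + p.2) * k0 p.2)
        ((volume : Measure (V d × V d)).prod (volume : Measure (V d))) :=
      hm2.aestronglyMeasurable.mul hk0.aestronglyMeasurable.comp_snd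
    rw [integrable_prod_iff' hsm]
    constructor
    · filter_upwards with w
      have h1 := ((htr w).integrable_comp hf.aestronglyMeasurable).mpr hfi
      exact h1.mul_const (k0 w)
    · have h1 : (fun w : V d => ∫ z : V d × V d, ‖f (z.1, z.2 + w) * k0 w‖) =
          fun w => (∫ z, f z) * k0 w := by
        ext w
        have h2 : (fun z : V d × V d => ‖f (z.1, z.2 + w) * k0 w‖) =
            fun z => f (z.1, z.2 + w) * k0 w := by
          ext z
          rw [Real.norm_of_nonneg (mul_nonneg (h01 _).1 (hk0n w))]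
        rw [h2, integral_mul_const]
        rw [htri]
      rw [h1]
      exact hk0.const_mul _
  have hFl : Integrable (fun z : V d × V d => ∫ w, f (z.1, z.2 + w) * k0 w) :=
    hFi.integral_prod_left
  have hFs : ∫ z : V d × V d, ∫ w, f (z.1, z.2 + w) * k0 w = (∫ w, k0 w) * ∫ z, f z := by
    rw [integral_integral_swap hFi]
    have h1 : (fun w : V d => ∫ z : V d × V d, f (z.1, z.2 + w) * k0 w) =
        fun w => k0 w * ∫ z, f z := by
      ext w
      rw [integral_mul_const, htri, mul_comm]
    rw [h1, integral_mul_const]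
  -- the part with `A`
  have hI1m : AEStronglyMeasurable
      (fun z : V d × V d => ∫ w, (f (z.1, z.2 + w) - f z) * A z w) volume := by
    have h1 : StronglyMeasurable
        (fun p : (V d × V d) × V d => (f (p.1.1, p.1.2 + p.2) - f p.1) * A p.1 p.2) :=
      ((hm2.sub (hf.comp measurable_fst)).mul hAm).stronglyMeasurable
    exact (h1.integral_prod_right').aestronglyMeasurable
  have hI1b : ∀ z : V d × V d, |∫ w, (f (z.1, z.2 + w) - f z) * A z w| ≤ a := by
    intro z
    refine (abs_integral_le_integral_abs).trans (le_trans ?_ (hAa z))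
    refine integral_mono (hi1 z).abs (hAi z) (fun w => ?_)
    simp only
    rw [abs_mul, abs_of_nonneg (hAn z w)]
    exact mul_le_of_le_one_left (hAn z w) (hb z w)
  have hXI : Integrable (fun z : V d × V d => X z * ∫ w, (f (z.1, z.2 + w) - f z) * A z w) := by
    refine Integrable.mono' (hXi.const_mul a) (hXm.aestronglyMeasurable.mul hI1m) ?_
    filter_upwards with z
    rw [norm_mul, Real.norm_of_nonneg (hXn z), Real.norm_eq_abs, mul_comm]
    exact mul_le_mul_of_nonneg_right (hI1b z) (hXn z)
  have hfk : Integrable (fun z : V d × V d => f z * ∫ w, k0 w) := hfi.mul_const _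
  have hD : Integrable (fun z : V d × V d => (∫ w, f (z.1, z.2 + w) * k0 w) - f z * ∫ w, k0 w) :=
    hFl.sub hfk
  rw [hTT]
  refine ⟨(hfi.add hD).add hXI, ?_⟩
  have e1 : ∫ z : V d × V d, (f z + ((∫ w, f (z.1, z.2 + w) * k0 w) - f z * ∫ w, k0 w) +
        X z * ∫ w, (f (z.1, z.2 + w) - f z) * A z w) =
      (∫ z : V d × V d, (f z + ((∫ w, f (z.1, z.2 + w) * k0 w) - f z * ∫ w, k0 w))) +
        ∫ z : V d × V d, X z * ∫ w, (f (z.1, z.2 + w) - f z) * A z w :=
    integral_add (hfi.add hD) hXI
  have e2 : ∫ z : V d × V d, (f z + ((∫ w, f (z.1, z.2 + w) * k0 w) - f z * ∫ w, k0 w)) =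
      (∫ z, f z) + ∫ z : V d × V d, ((∫ w, f (z.1, z.2 + w) * k0 w) - f z * ∫ w, k0 w) :=
    integral_add hfi hD
  have e3 : ∫ z : V d × V d, ((∫ w, f (z.1, z.2 + w) * k0 w) - f z * ∫ w, k0 w) =
      (∫ z : V d × V d, ∫ w, f (z.1, z.2 + w) * k0 w) - ∫ z : V d × V d, f z * ∫ w, k0 w :=
    integral_sub hFl hfk
  have e4 : ∫ z : V d × V d, f z * ∫ w, k0 w = (∫ z, f z) * ∫ w, k0 w := integral_mul_const _ _
  have e5 : ∫ z : V d × V d, X z * ∫ w, (f (z.1, z.2 + w) - f z) * A z w ≤ a * ∫ z, X z := by
    rw [← integral_const_mul]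
    refine integral_mono hXI (hXi.const_mul a) (fun z => ?_)
    simp only
    rw [mul_comm]
    exact mul_le_mul_of_nonneg_right (le_of_abs_le (hI1b z)) (hXn z)
  rw [e1, e2, e3, e4, hFs]
  linarith

end KDB
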