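import Pool.Agent.Helper34.KDB.Defs

/-! KDP-B1: uniform laws. -/

set_option autoImplicit false

namespace KDB

open MeasureTheory Set Filter Topology
open scoped ENNReal NNReal ContDiff

variable {d : ℕ}

theorem ind_measurable (r : ℝ) : Measurable (ind (d := d) r) := by
  unfold ind
  exact Measurable.ite (measurableSet_le measurable_norm measurable_const)
    measurable_const measurable_const

theorem ind_nonneg {r : ℝ} (hr : 0 ≤ r) (w : V d) : 0 ≤ ind r w := by
  unfold ind
  split_ifs
  · positivity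
  · exact le_rfl

theorem ind_le {r : ℝ} (hr : 0 ≤ r) (w : V d) : ind r w ≤ ((2 * r) ^ d)⁻¹ := by
  unfold ind
  split_ifs
  · exact le_rfl
  · positivity

theorem ind_neg (r : ℝ) (w : V d) : ind r (-w) = ind r w := by
  unfold ind
  rw [norm_neg]

theorem B1.ind_eq (r : ℝ) : (ind (d := d) r) =
    (Metric.closedBall (0 : V d) r).indicator fun _ => ((2 * r) ^ d)⁻¹ := by
  funext w
  unfold ind
  by_cases h : ‖w‖ ≤ r
  · rw [if_pos h, indicator_of_mem (by simpa using h)]
  · rw [if_neg h, indicator_of_notMem (by simpa using h)]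

theorem B1.vol_ball {r : ℝ} (hr : 0 ≤ r) :
    volume (Metric.closedBall (0 : V d) r) = ENNReal.ofReal ((2 * r) ^ d) := by
  rw [Real.volume_pi_closedBall _ hr, Fintype.card_fin]

theorem ind_integral {r : ℝ} (hr : 0 < r) :
    Integrable (ind (d := d) r) ∧ ∫ w : V d, ind r w = 1 := by
  have hpos : 0 < (2 * r) ^ d := by positivity
  have hfin : volume (Metric.closedBall (0 : V d) r) ≠ ⊤ := by
    rw [B1.vol_ball hr.le]
    exact ENNReal.ofReal_ne_top
  rw [B1.ind_eq]
  constructor
  · rw [integrable_indicator_iff measurableSet_closedBall]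
    exact integrableOn_const hfin
  · rw [integral_indicator measurableSet_closedBall, setIntegral_const, measureReal_def,
      B1.vol_ball hr.le, ENNReal.toReal_ofReal hpos.le, smul_eq_mul, mul_inv_cancel₀ hpos.ne']

/-- the uniform law of the cube of radius `r` -/
theorem ind_law {r : ℝ} (hr : 0 < r) (g : V d → ℝ) (hg : Measurable g) (B : ℝ)
    (hB : ∀ w, |g w| ≤ B) (a : V d) :
    ∫ u, g (a + r • u) ∂(uLaw d) = ∫ w, g w * ind r (w - a) := by
  have h1 : ∫ w, g w * ind r (w - a) = ∫ w, g (w + a) * ind r w := by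
    rw [← integral_add_right_eq_self (fun w => g w * ind r (w - a)) a]
    simp only [add_sub_cancel_right]
  have h2 := Measure.integral_comp_smul (volume : Measure (V d))
    (fun w => g (w + a) * ind r w) r
  have hf : Module.finrank ℝ (V d) = d := by simp
  rw [hf, abs_of_pos (by positivity)] at h2
  have h3 : ∀ u : V d, g (r • u + a) * ind r (r • u) =
      (Metric.closedBall (0 : V d) 1).indicator
        (fun u => ((2 * r) ^ d)⁻¹ * g (a + r • u)) u := by
    intro u
    unfold ind
    have hn : ‖r • u‖ ≤ r ↔ ‖u‖ ≤ 1 := by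
      rw [norm_smul, Real.norm_of_nonneg hr.le]
      exact mul_le_iff_le_one_right hr
    by_cases h : ‖u‖ ≤ 1
    · rw [if_pos (hn.2 h), indicator_of_mem (by simpa using h), add_comm a, mul_comm]
    · rw [if_neg (fun h' => h (hn.1 h')), indicator_of_notMem (by simpa using h), mul_zero]
  simp_rw [h3] at h2
  rw [integral_indicator measurableSet_closedBall, integral_const_mul, smul_eq_mul] at h2
  rw [h1, uLaw, integral_smul_measure, smul_eq_mul, ENNReal.toReal_inv, ENNReal.toReal_pow,
    ENNReal.toReal_ofNat]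
  have hrd : (r ^ d) ≠ 0 := by positivity
  have h4 : ∫ w, g (w + a) * ind r w =
      r ^ d * (((2 * r) ^ d)⁻¹ * ∫ u in Metric.closedBall 0 1, g (a + r • u)) := by
    rw [h2, mul_inv_cancel_left₀ hrd]
  rw [h4, ← mul_assoc]
  congr 1
  rw [mul_pow]
  field_simp

theorem B1.vol_one (d : ℕ) : volume (Metric.closedBall (0 : V d) 1) = (2 : ℝ≥0∞) ^ d := by
  rw [B1.vol_ball (by norm_num), mul_one, ENNReal.ofReal_pow (by norm_num), ENNReal.ofReal_ofNat]

instance : IsProbabilityMeasure (jitLaw d) := by
  refine ⟨?_⟩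
  unfold jitLaw
  have h1 : (Metric.closedBall (0 : V d × V d) 1) =
      Metric.closedBall (0 : V d) 1 ×ˢ Metric.closedBall (0 : V d) 1 := by
    rw [closedBall_prod_same]
    rfl
  rw [Measure.smul_apply, Measure.restrict_apply MeasurableSet.univ, Set.univ_inter, h1,
    Measure.volume_eq_prod, Measure.prod_prod, B1.vol_one, smul_eq_mul, ← mul_pow]
  have h2 : (2 : ℝ≥0∞) * 2 = 4 := by norm_num
  rw [h2]
  exact ENNReal.inv_mul_cancel (pow_ne_zero _ (by norm_num))
    (ENNReal.pow_ne_top (by norm_num))

instance : IsProbabilityMeasure (uLaw d) := by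
  refine ⟨?_⟩
  unfold uLaw
  rw [Measure.smul_apply, Measure.restrict_apply MeasurableSet.univ, Set.univ_inter, B1.vol_one,
    smul_eq_mul]
  exact ENNReal.inv_mul_cancel (pow_ne_zero _ (by norm_num))
    (ENNReal.pow_ne_top (by norm_num))

end KDB
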