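import Pool.Agent.Helper34.KDB.St.B1

/-! KDP-B2: two shifts of the law of the jitter are close. -/

set_option autoImplicit false

namespace KDB

open MeasureTheory Set Filter Topology
open scoped ENNReal NNReal ContDiff

variable {d : ℕ}

/-- the unit ball of the phase space -/
private abbrev B2_C (d : ℕ) : Set (V d × V d) := Metric.closedBall 0 1

private theorem B2_mp (δ : V d × V d) :
    MeasurePreserving (fun y : V d × V d => y + δ) volume volume := by
  have : (volume : Measure (V d × V d)).IsAddRightInvariant := by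
    rw [Measure.volume_eq_prod]
    infer_instance
  exact measurePreserving_add_right volume δ

private theorem B2_vol_ball (c : V d × V d) {r : ℝ} (hr : 0 ≤ r) :
    volume (Metric.closedBall c r) = ENNReal.ofReal ((2 * r) ^ d * (2 * r) ^ d) := by
  obtain ⟨c1, c2⟩ := c
  rw [← closedBall_prod_same, Measure.volume_eq_prod, Measure.prod_prod,
    Real.volume_pi_closedBall _ hr, Real.volume_pi_closedBall _ hr,
    ← ENNReal.ofReal_mul (by positivity)]
  simp

private theorem B2_vol_C : volume.real (B2_C d) = 4 ^ d := by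
  rw [measureReal_def, B2_vol_ball 0 zero_le_one, ENNReal.toReal_ofReal (by positivity),
    ← mul_pow]
  norm_num

private theorem B2_vol_C_lt : volume (B2_C d) < ⊤ := by
  rw [B2_vol_ball 0 zero_le_one]
  exact ENNReal.ofReal_lt_top

private theorem B2_sdiff (δ : V d × V d) :
    volume.real (B2_C d \ (fun y => y + δ) ⁻¹' B2_C d) ≤ 4 ^ d * (d * ‖δ‖) := by
  rcases Nat.eq_zero_or_pos d with h0 | hd
  · subst h0
    have hδ : δ = 0 := Subsingleton.elim _ _
    subst hδ
    simp
  · have hd1 : (1 : ℝ) ≤ d := by exact_mod_cast hd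
    have hle : volume.real (B2_C d \ (fun y => y + δ) ⁻¹' B2_C d) ≤ 4 ^ d := by
      rw [← B2_vol_C]
      exact measureReal_mono sdiff_subset B2_vol_C_lt.ne
    by_cases ht : ‖δ‖ ≤ 2
    · have hsub : Metric.closedBall (-((1 / 2 : ℝ) • δ)) (1 - ‖δ‖ / 2) ⊆
          B2_C d ∩ (fun y => y + δ) ⁻¹' B2_C d := by
        intro y hy
        rw [mem_closedBall_iff_norm] at hy
        have hh : ‖(1 / 2 : ℝ) • δ‖ = ‖δ‖ / 2 := by
          rw [norm_smul, Real.norm_of_nonneg (by norm_num)]
          ring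
        have h1 : ‖y‖ ≤ 1 := by
          have : y = (y - -((1 / 2 : ℝ) • δ)) - (1 / 2 : ℝ) • δ := by abel
          rw [this]
          refine (norm_sub_le _ _).trans ?_
          rw [hh]
          linarith
        have h2 : ‖y + δ‖ ≤ 1 := by
          have : y + δ = (y - -((1 / 2 : ℝ) • δ)) + (1 / 2 : ℝ) • δ := by
            have hh : δ = (1 / 2 : ℝ) • δ + (1 / 2 : ℝ) • δ := by
              rw [← add_smul]; norm_num
            nth_rewrite 1 [hh]
            abel
          rw [this]
          refine (norm_add_le _ _).trans ?_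
          rw [hh]
          linarith
        refine ⟨?_, ?_⟩
        · rw [mem_closedBall_iff_norm, sub_zero]
          exact h1
        · rw [mem_preimage, mem_closedBall_iff_norm, sub_zero]
          exact h2
      have hvol : volume.real (Metric.closedBall (-((1 / 2 : ℝ) • δ)) (1 - ‖δ‖ / 2)) =
          4 ^ d * (1 - ‖δ‖ / 2) ^ (2 * d) := by
        have hr : 0 ≤ 1 - ‖δ‖ / 2 := by linarith
        rw [measureReal_def, B2_vol_ball _ hr, ENNReal.toReal_ofReal (by positivity),
          ← mul_pow, pow_mul, ← mul_pow]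
        congr 1
        ring
      have hbern : 1 + ((2 * d : ℕ) : ℝ) * (-(‖δ‖ / 2)) ≤ (1 + -(‖δ‖ / 2)) ^ (2 * d) :=
        one_add_mul_le_pow (by linarith) _
      have hI : 4 ^ d * (1 - d * ‖δ‖) ≤
          volume.real (B2_C d ∩ (fun y => y + δ) ⁻¹' B2_C d) := by
        refine le_trans ?_ (measureReal_mono hsub
          (ne_top_of_le_ne_top B2_vol_C_lt.ne (measure_mono inter_subset_left)))
        rw [hvol]
        refine mul_le_mul_of_nonneg_left ?_ (by positivity)
        rw [sub_eq_add_neg 1 (‖δ‖ / 2)]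
        refine le_trans (le_of_eq ?_) hbern
        push_cast
        ring
      have hsum := measureReal_inter_add_sdiff (μ := volume) (s := B2_C d)
        (t := (fun y => y + δ) ⁻¹' B2_C d)
        ((measurable_add_const δ) Metric.isClosed_closedBall.measurableSet) B2_vol_C_lt.ne
      rw [B2_vol_C] at hsum
      linarith
    · rw [not_le] at ht
      refine hle.trans ?_
      have : (1 : ℝ) ≤ d * ‖δ‖ := by nlinarith
      have h4 : (0 : ℝ) < 4 ^ d := by positivity
      nlinarith

private theorem B2_sdiff' (δ : V d × V d) :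
    volume.real ((fun y => y + δ) ⁻¹' B2_C d \ B2_C d) ≤ 4 ^ d * (d * ‖δ‖) := by
  have h := B2_sdiff (-δ)
  rw [norm_neg] at h
  refine le_trans (le_of_eq ?_) h
  have he : (fun y => y + δ) ⁻¹' B2_C d \ B2_C d =
      (fun y => y + δ) ⁻¹' (B2_C d \ (fun y => y + -δ) ⁻¹' B2_C d) := by
    ext y
    simp
  rw [he, measureReal_def, measureReal_def,
    (B2_mp δ).measure_preimage_emb
      (measurableEmbedding_addRight δ)]

private theorem B2_jit (g : V d × V d → ℝ) :
    ∫ y, g y ∂(jitLaw d) = (4 ^ d)⁻¹ * ∫ y in B2_C d, g y := by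
  rw [jitLaw, integral_smul_measure]
  simp

private theorem B2_shift {s : ℝ} (hs : 0 < s) (g : V d × V d → ℝ) (z z' : V d × V d) :
    ∫ y in B2_C d, g (z - s • y) =
      ∫ y in (fun y => y + s⁻¹ • (z - z')) ⁻¹' B2_C d, g (z' - s • y) := by
  rw [← (B2_mp (s⁻¹ • (z - z'))).setIntegral_preimage_emb
      (measurableEmbedding_addRight _) (fun y => g (z - s • y))]
  refine setIntegral_congr_fun
    ((measurable_add_const _) Metric.isClosed_closedBall.measurableSet) fun y _ => ?_
  have : z - s • (y + s⁻¹ • (z - z')) = z' - s • y := by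
    rw [smul_add, smul_smul, mul_inv_cancel₀ hs.ne', one_smul]
    abel
  simp only [this]

private theorem B2_diff {G : V d × V d → ℝ} (hG : ∀ y, 0 ≤ G y) {A B : Set (V d × V d)}
    (hA : MeasurableSet A) (hB : MeasurableSet B) (hGA : IntegrableOn G A)
    (hGB : IntegrableOn G B) :
    -(∫ y in B \ A, G y) ≤ (∫ y in A, G y) - ∫ y in B, G y ∧
      (∫ y in A, G y) - ∫ y in B, G y ≤ ∫ y in A \ B, G y ∧
      0 ≤ ∫ y in A \ B, G y ∧ 0 ≤ ∫ y in B \ A, G y := by
  have h1 : (∫ y in A ∩ B, G y) + ∫ y in A \ B, G y = ∫ y in A, G y :=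
    integral_inter_add_sdiff hB hGA
  have h2 : (∫ y in B ∩ A, G y) + ∫ y in B \ A, G y = ∫ y in B, G y :=
    integral_inter_add_sdiff hA hGB
  rw [inter_comm] at h2
  have h3 : 0 ≤ ∫ y in A \ B, G y := integral_nonneg hG
  have h4 : 0 ≤ ∫ y in B \ A, G y := integral_nonneg hG
  refine ⟨by linarith, by linarith, h3, h4⟩

/-- two shifts of the uniform law of the jitter are close: for every bounded `g` -/
theorem jit_shift {s : ℝ} (hs : 0 < s) (g : V d × V d → ℝ) (hg : Measurable g)
    (hg0 : ∀ z, 0 ≤ g z ∧ g z ≤ 1) (z z' : V d × V d) :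
    |∫ y, g (z - s • y) ∂(jitLaw d) - ∫ y, g (z' - s • y) ∂(jitLaw d)| ≤
      d / s * ‖z - z'‖ := by
  set δ := s⁻¹ • (z - z') with hδ
  have hnδ : ‖δ‖ = ‖z - z'‖ / s := by
    rw [hδ, norm_smul, norm_inv, Real.norm_of_nonneg hs.le]
    field_simp
  set G : V d × V d → ℝ := fun y => g (z' - s • y) with hGdef
  have hGm : Measurable G := hg.comp (by fun_prop)
  have hG0 : ∀ y, 0 ≤ G y := fun y => (hg0 _).1
  have hG1 : ∀ y, G y ≤ 1 := fun y => (hg0 _).2
  set A : Set (V d × V d) := (fun y => y + δ) ⁻¹' B2_C d with hAdef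
  have hBm : MeasurableSet (B2_C d) := Metric.isClosed_closedBall.measurableSet
  have hAm : MeasurableSet A := (measurable_add_const δ) hBm
  have hvA : volume A = volume (B2_C d) :=
    (B2_mp δ).measure_preimage_emb (measurableEmbedding_addRight δ) _
  have hint : ∀ S : Set (V d × V d), volume S < ⊤ → IntegrableOn G S := by
    intro S hS
    refine Measure.integrableOn_of_bounded (M := 1) hS.ne hGm.aestronglyMeasurable ?_
    refine ae_of_all _ fun y => ?_
    rw [Real.norm_of_nonneg (hG0 y)]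
    exact hG1 y
  have hle : ∀ S : Set (V d × V d), volume S < ⊤ → ∫ y in S, G y ≤ volume.real S := by
    intro S hS
    have : IsFiniteMeasure (volume.restrict S) := ⟨by simpa using hS⟩
    calc ∫ y in S, G y ≤ ∫ _y in S, (1 : ℝ) :=
          integral_mono (hint S hS) (integrable_const _) hG1
      _ = volume.real S := by simp
  obtain ⟨h1, h2, -, -⟩ := B2_diff hG0 hAm hBm (hint _ (hvA ▸ B2_vol_C_lt))
    (hint _ B2_vol_C_lt)
  have h3 := hle (A \ B2_C d) ((measure_mono sdiff_subset).trans_lt (hvA ▸ B2_vol_C_lt))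
  have h4 := hle (B2_C d \ A) ((measure_mono sdiff_subset).trans_lt B2_vol_C_lt)
  have h5 : volume.real (A \ B2_C d) ≤ 4 ^ d * (d * ‖δ‖) := B2_sdiff' δ
  have h6 : volume.real (B2_C d \ A) ≤ 4 ^ d * (d * ‖δ‖) := B2_sdiff δ
  rw [B2_jit (fun y => g (z - s • y)), B2_jit (fun y => g (z' - s • y)), B2_shift hs g z z',
    ← mul_sub, abs_mul, abs_of_pos (by positivity : (0 : ℝ) < (4 ^ d)⁻¹)]
  have h7 : |(∫ y in A, G y) - ∫ y in B2_C d, G y| ≤ 4 ^ d * (d * ‖δ‖) := by
    rw [abs_le]
    constructor <;> linarith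
  calc (4 ^ d)⁻¹ * |(∫ y in A, G y) - ∫ y in B2_C d, G y|
      ≤ (4 ^ d)⁻¹ * (4 ^ d * (d * ‖δ‖)) := mul_le_mul_of_nonneg_left h7 (by positivity)
    _ = d * ‖δ‖ := by field_simp
    _ = d / s * ‖z - z'‖ := by rw [hnδ]; ring

/-- the same for the mass of kernels -/
theorem jit_shift_kernel {s : ℝ} (hs : 0 < s) (a : V d × V d → V d → ℝ)
    (ha : Measurable (Function.uncurry a)) (ha0 : ∀ z w, 0 ≤ a z w)
    (hai : ∀ z, Integrable (a z)) (ha1 : ∀ z, ∫ w, a z w ≤ 1) (z z' : V d × V d) :
    ∫ w, |∫ y, a (z - s • y) w ∂(jitLaw d) - ∫ y, a (z' - s • y) w ∂(jitLaw d)| ≤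
      2 * d / s * ‖z - z'‖ := by
  set δ := s⁻¹ • (z - z') with hδ
  have hnδ : ‖δ‖ = ‖z - z'‖ / s := by
    rw [hδ, norm_smul, norm_inv, Real.norm_of_nonneg hs.le]
    field_simp
  set G : V d × V d → V d → ℝ := fun y w => a (z' - s • y) w with hGdef
  have hGm : Measurable (Function.uncurry G) := by
    have : Function.uncurry G = Function.uncurry a ∘ fun p : (V d × V d) × V d =>
        (z' - s • p.1, p.2) := rfl
    rw [this]
    exact ha.comp (by fun_prop)
  have hG0 : ∀ y w, 0 ≤ G y w := fun y w => ha0 _ _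
  have hGi : ∀ y, Integrable (G y) := fun y => hai _
  have hG1 : ∀ y, ∫ w, G y w ≤ 1 := fun y => ha1 _
  set A : Set (V d × V d) := (fun y => y + δ) ⁻¹' B2_C d with hAdef
  have hBm : MeasurableSet (B2_C d) := Metric.isClosed_closedBall.measurableSet
  have hAm : MeasurableSet A := (measurable_add_const δ) hBm
  have hvA : volume A = volume (B2_C d) :=
    (B2_mp δ).measure_preimage_emb (measurableEmbedding_addRight δ) _
  have hprod : ∀ S : Set (V d × V d), volume S < ⊤ →
      Integrable (Function.uncurry G) ((volume.restrict S).prod (volume : Measure (V d))) := by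
    intro S hS
    have : IsFiniteMeasure (volume.restrict S) := ⟨by simpa using hS⟩
    rw [integrable_prod_iff hGm.aestronglyMeasurable]
    refine ⟨ae_of_all _ fun y => hGi y, ?_⟩
    have hm : StronglyMeasurable fun y : V d × V d => ∫ w, ‖Function.uncurry G (y, w)‖ :=
      (hGm.norm.stronglyMeasurable).integral_prod_right
    refine Integrable.mono' (integrable_const (1 : ℝ)) hm.aestronglyMeasurable
      (ae_of_all _ fun y => ?_)
    have h1 : ∫ w, ‖Function.uncurry G (y, w)‖ = ∫ w, G y w := by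
      refine integral_congr_ae (ae_of_all _ fun w => ?_)
      simp only [Function.uncurry]
      exact Real.norm_of_nonneg (hG0 y w)
    rw [h1, Real.norm_of_nonneg (integral_nonneg (hG0 y))]
    exact hG1 y
  have hIw : ∀ S : Set (V d × V d), volume S < ⊤ → Integrable fun w => ∫ y in S, G y w :=
    fun S hS => (hprod S hS).integral_prod_right
  have hle : ∀ S : Set (V d × V d), volume S < ⊤ →
      ∫ w, ∫ y in S, G y w ≤ volume.real S := by
    intro S hS
    have : IsFiniteMeasure (volume.restrict S) := ⟨by simpa using hS⟩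
    rw [← integral_integral_swap (hprod S hS)]
    calc ∫ y in S, ∫ w, G y w ≤ ∫ _y in S, (1 : ℝ) :=
          integral_mono (hprod S hS).integral_prod_left (integrable_const _) hG1
      _ = volume.real S := by simp
  have hAv : volume A < ⊤ := hvA ▸ B2_vol_C_lt
  have hS1 : volume (A \ B2_C d) < ⊤ := (measure_mono sdiff_subset).trans_lt hAv
  have hS2 : volume (B2_C d \ A) < ⊤ := (measure_mono sdiff_subset).trans_lt B2_vol_C_lt
  have h3 := hle _ hS1
  have h4 := hle _ hS2
  have h5 : volume.real (A \ B2_C d) ≤ 4 ^ d * (d * ‖δ‖) := B2_sdiff' δ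
  have h6 : volume.real (B2_C d \ A) ≤ 4 ^ d * (d * ‖δ‖) := B2_sdiff δ
  have hptA : ∀ᵐ w, IntegrableOn (fun y => G y w) A := (hprod A hAv).prod_left_ae
  have hptB : ∀ᵐ w, IntegrableOn (fun y => G y w) (B2_C d) :=
    (hprod _ B2_vol_C_lt).prod_left_ae
  have hbound : ∀ᵐ w : V d,
      |∫ y, a (z - s • y) w ∂(jitLaw d) - ∫ y, a (z' - s • y) w ∂(jitLaw d)| ≤
        (4 ^ d)⁻¹ * ((∫ y in A \ B2_C d, G y w) + ∫ y in B2_C d \ A, G y w) := by
    filter_upwards [hptA, hptB] with w hA' hB'
    obtain ⟨h1, h2, h7, h8⟩ := B2_diff (fun y => hG0 y w) hAm hBm hA' hB'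
    rw [B2_jit (fun y => a (z - s • y) w), B2_jit (fun y => a (z' - s • y) w),
      B2_shift hs (fun y => a y w) z z', ← mul_sub, abs_mul,
      abs_of_pos (by positivity : (0 : ℝ) < (4 ^ d)⁻¹)]
    refine mul_le_mul_of_nonneg_left ?_ (by positivity)
    rw [abs_le]
    constructor
    · linarith
    · linarith
  refine (integral_mono_of_nonneg (ae_of_all _ fun w => abs_nonneg _)
    (((hIw _ hS1).add (hIw _ hS2)).const_mul _) hbound).trans ?_
  rw [integral_const_mul]
  have hadd : ∫ w, ((fun w => ∫ y in A \ B2_C d, G y w) + fun w => ∫ y in B2_C d \ A, G y w) w =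
      (∫ w, ∫ y in A \ B2_C d, G y w) + ∫ w, ∫ y in B2_C d \ A, G y w :=
    integral_add (hIw _ hS1) (hIw _ hS2)
  rw [hadd]
  calc (4 ^ d)⁻¹ * ((∫ w, ∫ y in A \ B2_C d, G y w) + ∫ w, ∫ y in B2_C d \ A, G y w)
      ≤ (4 ^ d)⁻¹ * (4 ^ d * (d * ‖δ‖) + 4 ^ d * (d * ‖δ‖)) :=
        mul_le_mul_of_nonneg_left (by linarith) (by positivity)
    _ = 2 * (d * ‖δ‖) := by field_simp; ring
    _ = 2 * d / s * ‖z - z'‖ := by rw [hnδ]; ring

end KDB
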