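import Pool.Agent.Helper34.KDB.Defs
import Pool.Agent.Helper37.KDB.St.D1

/-! KDP-B3: sizes of the rings and of their intensities. -/

set_option autoImplicit false

namespace KDB

open MeasureTheory Set Filter Topology
open scoped ENNReal NNReal ContDiff

variable (p : Par)

theorem B3_ell_ge (hp : p.Ok) : (1000 : ℝ) ≤ p.ell := by
  have h1 : 1000 ≤ p.ell := by
    unfold Par.ell
    calc 1000 ≤ p.L := hp.hL
      _ = p.L ^ 1 := (pow_one _).symm
      _ ≤ p.L ^ p.q := Nat.pow_le_pow_right (by have := hp.hL; omega) hp.hq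
  exact_mod_cast h1

theorem B3_L_ge (hp : p.Ok) : (1000 : ℝ) ≤ p.L := by exact_mod_cast hp.hL

theorem B3_rho_pos (hp : p.Ok) (k : ℕ) : 0 < p.rho k := by
  have := B3_ell_ge p hp
  unfold Par.rho
  positivity

theorem B3_rho_succ (k : ℕ) : p.rho (k + 1) = p.ell * p.rho k := by
  unfold Par.rho
  rw [pow_succ]; ring

theorem B3_rd_err {d : ℕ} (c : ℝ) (hc : 0 < c) (y : V d) :
    ‖c • Par.toV (Par.rd c y) - y‖ ≤ c / 2 := by
  rw [pi_norm_le_iff_of_nonneg (by positivity)]
  intro a
  have h1 : (c • Par.toV (Par.rd c y) - y) a = -(c * (y a / c - round (y a / c))) := by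
    simp only [Pi.sub_apply, Pi.smul_apply, smul_eq_mul, Par.toV, Par.rd]
    field_simp
    ring
  rw [h1, norm_neg, Real.norm_eq_abs, abs_mul, abs_of_pos hc]
  have h2 := abs_sub_round (y a / c)
  nlinarith

/-- the nested rounding: a point of the finer lattice of size at most `C / 2 + c / 2` -/
theorem B3_nested {d : ℕ} (c C : ℝ) (hc : 0 < c) (hC : 0 < C) (y : V d) :
    ‖c • Par.toV (Par.rd c (C • Par.toV (Par.rd C y) - y))‖ ≤ C / 2 + c / 2 := by
  have h1 := B3_rd_err c hc (C • Par.toV (Par.rd C y) - y)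
  have h2 := B3_rd_err C hC y
  calc ‖c • Par.toV (Par.rd c (C • Par.toV (Par.rd C y) - y))‖
      = ‖(C • Par.toV (Par.rd C y) - y) + (c • Par.toV (Par.rd c (C • Par.toV (Par.rd C y) - y)) -
          (C • Par.toV (Par.rd C y) - y))‖ := by congr 1; abel
    _ ≤ C / 2 + c / 2 := (norm_add_le _ _).trans (add_le_add h2 h1)

theorem rad_pos (hp : p.Ok) (k : ℕ) : 0 < p.rad k := by
  have := B3_ell_ge p hp
  unfold Par.rad
  positivity

theorem B3_rad_le (hp : p.Ok) (k : ℕ) : p.rad k ≤ p.rho k := by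
  have hl := B3_ell_ge p hp
  have hl0 : (0 : ℝ) < p.ell := by linarith
  unfold Par.rad Par.rho Par.b
  rw [zpow_sub₀ hl0.ne', zpow_natCast, zpow_natCast]
  apply div_le_self (by positivity)
  exact one_le_pow₀ (by linarith)

theorem B3_round_meas {d : ℕ} (c : ℝ) : Measurable (fun y : V d => Par.toV (Par.rd c y)) := by
  apply measurable_pi_lambda
  intro i
  have h1 : (fun y : V d => Par.toV (Par.rd c y) i) =
      fun y : V d => ((⌊y i / c + 1 / 2⌋ : ℤ) : ℝ) := by
    funext y
    simp only [Par.toV, Par.rd]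
    rw [round_eq]
  rw [h1]
  have h2 : Measurable (fun y : V d => y i / c + 1 / 2) := by fun_prop
  exact measurable_from_top.comp h2.floor

theorem wst_measurable (k j : ℕ) :
    Measurable (fun z : p.St => p.wst k j z.1 z.2) := by
  by_cases hA : p.inA k j
  · have h1 : (fun z : p.St => p.wst k j z.1 z.2) = fun z : p.St =>
        (p.xi k / p.hrem k j) • Par.toV (Par.rd (p.xi k)
          (p.xi (k + 1) • Par.toV (Par.rd (p.xi (k + 1)) (z.1 + p.hrem k j • z.2)) -
            (z.1 + p.hrem k j • z.2))) := by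
      funext z
      unfold Par.wst Par.rm Par.rA
      rw [if_pos hA, if_pos hA, if_pos hA]
    rw [h1]
    have h2 : Measurable (fun z : p.St => z.1 + p.hrem k j • z.2) := by fun_prop
    have h3 : Measurable (fun z : p.St =>
        Par.toV (Par.rd (p.xi (k + 1)) (z.1 + p.hrem k j • z.2))) :=
      (B3_round_meas (p.xi (k + 1))).comp h2
    have h4 : Measurable (fun z : p.St =>
        p.xi (k + 1) • Par.toV (Par.rd (p.xi (k + 1)) (z.1 + p.hrem k j • z.2)) -
            (z.1 + p.hrem k j • z.2)) := (h3.const_smul (p.xi (k + 1))).sub h2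
    have h5 : Measurable (fun z : p.St => Par.toV (Par.rd (p.xi k)
        (p.xi (k + 1) • Par.toV (Par.rd (p.xi (k + 1)) (z.1 + p.hrem k j • z.2)) -
            (z.1 + p.hrem k j • z.2)))) := (B3_round_meas (p.xi k)).comp h4
    exact h5.const_smul (p.xi k / p.hrem k j)
  · have h1 : (fun z : p.St => p.wst k j z.1 z.2) = fun z : p.St =>
        p.rho k • Par.toV (Par.rd (p.rho k)
          (p.rho (k + 1) • Par.toV (Par.rd (p.rho (k + 1)) z.2) - z.2)) := by
      funext z
      unfold Par.wst Par.rm Par.rA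
      rw [if_neg hA, if_neg hA, if_neg hA]
    rw [h1]
    have h3 : Measurable (fun z : p.St => Par.toV (Par.rd (p.rho (k + 1)) z.2)) :=
      (B3_round_meas (p.rho (k + 1))).comp measurable_snd
    have h4 : Measurable (fun z : p.St =>
        p.rho (k + 1) • Par.toV (Par.rd (p.rho (k + 1)) z.2) - z.2) :=
      (h3.const_smul (p.rho (k + 1))).sub measurable_snd
    have h5 : Measurable (fun z : p.St => Par.toV (Par.rd (p.rho k)
        (p.rho (k + 1) • Par.toV (Par.rd (p.rho (k + 1)) z.2) - z.2))) :=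
      (B3_round_meas (p.rho k)).comp h4
    exact h5.const_smul (p.rho k)

/-- size of the central velocity change -/
theorem wst_le (hp : p.Ok) (k j : ℕ) (x v : V p.d) :
    ‖p.wst k j x v‖ + p.rad k ≤ p.L * p.rho (k + 1) := by
  have hl := B3_ell_ge p hp
  have hL := B3_L_ge p hp
  have hr := B3_rho_pos p hp k
  have hr1 := B3_rho_succ p k
  have hrad := B3_rad_le p hp k
  have hrr : 1000 * p.rho k ≤ p.rho (k + 1) := by rw [hr1]; nlinarith
  by_cases hA : p.inA k j
  · have h1 : p.wst k j x v =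
        (p.hrem k j)⁻¹ • (p.xi k • Par.toV (Par.rd (p.xi k)
          (p.xi (k + 1) • Par.toV (Par.rd (p.xi (k + 1)) (x + p.hrem k j • v)) -
            (x + p.hrem k j • v)))) := by
      unfold Par.wst Par.rm Par.rA
      rw [if_pos hA, if_pos hA, if_pos hA, smul_smul, div_eq_inv_mul]
    have hxk : p.xi k = p.rho k * (p.L : ℝ) ^ k := xi_eq p k
    have hxk1 : p.xi (k + 1) = p.rho (k + 1) * (p.L : ℝ) ^ (k + 1) := xi_eq p (k + 1)
    have hLk : 0 < (p.L : ℝ) ^ k := by positivity
    have hxpos : 0 < p.xi k := by rw [hxk]; positivity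
    have hr1pos : 0 < p.rho (k + 1) := B3_rho_pos p hp (k + 1)
    have hx1pos : 0 < p.xi (k + 1) := by rw [hxk1]; positivity
    obtain ⟨hb1, -⟩ := hrem_bounds p hp k j hA
    have hinv : 1 / (p.ell : ℝ) ≤ 1 / 1000 := one_div_le_one_div_of_le (by norm_num) hl
    have hb2 : (p.L : ℝ) ^ k * (999 / 1000) ≤ p.hrem k j := by
      refine le_trans ?_ hb1
      apply mul_le_mul_of_nonneg_left _ hLk.le
      linarith
    have hhpos : 0 < p.hrem k j := lt_of_lt_of_le (by positivity) hb2
    have h2 := B3_nested (p.xi k) (p.xi (k + 1)) hxpos hx1pos (x + p.hrem k j • v)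
    have h3 : ‖p.wst k j x v‖ ≤ (p.hrem k j)⁻¹ * (p.xi (k + 1) / 2 + p.xi k / 2) := by
      rw [h1, norm_smul, Real.norm_eq_abs, abs_of_pos (inv_pos.mpr hhpos)]
      exact mul_le_mul_of_nonneg_left h2 (inv_pos.mpr hhpos).le
    have h4 : (p.hrem k j)⁻¹ * (p.xi (k + 1) / 2 + p.xi k / 2) ≤
        p.L * p.rho (k + 1) - p.rho k := by
      rw [inv_mul_le_iff₀ hhpos]
      have hpos : 0 ≤ p.L * p.rho (k + 1) - p.rho k := by nlinarith
      refine le_trans ?_ (mul_le_mul_of_nonneg_right hb2 hpos)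
      rw [hxk, hxk1, pow_succ]
      have h5 : p.rho (k + 1) * ((p.L : ℝ) ^ k * p.L) / 2 + p.rho k * (p.L : ℝ) ^ k / 2 =
          (p.L : ℝ) ^ k * (p.rho (k + 1) * p.L / 2 + p.rho k / 2) := by ring
      have h6 : (p.L : ℝ) ^ k * (999 / 1000) * (p.L * p.rho (k + 1) - p.rho k) =
          (p.L : ℝ) ^ k * ((999 / 1000) * (p.L * p.rho (k + 1) - p.rho k)) := by ring
      rw [h5, h6]
      apply mul_le_mul_of_nonneg_left _ hLk.le
      nlinarith
    linarith
  · have h1 : p.wst k j x v =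
        p.rho k • Par.toV (Par.rd (p.rho k)
          (p.rho (k + 1) • Par.toV (Par.rd (p.rho (k + 1)) v) - v)) := by
      unfold Par.wst Par.rm Par.rA
      rw [if_neg hA, if_neg hA, if_neg hA]
    have h2 := B3_nested (p.rho k) (p.rho (k + 1)) hr (B3_rho_pos p hp (k + 1)) v
    rw [← h1] at h2
    nlinarith

theorem B3_chi (k j : ℕ) : 0 ≤ p.chi k j ∧ p.chi k j ≤ 1 := by
  have h1 : ∀ u : ℝ, 0 ≤ Par.trap u ∧ Par.trap u ≤ 1 := fun u =>
    ⟨le_max_left _ _, max_le zero_le_one (min_le_left _ _)⟩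
  unfold Par.chi
  split_ifs
  · exact h1 _
  · exact h1 _
  · exact ⟨le_refl _, zero_le_one⟩

theorem pring_nonneg (hp : p.Ok) (k j : ℕ) : 0 ≤ p.pring k j := by
  unfold Par.pring
  have := hp.hmu
  have := (B3_chi p k j).1
  positivity

theorem pring_le (hp : p.Ok) (k j : ℕ) : p.pring k j ≤ p.mu / p.W k := by
  unfold Par.pring
  have h1 := hp.hmu
  have h2 := (B3_chi p k j).2
  apply div_le_div_of_nonneg_right _ (by positivity)
  nlinarith

/-- no rings outside the windows -/
theorem pring_zero (k j : ℕ) (h1 : ¬ p.inA k j) (h2 : ¬ p.inB k j) : p.pring k j = 0 := by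
  unfold Par.pring Par.chi
  rw [if_neg h1, if_neg h2]
  simp

theorem sum_W_le (hp : p.Ok) :
    ∑ k ∈ Finset.range p.n, p.mu / p.W k ≤ p.h * p.mr := by
  have hL := B3_L_ge p hp
  have hH : (1 : ℝ) ≤ p.H := by exact_mod_cast hp.hH
  have hmu := hp.hmu
  have h1 : p.h * p.mr = p.mu / p.H * 2 := by
    unfold Par.h Par.mr
    field_simp
  have h2 : ∀ k ∈ Finset.range p.n, p.mu / p.W k ≤ p.mu / p.H * (1 / 2 : ℝ) ^ k := by
    intro k _
    have h3 : (p.W k : ℝ) = p.H * (p.L : ℝ) ^ k := by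
      unfold Par.W
      push_cast
      ring
    rw [h3, one_div, inv_pow, ← div_eq_mul_inv, div_div]
    apply div_le_div_of_nonneg_left hmu.le (by positivity)
    gcongr
    linarith
  calc ∑ k ∈ Finset.range p.n, p.mu / p.W k
      ≤ ∑ k ∈ Finset.range p.n, p.mu / p.H * (1 / 2 : ℝ) ^ k := Finset.sum_le_sum h2
    _ = p.mu / p.H * ∑ k ∈ Finset.range p.n, (1 / 2 : ℝ) ^ k := by rw [Finset.mul_sum]
    _ ≤ p.mu / p.H * 2 := by
      apply mul_le_mul_of_nonneg_left (sum_geometric_two_le _) (by positivity)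
    _ = p.h * p.mr := h1.symm

theorem sum_pring_le (hp : p.Ok) (j : ℕ) :
    ∑ k ∈ Finset.range p.n, p.pring k j ≤ p.h * p.mr :=
  (Finset.sum_le_sum fun k _ => pring_le p hp k j).trans (sum_W_le p hp)

end KDB
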