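import Pool.Agent.Helper34.KDB.St.B2
import Pool.Agent.Helper34.KDB.St.B3

/-! KDP-B4: properties of the density of the rings. -/

set_option autoImplicit false

namespace KDB

open MeasureTheory Set Filter Topology
open scoped ENNReal NNReal ContDiff

variable (p : Par)

/-- density of the rings without jitter -/
private noncomputable def B4_a (k j : ℕ) (z : V p.d × V p.d) (w : V p.d) : ℝ :=
  (ind (p.rad k) (w - p.wst k j z.1 z.2) + ind (p.rad k) (w + p.wst k j z.1 z.2)) / 2

private lemma B4_rk (k j : ℕ) (z : p.St) (w : V p.d) :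
    p.rk k j z w = ∫ y, B4_a p k j (z - p.vs • y) w ∂(jitLaw p.d) := rfl

private lemma B4_meas (k j : ℕ) : Measurable (Function.uncurry (B4_a p k j)) := by
  have hw : Measurable (fun q : (V p.d × V p.d) × V p.d => p.wst k j q.1.1 q.1.2) :=
    (wst_measurable p k j).comp measurable_fst
  have h1 : Measurable (fun q : (V p.d × V p.d) × V p.d =>
      ind (p.rad k) (q.2 - p.wst k j q.1.1 q.1.2)) :=
    (ind_measurable (p.rad k)).comp (measurable_snd.sub hw)
  have h2 : Measurable (fun q : (V p.d × V p.d) × V p.d =>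
      ind (p.rad k) (q.2 + p.wst k j q.1.1 q.1.2)) :=
    (ind_measurable (p.rad k)).comp (measurable_snd.add hw)
  exact (h1.add h2).div_const 2

private lemma B4_nonneg (hp : p.Ok) (k j : ℕ) (z : V p.d × V p.d) (w : V p.d) :
    0 ≤ B4_a p k j z w := by
  have hr := (rad_pos p hp k).le
  unfold B4_a
  have := ind_nonneg hr (w - p.wst k j z.1 z.2)
  have := ind_nonneg hr (w + p.wst k j z.1 z.2)
  positivity

private lemma B4_le (hp : p.Ok) (k j : ℕ) (z : V p.d × V p.d) (w : V p.d) :
    B4_a p k j z w ≤ ((2 * p.rad k) ^ p.d)⁻¹ := by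
  have hr := (rad_pos p hp k).le
  unfold B4_a
  have := ind_le hr (w - p.wst k j z.1 z.2)
  have := ind_le hr (w + p.wst k j z.1 z.2)
  linarith

private lemma B4_even (k j : ℕ) (z : V p.d × V p.d) (w : V p.d) :
    B4_a p k j z (-w) = B4_a p k j z w := by
  unfold B4_a
  have e1 : -w - p.wst k j z.1 z.2 = -(w + p.wst k j z.1 z.2) := by abel
  have e2 : -w + p.wst k j z.1 z.2 = -(w - p.wst k j z.1 z.2) := by abel
  rw [e1, e2, ind_neg, ind_neg]
  ring

private lemma B4_int (hp : p.Ok) (k j : ℕ) (z : V p.d × V p.d) :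
    Integrable (B4_a p k j z) ∧ ∫ w, B4_a p k j z w = 1 := by
  obtain ⟨hi, h1⟩ := ind_integral (d := p.d) (rad_pos p hp k)
  have i1 : Integrable (fun w => ind (p.rad k) (w - p.wst k j z.1 z.2)) := hi.comp_sub_right _
  have i2 : Integrable (fun w => ind (p.rad k) (w + p.wst k j z.1 z.2)) := hi.comp_add_right _
  refine ⟨(i1.add i2).div_const 2, ?_⟩
  unfold B4_a
  rw [integral_div, integral_add i1 i2,
    integral_sub_right_eq_self (fun w => ind (p.rad k) w) (p.wst k j z.1 z.2),
    integral_add_right_eq_self (fun w => ind (p.rad k) w) (p.wst k j z.1 z.2), h1]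
  norm_num

private lemma B4_supp (hp : p.Ok) (k j : ℕ) (z : V p.d × V p.d) (w : V p.d)
    (hw : p.L * p.rho (k + 1) < ‖w‖) : B4_a p k j z w = 0 := by
  have hle := wst_le p hp k j z.1 z.2
  have h1 : ¬ ‖w - p.wst k j z.1 z.2‖ ≤ p.rad k := by
    have := norm_sub_norm_le w (p.wst k j z.1 z.2)
    intro h
    linarith
  have h2 : ¬ ‖w + p.wst k j z.1 z.2‖ ≤ p.rad k := by
    have := norm_sub_norm_le w (-(p.wst k j z.1 z.2))
    rw [norm_neg, sub_neg_eq_add] at this
    intro h
    linarith
  unfold B4_a ind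
  rw [if_neg h1, if_neg h2]
  norm_num

private lemma B4_gc {d : ℕ} (s : ℝ) (z : V d × V d) :
    Continuous (fun y : V d × V d => z - s • y) := by fun_prop

private lemma B4_gm {d : ℕ} (a : V d × V d → V d → ℝ) (ha : Measurable (Function.uncurry a))
    (s : ℝ) (z : V d × V d) :
    Measurable (fun q : (V d × V d) × V d => a (z - s • q.1) q.2) := by
  have h2 : Measurable (fun q : (V d × V d) × V d =>
      ((z - s • q.1, q.2) : (V d × V d) × V d)) :=
    ((B4_gc s z).measurable.comp measurable_fst).prodMk measurable_snd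
  exact ha.comp h2

private lemma B4_gm2 {d : ℕ} (a : V d × V d → V d → ℝ) (ha : Measurable (Function.uncurry a))
    (s : ℝ) :
    Measurable (fun z : (V d × V d) × V d => ∫ y, a (z.1 - s • y) z.2 ∂(jitLaw d)) := by
  have hc : Continuous (fun q : ((V d × V d) × V d) × (V d × V d) =>
      ((q.1.1 - s • q.2, q.1.2) : (V d × V d) × V d)) := by fun_prop
  have hm : StronglyMeasurable (fun q : ((V d × V d) × V d) × (V d × V d) =>
      a (q.1.1 - s • q.2) q.1.2) := (ha.comp hc.measurable).stronglyMeasurable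
  exact (hm.integral_prod_right' (ν := jitLaw d)).measurable

private lemma B4_gprod {d : ℕ} (a : V d × V d → V d → ℝ) (ha : Measurable (Function.uncurry a))
    (h0 : ∀ z w, 0 ≤ a z w) (hi : ∀ z, Integrable (a z)) (h1 : ∀ z, ∫ w, a z w = 1)
    (s : ℝ) (z : V d × V d) :
    Integrable (fun q : (V d × V d) × V d => a (z - s • q.1) q.2)
      ((jitLaw d).prod volume) := by
  rw [integrable_prod_iff (B4_gm a ha s z).aestronglyMeasurable]
  refine ⟨Eventually.of_forall fun y => hi (z - s • y), ?_⟩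
  have e : (fun y : V d × V d => ∫ w, ‖a (z - s • y) w‖) = fun _ => (1 : ℝ) := by
    funext y
    rw [← h1 (z - s • y)]
    refine integral_congr_ae (Eventually.of_forall fun w => ?_)
    exact Real.norm_of_nonneg (h0 _ w)
  simp only [e]
  exact integrable_const _

private lemma B4_gint {d : ℕ} (a : V d × V d → V d → ℝ) (ha : Measurable (Function.uncurry a))
    (h0 : ∀ z w, 0 ≤ a z w) (hi : ∀ z, Integrable (a z)) (h1 : ∀ z, ∫ w, a z w = 1)
    (s : ℝ) (z : V d × V d) :
    Integrable (fun w => ∫ y, a (z - s • y) w ∂(jitLaw d)) ∧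
      ∫ w, ∫ y, a (z - s • y) w ∂(jitLaw d) = 1 := by
  have hP := B4_gprod a ha h0 hi h1 s z
  refine ⟨hP.integral_prod_right, ?_⟩
  have hs := integral_integral_swap (f := fun y w => a (z - s • y) w) hP
  rw [← hs]
  have e : (fun y : V d × V d => ∫ w, a (z - s • y) w) = fun _ => (1 : ℝ) := by
    funext y
    exact h1 _
  simp only [e]
  simp

/-- properties of the density of the rings of level `k` -/
theorem rk_prop (hp : p.Ok) (k j : ℕ) :
    Measurable (Function.uncurry (p.rk k j)) ∧ (∀ z w, 0 ≤ p.rk k j z w) ∧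
      (∀ z w, p.rk k j z w ≤ ((2 * p.rad k) ^ p.d)⁻¹) ∧
      (∀ z w, p.rk k j z (-w) = p.rk k j z w) ∧
      (∀ z, Integrable (p.rk k j z)) ∧ (∀ z, ∫ w, p.rk k j z w = 1) ∧
      (∀ z w, p.L * p.rho (k + 1) < ‖w‖ → p.rk k j z w = 0) ∧
      ∀ z z', ∫ w, |p.rk k j z w - p.rk k j z' w| ≤ 2 * p.d / p.vs * ‖z - z'‖ := by
  have hg := fun z => B4_gint (B4_a p k j) (B4_meas p k j) (B4_nonneg p hp k j)
    (fun z => (B4_int p hp k j z).1) (fun z => (B4_int p hp k j z).2) p.vs z
  refine ⟨?_, ?_, ?_, ?_, ?_, ?_, ?_, ?_⟩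
  · exact B4_gm2 (B4_a p k j) (B4_meas p k j) p.vs
  · intro z w
    rw [B4_rk]
    exact integral_nonneg fun y => B4_nonneg p hp k j _ w
  · intro z w
    rw [B4_rk]
    have hb : ∀ y, B4_a p k j (z - p.vs • y) w ≤ ((2 * p.rad k) ^ p.d)⁻¹ :=
      fun y => B4_le p hp k j _ w
    calc ∫ y, B4_a p k j (z - p.vs • y) w ∂(jitLaw p.d)
        ≤ ∫ _y, ((2 * p.rad k) ^ p.d)⁻¹ ∂(jitLaw p.d) :=
          integral_mono_of_nonneg (Eventually.of_forall fun y => B4_nonneg p hp k j _ w)
            (integrable_const _) (Eventually.of_forall hb)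
      _ = ((2 * p.rad k) ^ p.d)⁻¹ := by simp
  · intro z w
    rw [B4_rk, B4_rk]
    exact integral_congr_ae (Eventually.of_forall fun y => B4_even p k j _ w)
  · intro z
    exact (hg z).1
  · intro z
    exact (hg z).2
  · intro z w hw
    rw [B4_rk]
    have e : (fun y : V p.d × V p.d => B4_a p k j (z - p.vs • y) w) = fun _ => (0 : ℝ) := by
      funext y
      exact B4_supp p hp k j _ w hw
    rw [e]
    simp
  · intro z z'
    exact jit_shift_kernel hp.hvs (B4_a p k j) (B4_meas p k j) (B4_nonneg p hp k j)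
      (fun z => (B4_int p hp k j z).1) (fun z => (B4_int p hp k j z).2.le) z z'

/-- properties of the kernel of the rings -/
theorem ra_prop (hp : p.Ok) (j : ℕ) :
    Measurable (Function.uncurry (p.ra j)) ∧ (∀ z w, 0 ≤ p.ra j z w) ∧
      (∀ z w, p.ra j z (-w) = p.ra j z w) ∧
      (∀ z, Integrable (p.ra j z)) ∧ (∀ z, ∫ w, p.ra j z w ≤ p.h * p.mr) ∧
      (∀ z w, p.L * p.rho p.n < ‖w‖ → p.ra j z w = 0) ∧
      ∀ z z', ∫ w, |p.ra j z w - p.ra j z' w| ≤
        p.h * p.mr * (2 * p.d / p.vs) * ‖z - z'‖ := by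
  refine ⟨?_, ?_, ?_, ?_, ?_, ?_, ?_⟩
  · have : Function.uncurry (p.ra j) = fun q : (V p.d × V p.d) × V p.d =>
        ∑ k ∈ Finset.range p.n, p.pring k j * Function.uncurry (p.rk k j) q := by
      funext q
      rfl
    rw [this]
    exact Finset.measurable_fun_sum _ fun k _ => ((rk_prop p hp k j).1).const_mul _
  · intro z w
    exact Finset.sum_nonneg fun k _ =>
      mul_nonneg (pring_nonneg p hp k j) ((rk_prop p hp k j).2.1 z w)
  · intro z w
    exact Finset.sum_congr rfl fun k _ => by rw [(rk_prop p hp k j).2.2.2.1 z w]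
  · intro z
    exact integrable_finsetSum _ fun k _ => ((rk_prop p hp k j).2.2.2.2.1 z).const_mul _
  · intro z
    have e : ∫ w, p.ra j z w = ∑ k ∈ Finset.range p.n, p.pring k j := by
      unfold Par.ra
      rw [integral_finsetSum _ fun k _ => ((rk_prop p hp k j).2.2.2.2.1 z).const_mul _]
      refine Finset.sum_congr rfl fun k _ => ?_
      rw [integral_const_mul, (rk_prop p hp k j).2.2.2.2.2.1 z, mul_one]
    rw [e]
    exact sum_pring_le p hp j
  · intro z w hw
    refine Finset.sum_eq_zero fun k hk => ?_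
    have hkn : k + 1 ≤ p.n := Finset.mem_range.mp hk
    have hell : (1 : ℝ) ≤ p.ell := by
      have h1 : 1 ≤ p.ell := Nat.one_le_pow _ _ (by have := hp.hL; omega)
      exact_mod_cast h1
    have hrho : p.rho (k + 1) ≤ p.rho p.n := pow_le_pow_right₀ hell hkn
    have h2 : p.L * p.rho (k + 1) < ‖w‖ :=
      (mul_le_mul_of_nonneg_left hrho (Nat.cast_nonneg _)).trans_lt hw
    rw [(rk_prop p hp k j).2.2.2.2.2.2.1 z w h2, mul_zero]
  · intro z z'
    have hI : ∀ k z, Integrable (p.rk k j z) := fun k z => (rk_prop p hp k j).2.2.2.2.1 z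
    have hL : ∀ k, ∫ w, |p.rk k j z w - p.rk k j z' w| ≤ 2 * p.d / p.vs * ‖z - z'‖ :=
      fun k => (rk_prop p hp k j).2.2.2.2.2.2.2 z z'
    have hIk : ∀ k, Integrable (fun w => p.pring k j * |p.rk k j z w - p.rk k j z' w|) :=
      fun k => ((hI k z).sub (hI k z')).abs.const_mul _
    calc ∫ w, |p.ra j z w - p.ra j z' w|
        ≤ ∫ w, ∑ k ∈ Finset.range p.n, p.pring k j * |p.rk k j z w - p.rk k j z' w| := by
          refine integral_mono_of_nonneg (Eventually.of_forall fun w => abs_nonneg _)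
            (integrable_finsetSum _ fun k _ => hIk k) (Eventually.of_forall fun w => ?_)
          unfold Par.ra
          simp only
          rw [← Finset.sum_sub_distrib]
          refine (Finset.abs_sum_le_sum_abs _ _).trans (le_of_eq ?_)
          refine Finset.sum_congr rfl fun k _ => ?_
          rw [← mul_sub, abs_mul, abs_of_nonneg (pring_nonneg p hp k j)]
      _ = ∑ k ∈ Finset.range p.n, p.pring k j * ∫ w, |p.rk k j z w - p.rk k j z' w| := by
          rw [integral_finsetSum _ fun k _ => hIk k]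
          refine Finset.sum_congr rfl fun k _ => ?_
          rw [integral_const_mul]
      _ ≤ ∑ k ∈ Finset.range p.n, p.pring k j * (2 * p.d / p.vs * ‖z - z'‖) :=
          Finset.sum_le_sum fun k _ =>
            mul_le_mul_of_nonneg_left (hL k) (pring_nonneg p hp k j)
      _ = (∑ k ∈ Finset.range p.n, p.pring k j) * (2 * p.d / p.vs * ‖z - z'‖) := by
          rw [Finset.sum_mul]
      _ ≤ p.h * p.mr * (2 * p.d / p.vs * ‖z - z'‖) := by
          refine mul_le_mul_of_nonneg_right (sum_pring_le p hp j) ?_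
          have := hp.hvs
          positivity
      _ = p.h * p.mr * (2 * p.d / p.vs) * ‖z - z'‖ := by ring

end KDB
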