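import Pool.Agent.Helper34.KDB.Defs

/-! KDP-K1: Euclidean norm, integrals of powers. -/

set_option autoImplicit false

namespace KDB

open MeasureTheory Set Filter Topology
open scoped ENNReal NNReal ContDiff

variable {d : ℕ}

theorem e2_measurable : Measurable (e2 (d := d)) := by
  unfold e2
  fun_prop

lemma K1_nonneg (w : V d) : 0 ≤ e2 w := Real.sqrt_nonneg _

theorem norm_le_e2 (w : V d) : ‖w‖ ≤ e2 w := by
  have h0 : 0 ≤ e2 w := Real.sqrt_nonneg _
  rw [pi_norm_le_iff_of_nonneg h0]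
  intro i
  rw [Real.norm_eq_abs]
  unfold e2
  rw [← Real.sqrt_sq_eq_abs]
  apply Real.sqrt_le_sqrt
  exact Finset.single_le_sum (f := fun i => w i ^ 2) (fun j _ => sq_nonneg _) (Finset.mem_univ i)

theorem e2_le (w : V d) : e2 w ≤ d * ‖w‖ := by
  have h0 : 0 ≤ (d : ℝ) * ‖w‖ := by positivity
  unfold e2
  rw [Real.sqrt_le_left h0]
  have h1 : ∀ i ∈ (Finset.univ : Finset (Fin d)), w i ^ 2 ≤ ‖w‖ ^ 2 := by
    intro i _
    rw [← sq_abs (w i)]
    exact pow_le_pow_left₀ (abs_nonneg _) (norm_le_pi_norm w i) 2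
  calc ∑ i, w i ^ 2 ≤ ∑ _i : Fin d, ‖w‖ ^ 2 := Finset.sum_le_sum h1
    _ = d * ‖w‖ ^ 2 := by
        rw [Finset.sum_const, Finset.card_univ, Fintype.card_fin, nsmul_eq_mul]
    _ ≤ (d * ‖w‖) ^ 2 := by
        rw [mul_pow]
        apply mul_le_mul_of_nonneg_right _ (sq_nonneg _)
        have h2 : d ≤ d ^ 2 := Nat.le_self_pow (by norm_num) d
        exact_mod_cast h2

theorem e2_smul (c : ℝ) (w : V d) : e2 (c • w) = |c| * e2 w := by
  unfold e2
  have h1 : ∑ i, (c • w) i ^ 2 = c ^ 2 * ∑ i, w i ^ 2 := by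
    rw [Finset.mul_sum]
    refine Finset.sum_congr rfl fun i _ => ?_
    rw [Pi.smul_apply, smul_eq_mul, mul_pow]
  rw [h1, Real.sqrt_mul (sq_nonneg c), Real.sqrt_sq_eq_abs]

theorem e2_neg (w : V d) : e2 (-w) = e2 w := by
  unfold e2
  simp

theorem e2_pos (w : V d) (hw : w ≠ 0) : 0 < e2 w :=
  (norm_pos_iff.2 hw).trans_le (norm_le_e2 w)

/-- Polar coordinates for the sup norm. -/
lemma K1_radial (hd : 1 ≤ d) (f : ℝ → ℝ) :
    (Integrable (fun w : V d => f ‖w‖) ↔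
      IntegrableOn (fun y : ℝ => y ^ (d - 1) * f y) (Ioi 0)) ∧
    ∫ w : V d, f ‖w‖ = 2 ^ d * d * ∫ y in Ioi (0 : ℝ), y ^ (d - 1) * f y := by
  have : Nonempty (Fin d) := ⟨⟨0, hd⟩⟩
  have h1 := integrable_fun_norm_addHaar (E := V d) (F := ℝ) volume (f := f)
  have h2 := integral_fun_norm_addHaar (E := V d) (F := ℝ) volume f
  have h3 : (volume : Measure (V d)).real (Metric.ball 0 1) = 2 ^ d := by
    rw [Measure.real, Real.volume_pi_ball _ one_pos, Fintype.card_fin, mul_one,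
      ENNReal.toReal_ofReal (by positivity)]
  rw [Module.finrank_fin_fun] at h1 h2
  refine ⟨h1, ?_⟩
  rw [h2, h3, nsmul_eq_mul, smul_eq_mul]
  simp only [smul_eq_mul]
  ring

lemma K1_pow (hd : 1 ≤ d) (s : ℝ) {y : ℝ} (hy : 0 < y) :
    y ^ (d - 1) * y ^ (-((d : ℝ) + 2 * s)) = y ^ (-1 - 2 * s) := by
  rw [← Real.rpow_natCast, ← Real.rpow_add hy]
  congr 1
  rw [Nat.cast_sub hd]
  push_cast
  ring

lemma K1_mono {s : ℝ} (hs : 0 < s) (w : V d) :
    e2 w ^ (-((d : ℝ) + 2 * s)) ≤ ‖w‖ ^ (-((d : ℝ) + 2 * s)) := by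
  have hd0 : (0 : ℝ) ≤ d := Nat.cast_nonneg _
  by_cases hw : w = 0
  · have h1 : e2 w = 0 := by
      rw [hw]
      unfold e2
      simp
    rw [h1, hw, norm_zero]
  · exact Real.rpow_le_rpow_of_nonpos (norm_pos_iff.2 hw) (norm_le_e2 w) (by linarith)

/-- far field, `0 < s` -/
theorem far_int (hd : 1 ≤ d) {s : ℝ} (hs : 0 < s) {r : ℝ} (hr : 0 < r) :
    IntegrableOn (fun w : V d => e2 w ^ (-((d : ℝ) + 2 * s))) {w | r ≤ ‖w‖} ∧
      ∫ w in {w : V d | r ≤ ‖w‖}, e2 w ^ (-((d : ℝ) + 2 * s)) ≤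
        2 ^ d * d * r ^ (-(2 * s)) / (2 * s) := by
  have hms : MeasurableSet {w : V d | r ≤ ‖w‖} := measurableSet_le measurable_const measurable_norm
  obtain ⟨h1, h2⟩ := K1_radial hd ((Ici r).indicator fun y => y ^ (-((d : ℝ) + 2 * s)))
  have e1 : (fun w : V d => (Ici r).indicator (fun y => y ^ (-((d : ℝ) + 2 * s))) ‖w‖) =
      {w : V d | r ≤ ‖w‖}.indicator fun w => ‖w‖ ^ (-((d : ℝ) + 2 * s)) := by
    funext w
    by_cases h : r ≤ ‖w‖
    · rw [indicator_of_mem (s := Ici r) h, indicator_of_mem (s := {w : V d | r ≤ ‖w‖}) h]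
    · rw [indicator_of_notMem (s := Ici r) h, indicator_of_notMem (s := {w : V d | r ≤ ‖w‖}) h]
  have e2' : EqOn (fun y : ℝ => y ^ (d - 1) *
      (Ici r).indicator (fun y => y ^ (-((d : ℝ) + 2 * s))) y)
      ((Ici r).indicator fun y => y ^ (-1 - 2 * s)) (Ioi 0) := by
    intro y hy
    by_cases h : y ∈ Ici r
    · simp only
      rw [indicator_of_mem h, indicator_of_mem h]
      exact K1_pow hd s hy
    · simp only
      rw [indicator_of_notMem h, indicator_of_notMem h, mul_zero]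
  have hint : IntegrableOn (fun y : ℝ => y ^ (-1 - 2 * s)) (Ici r) := by
    rw [integrableOn_Ici_iff_integrableOn_Ioi]
    exact integrableOn_Ioi_rpow_of_lt (by linarith) hr
  have hI : Ioi (0 : ℝ) ∩ Ici r = Ici r := by
    rw [inter_eq_right]
    exact fun y hy => hr.trans_le hy
  have hval : ∫ y in Ioi (0 : ℝ), y ^ (d - 1) *
      (Ici r).indicator (fun y => y ^ (-((d : ℝ) + 2 * s))) y = r ^ (-(2 * s)) / (2 * s) := by
    rw [setIntegral_congr_fun measurableSet_Ioi e2', setIntegral_indicator measurableSet_Ici, hI,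
      integral_Ici_eq_integral_Ioi, integral_Ioi_rpow_of_lt (by linarith) hr]
    have h3 : (-1 - 2 * s + 1) = -(2 * s) := by ring
    rw [h3, neg_div_neg_eq]
  have hInt : Integrable fun w : V d => {w : V d | r ≤ ‖w‖}.indicator
      (fun w => ‖w‖ ^ (-((d : ℝ) + 2 * s))) w := by
    have h3 : Integrable (fun w : V d =>
        (Ici r).indicator (fun y => y ^ (-((d : ℝ) + 2 * s))) ‖w‖) := by
      rw [h1]
      refine (integrableOn_congr_fun e2' measurableSet_Ioi).2 ?_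
      rw [IntegrableOn, integrable_indicator_iff measurableSet_Ici, IntegrableOn,
        Measure.restrict_restrict measurableSet_Ici, inter_comm, hI]
      exact hint
    rwa [e1] at h3
  have hfar : IntegrableOn (fun w : V d => ‖w‖ ^ (-((d : ℝ) + 2 * s))) {w | r ≤ ‖w‖} :=
    (integrable_indicator_iff hms).1 hInt
  have hmeas : Measurable fun w : V d => e2 w ^ (-((d : ℝ) + 2 * s)) :=
    e2_measurable.pow_const _
  have hion : IntegrableOn (fun w : V d => e2 w ^ (-((d : ℝ) + 2 * s))) {w | r ≤ ‖w‖} := by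
    refine Integrable.mono' hfar hmeas.aestronglyMeasurable (Eventually.of_forall fun w => ?_)
    rw [Real.norm_of_nonneg (Real.rpow_nonneg (K1_nonneg w) _)]
    exact K1_mono hs w
  refine ⟨hion, ?_⟩
  calc ∫ w in {w : V d | r ≤ ‖w‖}, e2 w ^ (-((d : ℝ) + 2 * s))
      ≤ ∫ w in {w : V d | r ≤ ‖w‖}, ‖w‖ ^ (-((d : ℝ) + 2 * s)) :=
        integral_mono hion hfar (K1_mono hs)
    _ = ∫ w : V d, {w : V d | r ≤ ‖w‖}.indicator (fun w => ‖w‖ ^ (-((d : ℝ) + 2 * s))) w :=
        (integral_indicator hms).symm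
    _ = 2 ^ d * d * (r ^ (-(2 * s)) / (2 * s)) := by
        rw [← e1, h2, hval]
    _ = _ := by ring

/-- near field, `2 * s < 1` -/
theorem near_int (hd : 1 ≤ d) {s : ℝ} (hs : 0 < s) (hs1 : 2 * s < 1) {r : ℝ} (hr : 0 < r) :
    IntegrableOn (fun w : V d => ‖w‖ * e2 w ^ (-((d : ℝ) + 2 * s))) {w | ‖w‖ < r} ∧
      ∫ w in {w : V d | ‖w‖ < r}, ‖w‖ * e2 w ^ (-((d : ℝ) + 2 * s)) ≤
        2 ^ d * d * r ^ (1 - 2 * s) / (1 - 2 * s) := by
  have hms : MeasurableSet {w : V d | ‖w‖ < r} := measurableSet_lt measurable_norm measurable_const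
  obtain ⟨h1, h2⟩ := K1_radial hd ((Iio r).indicator fun y => y * y ^ (-((d : ℝ) + 2 * s)))
  have e1 : (fun w : V d => (Iio r).indicator (fun y => y * y ^ (-((d : ℝ) + 2 * s))) ‖w‖) =
      {w : V d | ‖w‖ < r}.indicator fun w => ‖w‖ * ‖w‖ ^ (-((d : ℝ) + 2 * s)) := by
    funext w
    by_cases h : ‖w‖ < r
    · rw [indicator_of_mem (s := Iio r) h, indicator_of_mem (s := {w : V d | ‖w‖ < r}) h]
    · rw [indicator_of_notMem (s := Iio r) h, indicator_of_notMem (s := {w : V d | ‖w‖ < r}) h]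
  have e2' : EqOn (fun y : ℝ => y ^ (d - 1) *
      (Iio r).indicator (fun y => y * y ^ (-((d : ℝ) + 2 * s))) y)
      ((Iio r).indicator fun y => y ^ (-(2 * s))) (Ioi 0) := by
    intro y hy
    by_cases h : y ∈ Iio r
    · simp only
      rw [indicator_of_mem h, indicator_of_mem h]
      have hy0 : (0 : ℝ) < y := hy
      calc y ^ (d - 1) * (y * y ^ (-((d : ℝ) + 2 * s)))
          = y * (y ^ (d - 1) * y ^ (-((d : ℝ) + 2 * s))) := by ring
        _ = y ^ (1 : ℝ) * y ^ (-1 - 2 * s) := by rw [K1_pow hd s hy0, Real.rpow_one]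
        _ = y ^ (-(2 * s)) := by
            rw [← Real.rpow_add hy0]
            congr 1
            ring
    · simp only
      rw [indicator_of_notMem h, indicator_of_notMem h, mul_zero]
  have hI : Ioi (0 : ℝ) ∩ Iio r = Ioo 0 r := rfl
  have hII : IntervalIntegrable (fun y : ℝ => y ^ (-(2 * s))) volume 0 r :=
    intervalIntegral.intervalIntegrable_rpow' (by linarith)
  have hint : IntegrableOn (fun y : ℝ => y ^ (-(2 * s))) (Ioo 0 r) :=
    (hII.1).mono_set Ioo_subset_Ioc_self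
  have hval : ∫ y in Ioi (0 : ℝ), y ^ (d - 1) *
      (Iio r).indicator (fun y => y * y ^ (-((d : ℝ) + 2 * s))) y =
        r ^ (1 - 2 * s) / (1 - 2 * s) := by
    rw [setIntegral_congr_fun measurableSet_Ioi e2', setIntegral_indicator measurableSet_Iio, hI,
      ← integral_Ioc_eq_integral_Ioo, ← intervalIntegral.integral_of_le hr.le,
      integral_rpow (Or.inl (by linarith)), Real.zero_rpow (by linarith)]
    have h3 : (-(2 * s) + 1) = 1 - 2 * s := by ring
    rw [h3, sub_zero]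
  have hInt : Integrable fun w : V d => {w : V d | ‖w‖ < r}.indicator
      (fun w => ‖w‖ * ‖w‖ ^ (-((d : ℝ) + 2 * s))) w := by
    have h3 : Integrable (fun w : V d =>
        (Iio r).indicator (fun y => y * y ^ (-((d : ℝ) + 2 * s))) ‖w‖) := by
      rw [h1]
      refine (integrableOn_congr_fun e2' measurableSet_Ioi).2 ?_
      rw [IntegrableOn, integrable_indicator_iff measurableSet_Iio, IntegrableOn,
        Measure.restrict_restrict measurableSet_Iio, inter_comm, hI]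
      exact hint
    rwa [e1] at h3
  have hnear : IntegrableOn (fun w : V d => ‖w‖ * ‖w‖ ^ (-((d : ℝ) + 2 * s))) {w | ‖w‖ < r} :=
    (integrable_indicator_iff hms).1 hInt
  have hmeas : Measurable fun w : V d => ‖w‖ * e2 w ^ (-((d : ℝ) + 2 * s)) :=
    measurable_norm.mul (e2_measurable.pow_const _)
  have hle : ∀ w : V d, ‖w‖ * e2 w ^ (-((d : ℝ) + 2 * s)) ≤
      ‖w‖ * ‖w‖ ^ (-((d : ℝ) + 2 * s)) := fun w =>
    mul_le_mul_of_nonneg_left (K1_mono hs w) (norm_nonneg _)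
  have hion : IntegrableOn (fun w : V d => ‖w‖ * e2 w ^ (-((d : ℝ) + 2 * s))) {w | ‖w‖ < r} := by
    refine Integrable.mono' hnear hmeas.aestronglyMeasurable (Eventually.of_forall fun w => ?_)
    rw [Real.norm_of_nonneg (mul_nonneg (norm_nonneg _) (Real.rpow_nonneg (K1_nonneg w) _))]
    exact hle w
  refine ⟨hion, ?_⟩
  calc ∫ w in {w : V d | ‖w‖ < r}, ‖w‖ * e2 w ^ (-((d : ℝ) + 2 * s))
      ≤ ∫ w in {w : V d | ‖w‖ < r}, ‖w‖ * ‖w‖ ^ (-((d : ℝ) + 2 * s)) :=
        integral_mono hion hnear hle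
    _ = ∫ w : V d, {w : V d | ‖w‖ < r}.indicator
          (fun w => ‖w‖ * ‖w‖ ^ (-((d : ℝ) + 2 * s))) w := (integral_indicator hms).symm
    _ = 2 ^ d * d * (r ^ (1 - 2 * s) / (1 - 2 * s)) := by
        rw [← e1, h2, hval]
    _ = _ := by ring

end KDB
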