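import Pool.Agent.Helper34.KDB.St.B4
import Pool.Agent.Helper34.KDB.St.K1

/-! KDP-B5: pointwise upper bound for the rings. -/

set_option autoImplicit false

namespace KDB

open MeasureTheory Set Filter Topology
open scoped ENNReal NNReal ContDiff

variable (p : Par)

theorem B5_tel (a : ℕ → ℝ) (h0 : ∀ k, 0 ≤ a k) (h : ∀ k, a (k + 1) ≤ a k / 2) (n : ℕ) :
    ∑ k ∈ Finset.range n, a (k + 1) ≤ a 0 := by
  have h1 : ∑ k ∈ Finset.range n, a (k + 1) ≤ ∑ k ∈ Finset.range n, (a k - a (k + 1)) :=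
    Finset.sum_le_sum fun k _ => by linarith [h k]
  rw [Finset.sum_range_sub'] at h1
  linarith [h0 n]

theorem B5_geom (A : ℝ) (hA : 0 ≤ A) (n : ℕ) : ∀ a : ℕ → ℝ, (∀ k, 0 ≤ a k) →
    (∀ k, a (k + 1) ≤ a k / 2) →
    ∑ k ∈ Finset.range n, (if a k ≤ A then a k else 0) ≤ 2 * A := by
  induction n with
  | zero => intro a _ _; simpa using hA
  | succ n ih =>
    intro a h0 h
    rw [Finset.sum_range_succ']
    by_cases hc : a 0 ≤ A
    · rw [if_pos hc]
      have h1 : ∑ k ∈ Finset.range n, (if a (k + 1) ≤ A then a (k + 1) else 0) ≤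
          ∑ k ∈ Finset.range n, a (k + 1) := by
        refine Finset.sum_le_sum fun k _ => ?_
        split_ifs
        · exact le_rfl
        · exact h0 _
      linarith [B5_tel a h0 h n]
    · rw [if_neg hc, add_zero]
      exact ih (fun k => a (k + 1)) (fun k => h0 _) fun k => h _

/-- pointwise upper bound for the kernel of the rings -/
theorem ra_le (hp : p.Ok) (j : ℕ) (z : p.St) (w : V p.d) (hw : w ≠ 0) :
    e2 w ^ ((p.d : ℝ) + 2 * p.s) * p.ra j z w ≤ p.h * p.LamR := by
  have hL : (1000 : ℝ) ≤ p.L := by exact_mod_cast hp.hL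
  have hL0 : (0 : ℝ) < p.L := by linarith
  have hq : 1 ≤ p.q := hp.hq
  have hq0 : (0 : ℝ) < p.q := by exact_mod_cast hq
  have hd : 1 ≤ p.d := hp.hd
  have hd0 : (1 : ℝ) ≤ p.d := by exact_mod_cast hd
  have hH : (0 : ℝ) < p.H := by exact_mod_cast hp.hH
  have hmu := hp.hmu
  set E : ℝ := (p.ell : ℝ) with hE
  have hEL : E = (p.L : ℝ) ^ p.q := by rw [hE, Par.ell]; push_cast; rfl
  have hE2 : 2 ≤ E := by
    rw [hEL]
    calc (2 : ℝ) ≤ (p.L : ℝ) ^ 1 := by rw [pow_one]; linarith
      _ ≤ (p.L : ℝ) ^ p.q := pow_le_pow_right₀ (by linarith) hq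
  have hE0 : 0 < E := by linarith
  have hs2 : 2 * p.s = (p.q : ℝ)⁻¹ := by
    unfold Par.s
    field_simp
  have hs0 : 0 < 2 * p.s := by rw [hs2]; positivity
  have hEs : E ^ (2 * p.s) = p.L := by
    rw [hs2, hEL]
    exact Real.pow_rpow_inv_natCast hL0.le (by omega)
  set al : ℝ := (p.d : ℝ) + 2 * p.s with hal
  have hal1 : 1 ≤ al := by rw [hal]; linarith
  have hpow : ∀ k : ℕ, (E ^ k) ^ al = E ^ (k * p.d) * (p.L : ℝ) ^ k := by
    intro k
    rw [hal, Real.rpow_add (by positivity), Real.rpow_natCast, ← pow_mul, ← Real.rpow_natCast E k,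
      ← Real.rpow_mul hE0.le, mul_comm (k : ℝ) (2 * p.s), Real.rpow_mul hE0.le, hEs,
      Real.rpow_natCast]
  have he0 : 0 < e2 w := e2_pos w hw
  set a : ℕ → ℝ := fun k => (e2 w / E ^ k) ^ al with ha
  have ha0 : ∀ k, 0 ≤ a k := fun k => Real.rpow_nonneg (by positivity) _
  have hah : ∀ k, a (k + 1) ≤ a k / 2 := by
    intro k
    simp only [ha]
    have h1 : e2 w / E ^ (k + 1) = e2 w / E ^ k / E := by
      rw [pow_succ]
      field_simp
    rw [h1, Real.div_rpow (by positivity) hE0.le]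
    refine div_le_div_of_nonneg_left (ha0 k) (by norm_num) ?_
    calc (2 : ℝ) ≤ E ^ (1 : ℝ) := by rw [Real.rpow_one]; exact hE2
      _ ≤ E ^ al := Real.rpow_le_rpow_of_exponent_le (by linarith) hal1
  set D : ℝ := (p.d : ℝ) * p.L * E with hD
  have hD0 : 0 ≤ D := by positivity
  set A : ℝ := D ^ al with hA
  have hA0 : 0 ≤ A := Real.rpow_nonneg hD0 _
  set C : ℝ := p.h * (p.mu * (p.L : ℝ) ^ p.q * E ^ (p.b * p.d)) with hC
  have hh0 : 0 < p.h := by unfold Par.h; positivity
  have hC0 : 0 ≤ C := by positivity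
  have hterm : ∀ k ∈ Finset.range p.n, e2 w ^ al * (p.pring k j * p.rk k j z w) ≤
      C * (if a k ≤ A then a k else 0) := by
    intro k _
    obtain ⟨-, hnn, hle, -, -, -, hsupp, -⟩ := rk_prop p hp k j
    by_cases hbig : p.L * p.rho (k + 1) < ‖w‖
    · rw [hsupp z w hbig, mul_zero, mul_zero]
      refine mul_nonneg hC0 ?_
      split_ifs
      · exact ha0 k
      · exact le_rfl
    · rw [not_lt] at hbig
      have hx : e2 w / E ^ k ≤ D := by
        rw [div_le_iff₀ (by positivity)]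
        calc e2 w ≤ p.d * ‖w‖ := e2_le w
          _ ≤ p.d * (p.L * p.rho (k + 1)) := mul_le_mul_of_nonneg_left hbig (by linarith)
          _ = D * E ^ k := by
              rw [hD, Par.rho, pow_succ]
              ring
      have hak : a k ≤ A := Real.rpow_le_rpow (by positivity) hx (by linarith)
      rw [if_pos hak]
      have hak' : a k = e2 w ^ al / (E ^ (k * p.d) * (p.L : ℝ) ^ k) := by
        simp only [ha]
        rw [Real.div_rpow he0.le (by positivity), hpow k]
      have hrad : p.rad k = E ^ k / E ^ p.b := by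
        rw [Par.rad, zpow_sub₀ hE0.ne', zpow_natCast, zpow_natCast]
      have hrad0 : 0 < p.rad k := by rw [hrad]; positivity
      have hrk : p.rk k j z w ≤ E ^ (p.b * p.d) / E ^ (k * p.d) := by
        refine (hle z w).trans ?_
        have h1 : E ^ (p.b * p.d) / E ^ (k * p.d) = (p.rad k ^ p.d)⁻¹ := by
          rw [hrad, div_pow, inv_div, ← pow_mul, ← pow_mul]
        rw [h1]
        refine inv_anti₀ (by positivity) ?_
        exact pow_le_pow_left₀ hrad0.le (by linarith) _
      have hpr := pring_le p hp k j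
      have hpr0 := pring_nonneg p hp k j
      have h2 : p.pring k j * p.rk k j z w ≤
          p.mu / p.W k * (E ^ (p.b * p.d) / E ^ (k * p.d)) :=
        mul_le_mul hpr hrk (hnn z w) (by positivity)
      have h3 : e2 w ^ al * (p.pring k j * p.rk k j z w) ≤
          e2 w ^ al * (p.mu / p.W k * (E ^ (p.b * p.d) / E ^ (k * p.d))) :=
        mul_le_mul_of_nonneg_left h2 (Real.rpow_nonneg he0.le _)
      refine h3.trans (le_of_eq ?_)
      rw [hak', hC, Par.h, Par.W]
      push_cast
      field_simp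
  have hsum : e2 w ^ al * p.ra j z w ≤
      ∑ k ∈ Finset.range p.n, C * (if a k ≤ A then a k else 0) := by
    unfold Par.ra
    rw [Finset.mul_sum]
    exact Finset.sum_le_sum hterm
  refine hsum.trans ?_
  rw [← Finset.mul_sum]
  refine (mul_le_mul_of_nonneg_left (B5_geom A hA0 p.n a ha0 hah) hC0).trans (le_of_eq ?_)
  rw [hC, hA, hD, Par.LamR]
  ring

end KDB
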