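import Pool.Agent.Helper34.KDB.St.A2

/-! KDP-D1: bounds for the backward recursion. -/

set_option autoImplicit false

namespace KDB

open MeasureTheory Set Filter Topology
open scoped ENNReal NNReal ContDiff

variable {d : ℕ}

/-- hypotheses on the data of the backward recursion (`m`, `c` are rates per unit of time) -/
structure RecOk (h : ℝ) (k : ℕ → V d × V d → V d → ℝ) (f0 : V d × V d → ℝ) (m c W : ℝ) :
    Prop where
  h0 : 0 < h
  h1 : h ≤ 1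
  m0 : 0 ≤ m
  c0 : 0 ≤ c
  W0 : 0 ≤ W
  hm : h * m ≤ 1
  hk : ∀ i, KOk (k i) (h * m) (h * c) W
  f01 : ∀ z, 0 ≤ f0 z ∧ f0 z ≤ 1
  f0l : ∀ z z', |f0 z - f0 z'| ≤ ‖z - z'‖

theorem D1_continuous {f : V d × V d → ℝ} {b : ℝ} (hb : ∀ z z', |f z - f z'| ≤ b * ‖z - z'‖) :
    Continuous f := by
  have h1 : LipschitzWith (Real.toNNReal b) f := LipschitzWith.of_dist_le' fun x y => by
    rw [Real.dist_eq, dist_eq_norm]; exact hb x y
  exact h1.continuous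

theorem D1_Sh {h : ℝ} (h0 : 0 ≤ h) (z z' : V d × V d) :
    ‖Sh h z - Sh h z'‖ ≤ (1 + h) * ‖z - z'‖ := by
  have h1 : ‖z.1 - z'.1‖ ≤ ‖z - z'‖ := norm_fst_le (z - z')
  have h2 : ‖z.2 - z'.2‖ ≤ ‖z - z'‖ := norm_snd_le (z - z')
  have h3 : ‖(z.1 + h • z.2) - (z'.1 + h • z'.2)‖ ≤ (1 + h) * ‖z - z'‖ := by
    have h4 : (z.1 + h • z.2) - (z'.1 + h • z'.2) = (z.1 - z'.1) + h • (z.2 - z'.2) := by
      rw [smul_sub]; abel
    rw [h4]
    calc ‖(z.1 - z'.1) + h • (z.2 - z'.2)‖ ≤ ‖z.1 - z'.1‖ + ‖h • (z.2 - z'.2)‖ :=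
          norm_add_le _ _
      _ = ‖z.1 - z'.1‖ + h * ‖z.2 - z'.2‖ := by
          rw [norm_smul, Real.norm_eq_abs, abs_of_nonneg h0]
      _ ≤ ‖z - z'‖ + h * ‖z - z'‖ := by gcongr
      _ = (1 + h) * ‖z - z'‖ := by ring
  have h5 : ‖z.2 - z'.2‖ ≤ (1 + h) * ‖z - z'‖ := by
    have := norm_nonneg (z - z')
    nlinarith
  rw [Prod.norm_def]
  exact max_le h3 h5

theorem D1_main {h : ℝ} {k : ℕ → V d × V d → V d → ℝ} {f0 : V d × V d → ℝ} {m c W : ℝ}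
    (H : RecOk h k f0 m c W) (i : ℕ) :
    (∀ z, 0 ≤ bk h k f0 i z ∧ bk h k f0 i z ≤ 1) ∧
      ∀ z z', |bk h k f0 i z - bk h k f0 i z'| ≤
        ((1 + h) ^ i * (1 + 2 * c) - 2 * c) * ‖z - z'‖ := by
  induction i with
  | zero =>
    refine ⟨H.f01, fun z z' => ?_⟩
    have h1 := H.f0l z z'
    simpa [bk] using h1
  | succ i ih =>
    obtain ⟨ih1, ih2⟩ := ih
    have h0 := H.h0
    have h1 := H.h1
    have c0 := H.c0
    have hcont : Continuous (bk h k f0 i) := D1_continuous ih2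
    have hmeas : Measurable (bk h k f0 i) := hcont.measurable
    have hpow : 1 ≤ (1 + h) ^ i := one_le_pow₀ (by linarith)
    refine ⟨fun z => ?_, fun z z' => ?_⟩
    · exact TT_mem (H.hk i) H.hm hmeas ih1 (Sh h z)
    · have h2 := TT_lip (H.hk i) H.hm hmeas ih1 _ ih2 (Sh h z) (Sh h z')
      have h3 := D1_Sh h0.le z z'
      have h4 : 0 ≤ (1 + h) ^ i * (1 + 2 * c) - 2 * c + h * c := by nlinarith
      have h5 := norm_nonneg (z - z')
      calc |bk h k f0 (i + 1) z - bk h k f0 (i + 1) z'|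
          ≤ ((1 + h) ^ i * (1 + 2 * c) - 2 * c + h * c) * ‖Sh h z - Sh h z'‖ := h2
        _ ≤ ((1 + h) ^ i * (1 + 2 * c) - 2 * c + h * c) * ((1 + h) * ‖z - z'‖) := by gcongr
        _ = (((1 + h) ^ i * (1 + 2 * c) - 2 * c + h * c) * (1 + h)) * ‖z - z'‖ := by ring
        _ ≤ ((1 + h) ^ (i + 1) * (1 + 2 * c) - 2 * c) * ‖z - z'‖ := by
          apply mul_le_mul_of_nonneg_right _ h5
          rw [pow_succ]
          nlinarith [mul_nonneg h0.le c0, mul_nonneg (mul_nonneg h0.le c0) (sub_nonneg.mpr h1)]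

theorem bk_prop {h : ℝ} {k : ℕ → V d × V d → V d → ℝ} {f0 : V d × V d → ℝ} {m c W : ℝ}
    (H : RecOk h k f0 m c W) (i : ℕ) :
    Continuous (bk h k f0 i) ∧ (∀ z, 0 ≤ bk h k f0 i z ∧ bk h k f0 i z ≤ 1) ∧
      ∀ z z', |bk h k f0 i z - bk h k f0 i z'| ≤
        (1 + 2 * c) * Real.exp (i * h) * ‖z - z'‖ := by
  obtain ⟨h1, h2⟩ := D1_main H i
  refine ⟨D1_continuous h2, h1, fun z z' => (h2 z z').trans ?_⟩
  apply mul_le_mul_of_nonneg_right _ (norm_nonneg _)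
  have c0 := H.c0
  have h3 : (1 + h) ^ i ≤ Real.exp (i * h) := by
    rw [Real.exp_nat_mul]
    apply pow_le_pow_left₀ (by linarith [H.h0])
    linarith [Real.add_one_le_exp h]
  nlinarith

end KDB
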