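import Pool.Agent.Helper34.KDB.St.D1

/-! KDP-E1: the interpolation of the backward recursion, basic properties. -/

set_option autoImplicit false

namespace KDB

open MeasureTheory Set Filter Topology
open scoped ENNReal NNReal ContDiff

variable {d : ℕ} {h : ℝ} {k : ℕ → V d × V d → V d → ℝ} {f0 : V d × V d → ℝ} {m c W : ℝ}

theorem E1_ix_le (hh : 0 < h) (t : ℝ) (ht : 0 ≤ t) : (ix h t : ℝ) * h ≤ t := by
  have h1 : (ix h t : ℝ) ≤ max t 0 / h := Nat.floor_le (by positivity)
  rw [max_eq_left ht, le_div_iff₀ hh] at h1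
  exact h1

theorem E1_fr_nonneg (hh : 0 < h) (t : ℝ) : 0 ≤ fr h t := by
  have h1 : (ix h t : ℝ) ≤ max t 0 / h := Nat.floor_le (by positivity)
  unfold fr
  linarith

theorem E1_fr_le (_ : 0 < h) (t : ℝ) : fr h t ≤ 1 := by
  have h1 : max t 0 / h < (ix h t : ℝ) + 1 := Nat.lt_floor_add_one _
  unfold fr
  linarith

theorem E1_zt_norm (hh : 0 < h) (t : ℝ) (x v x' v' : V d) :
    ‖zt h t x v - zt h t x' v'‖ ≤ (1 + h) * max ‖x - x'‖ ‖v - v'‖ := by
  have h0 := E1_fr_nonneg hh t
  have h1 := E1_fr_le hh t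
  have hM : 0 ≤ max ‖x - x'‖ ‖v - v'‖ := le_max_of_le_left (norm_nonneg _)
  have hx : ‖x - x'‖ ≤ max ‖x - x'‖ ‖v - v'‖ := le_max_left _ _
  have hv : ‖v - v'‖ ≤ max ‖x - x'‖ ‖v - v'‖ := le_max_right _ _
  unfold zt
  rw [Prod.mk_sub_mk, Prod.norm_def]
  refine max_le ?_ ?_
  · have h2 : x + (fr h t * h) • v - (x' + (fr h t * h) • v') =
        (x - x') + (fr h t * h) • (v - v') := by
      rw [smul_sub]
      abel
    change ‖x + (fr h t * h) • v - (x' + (fr h t * h) • v')‖ ≤ _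
    rw [h2]
    refine (norm_add_le _ _).trans ?_
    rw [norm_smul, Real.norm_eq_abs, abs_of_nonneg (mul_nonneg h0 hh.le)]
    have h3 : fr h t * h * ‖v - v'‖ ≤ h * max ‖x - x'‖ ‖v - v'‖ := by
      refine mul_le_mul ?_ hv (norm_nonneg _) hh.le
      nlinarith
    linarith
  · change ‖v - v'‖ ≤ _
    nlinarith [mul_nonneg hh.le hM]

theorem FF_mem (H : RecOk h k f0 m c W) (t : ℝ) (x v : V d) :
    0 ≤ FF h k f0 t x v ∧ FF h k f0 t x v ≤ 1 := by
  obtain ⟨hc, h01, _⟩ := bk_prop H (ix h t)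
  have hT := TT_mem (H.hk (ix h t)) H.hm hc.measurable h01 (zt h t x v)
  have ha := h01 (zt h t x v)
  have h0 := E1_fr_nonneg H.h0 t
  have h1 := E1_fr_le H.h0 t
  unfold FF
  constructor
  · exact add_nonneg (mul_nonneg (by linarith) ha.1) (mul_nonneg h0 hT.1)
  · nlinarith [mul_le_mul_of_nonneg_left ha.2 (sub_nonneg.2 h1),
      mul_le_mul_of_nonneg_left hT.2 h0]

theorem FF_lip (H : RecOk h k f0 m c W) (t : ℝ) (ht : 0 ≤ t) (x v x' v' : V d) :
    |FF h k f0 t x v - FF h k f0 t x' v'| ≤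
      ((1 + 2 * c) * Real.exp (t + 2)) * max ‖x - x'‖ ‖v - v'‖ := by
  obtain ⟨hc, h01, hl⟩ := bk_prop H (ix h t)
  have hT := TT_lip (H.hk (ix h t)) H.hm hc.measurable h01 _ hl (zt h t x v) (zt h t x' v')
  have ha := hl (zt h t x v) (zt h t x' v')
  have h0 := E1_fr_nonneg H.h0 t
  have h1 := E1_fr_le H.h0 t
  have hz := E1_zt_norm H.h0 t x v x' v'
  set z := zt h t x v with hzd
  set z' := zt h t x' v' with hzd'
  set M := max ‖x - x'‖ ‖v - v'‖ with hM
  have hM0 : 0 ≤ M := le_max_of_le_left (norm_nonneg _)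
  set e := Real.exp ((ix h t : ℝ) * h) with he
  have he1 : 1 ≤ e := by
    rw [he]
    exact Real.one_le_exp (mul_nonneg (Nat.cast_nonneg _) H.h0.le)
  have hc0 := H.c0
  have hh0 := H.h0
  set A := (1 + 2 * c) * e with hA
  have hA1 : c ≤ A := by
    rw [hA]
    nlinarith
  have hA0 : 0 ≤ A := hc0.trans hA1
  have ha' : |bk h k f0 (ix h t) z - bk h k f0 (ix h t) z'| ≤ (A + h * c) * ‖z - z'‖ := by
    refine ha.trans ?_
    exact mul_le_mul_of_nonneg_right (by linarith [mul_nonneg hh0.le hc0]) (norm_nonneg _)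
  have hmain : |FF h k f0 t x v - FF h k f0 t x' v'| ≤ (A + h * c) * ‖z - z'‖ := by
    unfold FF
    rw [← hzd, ← hzd']
    have h2 : (1 - fr h t) * bk h k f0 (ix h t) z + fr h t * TT (k (ix h t))
        (bk h k f0 (ix h t)) z - ((1 - fr h t) * bk h k f0 (ix h t) z' + fr h t *
          TT (k (ix h t)) (bk h k f0 (ix h t)) z') =
        (1 - fr h t) * (bk h k f0 (ix h t) z - bk h k f0 (ix h t) z') + fr h t *
          (TT (k (ix h t)) (bk h k f0 (ix h t)) z - TT (k (ix h t)) (bk h k f0 (ix h t)) z') := by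
      ring
    rw [h2]
    refine (abs_add_le _ _).trans ?_
    rw [abs_mul, abs_mul, abs_of_nonneg (sub_nonneg.2 h1), abs_of_nonneg h0]
    have h3 := mul_le_mul_of_nonneg_left ha' (sub_nonneg.2 h1)
    have h4 := mul_le_mul_of_nonneg_left hT h0
    linarith
  refine hmain.trans ?_
  have h5 : (A + h * c) * ‖z - z'‖ ≤ (A + h * c) * ((1 + h) * M) :=
    mul_le_mul_of_nonneg_left hz (add_nonneg hA0 (mul_nonneg hh0.le hc0))
  refine h5.trans ?_
  rw [← mul_assoc]
  refine mul_le_mul_of_nonneg_right ?_ hM0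
  have h6 : A + h * c ≤ A * (1 + h) := by nlinarith
  have h7 : (A + h * c) * (1 + h) ≤ A * (1 + h) * (1 + h) :=
    mul_le_mul_of_nonneg_right h6 (by linarith)
  refine h7.trans ?_
  have h8 : 1 + h ≤ Real.exp 1 := by
    have := Real.add_one_le_exp (1 : ℝ)
    linarith [H.h1]
  have h9 : (1 + h) * (1 + h) ≤ Real.exp 2 := by
    rw [show (2 : ℝ) = 1 + 1 by norm_num, Real.exp_add]
    exact mul_le_mul h8 h8 (by linarith) (Real.exp_pos _).le
  have h10 : e ≤ Real.exp t := Real.exp_le_exp.2 (E1_ix_le hh0 t ht)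
  have h11 : A ≤ (1 + 2 * c) * Real.exp t := mul_le_mul_of_nonneg_left h10 (by linarith)
  calc A * (1 + h) * (1 + h) = A * ((1 + h) * (1 + h)) := by ring
    _ ≤ ((1 + 2 * c) * Real.exp t) * Real.exp 2 :=
        mul_le_mul h11 h9 (by positivity) (by positivity)
    _ = (1 + 2 * c) * Real.exp (t + 2) := by rw [Real.exp_add]; ring

/-- linear along the characteristics, inside a step -/
theorem FF_char (H : RecOk h k f0 m c W) (t : ℝ) (ht : 0 ≤ t) (x v : V d) (τ : ℝ)
    (h0 : 0 ≤ τ) (h1 : t + τ < (ix h t + 1) * h) :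
    FF h k f0 (t + τ) (x - τ • v) v = FF h k f0 t x v + τ * RR h k f0 t x v := by
  have hh := H.h0
  have hle := E1_ix_le hh t ht
  have hix : ix h (t + τ) = ix h t := by
    have h2 : max (t + τ) 0 / h = (t + τ) / h := by rw [max_eq_left (by linarith)]
    have h3 : ⌊(t + τ) / h⌋₊ = ix h t := by
      rw [Nat.floor_eq_iff (div_nonneg (by linarith) hh.le)]
      constructor
      · rw [le_div_iff₀ hh]
        linarith
      · rw [div_lt_iff₀ hh]
        exact h1
    unfold ix at h3 ⊢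
    rw [h2, h3]
  have hfr : fr h (t + τ) = fr h t + τ / h := by
    unfold fr
    rw [hix, max_eq_left (by linarith : (0 : ℝ) ≤ t + τ), max_eq_left ht, add_div]
    ring
  have hzt : zt h (t + τ) (x - τ • v) v = zt h t x v := by
    unfold zt
    rw [hfr]
    have h4 : (fr h t + τ / h) * h = fr h t * h + τ := by
      field_simp
    rw [h4, add_smul]
    congr 1
    abel
  unfold FF RR
  rw [hix, hfr, hzt]
  field_simp
  ring

/-- at the beginning of a step the interpolation is the recursion -/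
theorem FF_grid (H : RecOk h k f0 m c W) (N : ℕ) (x v : V d) :
    FF h k f0 (N * h) x v = bk h k f0 N (x, v) := by
  have hh := H.h0
  have h1 : max ((N : ℝ) * h) 0 / h = N := by
    rw [max_eq_left (mul_nonneg (Nat.cast_nonneg _) hh.le)]
    field_simp
  have hix : ix h (N * h) = N := by
    unfold ix
    rw [h1, Nat.floor_natCast]
  have hfr : fr h (N * h) = 0 := by
    unfold fr
    rw [hix, h1, sub_self]
  unfold FF zt
  rw [hfr, hix]
  simp

end KDB
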