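import Pool.Agent.Helper34.KDB.St.E1

/-! KDP-E2: continuity of the interpolation. -/

set_option autoImplicit false

namespace KDB

open MeasureTheory Set Filter Topology
open scoped ENNReal NNReal ContDiff

variable {d : ℕ} {h : ℝ} {k : ℕ → V d × V d → V d → ℝ} {f0 : V d × V d → ℝ} {m c W : ℝ}

/-- linear interpolation of a sequence with bounded steps is Lipschitz -/
private theorem E2_lin (a : ℕ → ℝ) (D : ℝ) (hD : ∀ i, |a (i + 1) - a i| ≤ D) (s s' : ℝ)
    (hs : 0 ≤ s) (hss : s ≤ s') :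
    |((1 - (s' - ⌊s'⌋₊)) * a ⌊s'⌋₊ + (s' - ⌊s'⌋₊) * a (⌊s'⌋₊ + 1)) -
      ((1 - (s - ⌊s⌋₊)) * a ⌊s⌋₊ + (s - ⌊s⌋₊) * a (⌊s⌋₊ + 1))| ≤ D * (s' - s) := by
  have h1 := Nat.floor_le hs
  have h2 := Nat.lt_floor_add_one s
  have h3 := Nat.floor_le (hs.trans hss)
  have h4 := Nat.lt_floor_add_one s'
  have hle : ⌊s⌋₊ ≤ ⌊s'⌋₊ := Nat.floor_mono hss
  generalize ⌊s⌋₊ = i at *
  generalize ⌊s'⌋₊ = i' at *
  have hchain : ∀ n : ℕ, |a (i + 1 + n) - a (i + 1)| ≤ D * n := by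
    intro n
    induction n with
    | zero => simp
    | succ n ih =>
      have e : a (i + 1 + (n + 1)) - a (i + 1) =
          (a (i + 1 + n + 1) - a (i + 1 + n)) + (a (i + 1 + n) - a (i + 1)) := by
        rw [← add_assoc]
        ring
      rw [e]
      refine (abs_add_le _ _).trans ?_
      have := hD (i + 1 + n)
      push_cast
      linarith
  rcases hle.eq_or_lt with heq | hlt
  · subst heq
    have e : ((1 - (s' - (i : ℝ))) * a i + (s' - i) * a (i + 1)) -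
        ((1 - (s - i)) * a i + (s - i) * a (i + 1)) = (a (i + 1) - a i) * (s' - s) := by ring
    rw [e, abs_mul, abs_of_nonneg (sub_nonneg.2 hss)]
    exact mul_le_mul_of_nonneg_right (hD i) (sub_nonneg.2 hss)
  · obtain ⟨n, rfl⟩ : ∃ n, i' = i + 1 + n := ⟨i' - (i + 1), by omega⟩
    have e : ((1 - (s' - ((i + 1 + n : ℕ) : ℝ))) * a (i + 1 + n) +
          (s' - ((i + 1 + n : ℕ) : ℝ)) * a (i + 1 + n + 1)) -
        ((1 - (s - i)) * a i + (s - i) * a (i + 1)) =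
        (s' - ((i + 1 + n : ℕ) : ℝ)) * (a (i + 1 + n + 1) - a (i + 1 + n)) +
          ((a (i + 1 + n) - a (i + 1)) + (1 - (s - i)) * (a (i + 1) - a i)) := by ring
    rw [e]
    have t1 : |(s' - ((i + 1 + n : ℕ) : ℝ)) * (a (i + 1 + n + 1) - a (i + 1 + n))| ≤
        (s' - ((i + 1 + n : ℕ) : ℝ)) * D := by
      rw [abs_mul, abs_of_nonneg (sub_nonneg.2 h3)]
      exact mul_le_mul_of_nonneg_left (hD _) (sub_nonneg.2 h3)
    have t2 : |(1 - (s - i)) * (a (i + 1) - a i)| ≤ (1 - (s - i)) * D := by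
      have h5 : 0 ≤ 1 - (s - (i : ℝ)) := by linarith
      rw [abs_mul, abs_of_nonneg h5]
      exact mul_le_mul_of_nonneg_left (hD _) h5
    refine (abs_add_le _ _).trans ?_
    refine (add_le_add t1 ((abs_add_le _ _).trans (add_le_add (hchain n) t2))).trans ?_
    push_cast
    apply le_of_eq
    ring

/-- the interpolation along a characteristic -/
private theorem E2_char (H : RecOk h k f0 m c W) (y v : V d) (s : ℝ) (hs : 0 ≤ s) :
    FF h k f0 s (y - s • v) v =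
      (1 - (s / h - ⌊s / h⌋₊)) * bk h k f0 ⌊s / h⌋₊ (y - ((⌊s / h⌋₊ : ℝ) * h) • v, v) +
        (s / h - ⌊s / h⌋₊) *
          bk h k f0 (⌊s / h⌋₊ + 1) (y - (((⌊s / h⌋₊ + 1 : ℕ) : ℝ) * h) • v, v) := by
  have hh := H.h0
  have hz : zt h s (y - s • v) v = (y - ((⌊s / h⌋₊ : ℝ) * h) • v, v) := by
    unfold zt fr ix
    rw [max_eq_left hs]
    refine Prod.ext ?_ rfl
    show y - s • v + ((s / h - ⌊s / h⌋₊) * h) • v = y - ((⌊s / h⌋₊ : ℝ) * h) • v
    rw [sub_add, ← sub_smul]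
    congr 2
    field_simp
    ring
  have hS : Sh h (y - (((⌊s / h⌋₊ + 1 : ℕ) : ℝ) * h) • v, v) =
      (y - ((⌊s / h⌋₊ : ℝ) * h) • v, v) := by
    unfold Sh
    refine Prod.ext ?_ rfl
    show y - (((⌊s / h⌋₊ + 1 : ℕ) : ℝ) * h) • v + h • v = y - ((⌊s / h⌋₊ : ℝ) * h) • v
    rw [sub_add, ← sub_smul]
    congr 2
    push_cast
    ring
  have hb : bk h k f0 (⌊s / h⌋₊ + 1) (y - (((⌊s / h⌋₊ + 1 : ℕ) : ℝ) * h) • v, v) =
      TT (k ⌊s / h⌋₊) (bk h k f0 ⌊s / h⌋₊) (y - ((⌊s / h⌋₊ : ℝ) * h) • v, v) := by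
    show TT (k ⌊s / h⌋₊) (bk h k f0 ⌊s / h⌋₊)
      (Sh h (y - (((⌊s / h⌋₊ + 1 : ℕ) : ℝ) * h) • v, v)) = _
    rw [hS]
  rw [hb]
  unfold FF
  rw [hz]
  unfold fr ix
  rw [max_eq_left hs]

/-- Lipschitz along the characteristics -/
theorem FF_charb (H : RecOk h k f0 m c W) (t : ℝ) (ht : 0 ≤ t) (x v : V d) (τ : ℝ)
    (h0 : 0 ≤ τ) : |FF h k f0 (t + τ) (x - τ • v) v - FF h k f0 t x v| ≤ m * τ := by
  have hh := H.h0
  have e1 : x - τ • v = (x + t • v) - (t + τ) • v := by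
    rw [add_smul]
    abel
  have e2 : x = (x + t • v) - t • v := by abel
  have c1 := E2_char H (x + t • v) v (t + τ) (by linarith)
  have c2 := E2_char H (x + t • v) v t ht
  rw [← e1] at c1
  rw [← e2] at c2
  rw [c1, c2]
  have hstep : ∀ i : ℕ, |bk h k f0 (i + 1) ((x + t • v) - (((i + 1 : ℕ) : ℝ) * h) • v, v) -
      bk h k f0 i ((x + t • v) - ((i : ℝ) * h) • v, v)| ≤ h * m := by
    intro i
    have hS : Sh h ((x + t • v) - (((i + 1 : ℕ) : ℝ) * h) • v, v) =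
        ((x + t • v) - ((i : ℝ) * h) • v, v) := by
      unfold Sh
      refine Prod.ext ?_ rfl
      show (x + t • v) - (((i + 1 : ℕ) : ℝ) * h) • v + h • v = (x + t • v) - ((i : ℝ) * h) • v
      rw [sub_add, ← sub_smul]
      congr 2
      push_cast
      ring
    have hb := bk_prop H i
    have h1 := TT_sub_le (H.hk i) hb.1.measurable hb.2.1 ((x + t • v) - ((i : ℝ) * h) • v, v)
    show |TT (k i) (bk h k f0 i) (Sh h ((x + t • v) - (((i + 1 : ℕ) : ℝ) * h) • v, v)) -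
      bk h k f0 i ((x + t • v) - ((i : ℝ) * h) • v, v)| ≤ h * m
    rw [hS]
    exact h1
  have h2 := E2_lin (fun i => bk h k f0 i ((x + t • v) - ((i : ℝ) * h) • v, v)) (h * m) hstep
    (t / h) ((t + τ) / h) (by positivity) (by gcongr; linarith)
  have h3 : h * m * ((t + τ) / h - t / h) = m * τ := by
    field_simp
    ring
  rw [h3] at h2
  exact h2

/-- only the positive part of the time matters -/
private theorem E2_max (t : ℝ) (x v : V d) : FF h k f0 (max t 0) x v = FF h k f0 t x v := by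
  unfold FF zt fr ix
  rw [max_eq_left (le_max_right t 0)]

/-- Lipschitz in time -/
private theorem E2_time (H : RecOk h k f0 m c W) (t t' : ℝ) (ht : 0 ≤ t) (htt : t ≤ t')
    (x v : V d) : |FF h k f0 t' x v - FF h k f0 t x v| ≤
      (m + (1 + 2 * c) * Real.exp (t' + 2) * ‖v‖) * (t' - t) := by
  have h0 : 0 ≤ t' - t := sub_nonneg.2 htt
  have h1 := FF_charb H t ht (x + (t' - t) • v) v (t' - t) h0
  have e1 : t + (t' - t) = t' := by ring
  have e2 : x + (t' - t) • v - (t' - t) • v = x := by abel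
  rw [e1, e2] at h1
  have h2 := FF_lip H t ht (x + (t' - t) • v) v x v
  have e3 : max ‖x + (t' - t) • v - x‖ ‖v - v‖ = (t' - t) * ‖v‖ := by
    rw [add_sub_cancel_left, sub_self, norm_zero, norm_smul, Real.norm_of_nonneg h0]
    exact max_eq_left (by positivity)
  rw [e3] at h2
  have hc := H.c0
  have h3 : (1 + 2 * c) * Real.exp (t + 2) * ((t' - t) * ‖v‖) ≤
      (1 + 2 * c) * Real.exp (t' + 2) * ((t' - t) * ‖v‖) := by
    gcongr
  have h4 : FF h k f0 t' x v - FF h k f0 t x v =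
      (FF h k f0 t' x v - FF h k f0 t (x + (t' - t) • v) v) +
        (FF h k f0 t (x + (t' - t) • v) v - FF h k f0 t x v) := by ring
  rw [h4]
  refine (abs_add_le _ _).trans ?_
  calc |FF h k f0 t' x v - FF h k f0 t (x + (t' - t) • v) v| +
        |FF h k f0 t (x + (t' - t) • v) v - FF h k f0 t x v|
      ≤ m * (t' - t) + (1 + 2 * c) * Real.exp (t' + 2) * ((t' - t) * ‖v‖) :=
        add_le_add h1 (h2.trans h3)
    _ = (m + (1 + 2 * c) * Real.exp (t' + 2) * ‖v‖) * (t' - t) := by ring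

private theorem E2_time' (H : RecOk h k f0 m c W) (t t' : ℝ) (ht : 0 ≤ t) (ht' : 0 ≤ t')
    (x v : V d) : |FF h k f0 t' x v - FF h k f0 t x v| ≤
      (m + (1 + 2 * c) * Real.exp (max t t' + 2) * ‖v‖) * |t' - t| := by
  rcases le_total t t' with h1 | h1
  · rw [max_eq_right h1, abs_of_nonneg (sub_nonneg.2 h1)]
    exact E2_time H t t' ht h1 x v
  · rw [max_eq_left h1, abs_sub_comm, abs_sub_comm t' t, abs_of_nonneg (sub_nonneg.2 h1)]
    exact E2_time H t' t ht' h1 x v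

theorem FF_cont (H : RecOk h k f0 m c W) :
    Continuous (fun p : ℝ × V d × V d => FF h k f0 p.1 p.2.1 p.2.2) := by
  rw [continuous_iff_continuousAt]
  intro p
  have key : ∀ q : ℝ × V d × V d,
      ‖FF h k f0 q.1 q.2.1 q.2.2 - FF h k f0 p.1 p.2.1 p.2.2‖ ≤
        ((1 + 2 * c) * Real.exp (max q.1 0 + 2)) * max ‖q.2.1 - p.2.1‖ ‖q.2.2 - p.2.2‖ +
          (m + (1 + 2 * c) * Real.exp (max (max p.1 0) (max q.1 0) + 2) * ‖p.2.2‖) *
            |max q.1 0 - max p.1 0| := by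
    intro q
    rw [← E2_max (h := h) (k := k) (f0 := f0) q.1, ← E2_max (h := h) (k := k) (f0 := f0) p.1,
      Real.norm_eq_abs]
    have h1 := FF_lip H (max q.1 0) (le_max_right _ _) q.2.1 q.2.2 p.2.1 p.2.2
    have h2 := E2_time' H (max p.1 0) (max q.1 0) (le_max_right _ _) (le_max_right _ _)
      p.2.1 p.2.2
    have h3 : FF h k f0 (max q.1 0) q.2.1 q.2.2 - FF h k f0 (max p.1 0) p.2.1 p.2.2 =
        (FF h k f0 (max q.1 0) q.2.1 q.2.2 - FF h k f0 (max q.1 0) p.2.1 p.2.2) +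
          (FF h k f0 (max q.1 0) p.2.1 p.2.2 - FF h k f0 (max p.1 0) p.2.1 p.2.2) := by ring
    rw [h3]
    exact (abs_add_le _ _).trans (add_le_add h1 h2)
  have hlim : Tendsto (fun q : ℝ × V d × V d =>
      ((1 + 2 * c) * Real.exp (max q.1 0 + 2)) * max ‖q.2.1 - p.2.1‖ ‖q.2.2 - p.2.2‖ +
          (m + (1 + 2 * c) * Real.exp (max (max p.1 0) (max q.1 0) + 2) * ‖p.2.2‖) *
            |max q.1 0 - max p.1 0|) (𝓝 p) (𝓝 0) := by
    have hcont : Continuous (fun q : ℝ × V d × V d =>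
      ((1 + 2 * c) * Real.exp (max q.1 0 + 2)) * max ‖q.2.1 - p.2.1‖ ‖q.2.2 - p.2.2‖ +
          (m + (1 + 2 * c) * Real.exp (max (max p.1 0) (max q.1 0) + 2) * ‖p.2.2‖) *
            |max q.1 0 - max p.1 0|) := by
      fun_prop
    have h4 := hcont.tendsto p
    simpa using h4
  have h5 := squeeze_zero_norm key hlim
  exact tendsto_sub_nhds_zero_iff.1 h5

end KDB
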