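import Pool.Agent.Helper34.KDB.St.E2

/-! KDP-E3: the equation for the interpolation. -/

set_option autoImplicit false

namespace KDB

open MeasureTheory Set Filter Topology
open scoped ENNReal NNReal ContDiff

variable {d : ℕ} {h : ℝ} {k : ℕ → V d × V d → V d → ℝ} {f0 : V d × V d → ℝ} {m c W : ℝ}

private theorem E3_ix_meas (h : ℝ) : Measurable (ix h) := by
  unfold ix
  exact Nat.measurable_floor.comp ((measurable_id.max measurable_const).div_const h)

private theorem E3_fr_meas (h : ℝ) : Measurable (fr h) := by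
  unfold fr
  refine ((measurable_id.max measurable_const).div_const h).sub ?_
  exact (measurable_of_countable (fun n : ℕ => (n : ℝ))).comp (E3_ix_meas h)

private theorem E3_zt_meas (h : ℝ) :
    Measurable (fun p : ℝ × V d × V d => zt h p.1 p.2.1 p.2.2) := by
  unfold zt
  have h1 : Measurable (fun p : ℝ × V d × V d => fr h p.1) := (E3_fr_meas h).comp measurable_fst
  exact (measurable_snd.fst.add ((h1.mul_const h).smul measurable_snd.snd)).prodMk
    measurable_snd.snd

private theorem E3_ix_le (H : RecOk h k f0 m c W) {t : ℝ} (ht : 0 ≤ t) : (ix h t : ℝ) * h ≤ t := by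
  have h1 := H.h0
  have h2 : (ix h t : ℝ) ≤ max t 0 / h := Nat.floor_le (by positivity)
  rw [max_eq_left ht, le_div_iff₀ h1] at h2
  exact h2

private theorem E3_lt_ix (H : RecOk h k f0 m c W) {t : ℝ} (ht : 0 ≤ t) :
    t < ((ix h t : ℝ) + 1) * h := by
  have h1 := H.h0
  have h2 : max t 0 / h < (ix h t : ℝ) + 1 := Nat.lt_floor_add_one _
  rw [max_eq_left ht, div_lt_iff₀ h1] at h2
  exact h2

private theorem E3_fr_mem (H : RecOk h k f0 m c W) (t : ℝ) : 0 ≤ fr h t ∧ fr h t ≤ 1 := by
  have h1 := H.h0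
  have h2 : (ix h t : ℝ) ≤ max t 0 / h := Nat.floor_le (by positivity)
  have h3 : max t 0 / h < (ix h t : ℝ) + 1 := Nat.lt_floor_add_one _
  unfold fr
  exact ⟨by linarith, by linarith⟩

theorem KK_meas (H : RecOk h k f0 m c W) :
    Measurable (fun p : ℝ × V d × V d × V d => KK h k p.1 p.2.1 p.2.2.1 p.2.2.2) := by
  have h1 : Measurable (fun q : ℕ × ((V d × V d) × V d) => k q.1 q.2.1 q.2.2) :=
    measurable_from_prod_countable_right fun i => (H.hk i).meas
  have h2 : Measurable (fun p : ℝ × V d × V d × V d => zt h p.1 p.2.1 p.2.2.1) :=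
    (E3_zt_meas h).comp (measurable_fst.prodMk (measurable_snd.fst.prodMk measurable_snd.snd.fst))
  have h3 : Measurable (fun p : ℝ × V d × V d × V d =>
      (ix h p.1, (zt h p.1 p.2.1 p.2.2.1, p.2.2.2))) :=
    ((E3_ix_meas h).comp measurable_fst).prodMk (h2.prodMk measurable_snd.snd.snd)
  exact (h1.comp h3).div_const h

theorem RR_meas (H : RecOk h k f0 m c W) :
    Measurable (fun p : ℝ × V d × V d => RR h k f0 p.1 p.2.1 p.2.2) := by
  have hb : ∀ i, Measurable (bk h k f0 i) := fun i => (bk_prop H i).1.measurable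
  have h1 : Measurable (fun q : ℕ × (V d × V d) =>
      TT (k q.1) (bk h k f0 q.1) q.2 - bk h k f0 q.1 q.2) :=
    measurable_from_prod_countable_right fun i => (TT_measurable (H.hk i) (hb i)).sub (hb i)
  have h3 : Measurable (fun p : ℝ × V d × V d => (ix h p.1, zt h p.1 p.2.1 p.2.2)) :=
    ((E3_ix_meas h).comp measurable_fst).prodMk (E3_zt_meas h)
  exact (h1.comp h3).div_const h

theorem RR_le (H : RecOk h k f0 m c W) (t : ℝ) (x v : V d) : |RR h k f0 t x v| ≤ m := by
  have hb := bk_prop H (ix h t)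
  have h1 := TT_sub_le (H.hk (ix h t)) hb.1.measurable hb.2.1 (zt h t x v)
  unfold RR
  rw [abs_div, abs_of_pos H.h0, div_le_iff₀ H.h0, mul_comm m h]
  exact h1

/-- the equation holds up to an error of the order of the step -/
theorem FF_eqn (H : RecOk h k f0 m c W) (t : ℝ) (ht : 0 ≤ t) (x v : V d) :
    |RR h k f0 t x v - ∫ w, (FF h k f0 t x (v + w) - FF h k f0 t x v) * KK h k t x v w| ≤
      h * m * (2 * m + (1 + 2 * c) * Real.exp t * W) := by
  have hh := H.h0
  have hm := H.m0
  have hc := H.c0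
  have hW := H.W0
  have hfr := E3_fr_mem H t
  have hix := E3_ix_le H ht
  obtain ⟨i, hi⟩ : ∃ i, i = ix h t := ⟨_, rfl⟩
  obtain ⟨φ, hφ⟩ : ∃ φ, φ = fr h t := ⟨_, rfl⟩
  rw [← hi] at hix
  rw [← hφ] at hfr
  have hk := H.hk i
  obtain ⟨hfc, hf01, hfl⟩ := bk_prop H i
  obtain ⟨z, hz⟩ : ∃ z, z = zt h t x v := ⟨_, rfl⟩
  have hz1 : z = (x + (φ * h) • v, v) := by rw [hz, hφ]; rfl
  -- the interpolation is close to the recursion
  have hFF : ∀ u, |FF h k f0 t x u - bk h k f0 i (x + (φ * h) • u, u)| ≤ h * m := by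
    intro u
    have h1 := TT_sub_le hk hfc.measurable hf01 (x + (φ * h) • u, u)
    have h2 : FF h k f0 t x u - bk h k f0 i (x + (φ * h) • u, u) =
        φ * (TT (k i) (bk h k f0 i) (x + (φ * h) • u, u) -
          bk h k f0 i (x + (φ * h) • u, u)) := by
      unfold FF zt
      rw [← hi, ← hφ]
      ring
    rw [h2, abs_mul, abs_of_nonneg hfr.1]
    calc φ * |TT (k i) (bk h k f0 i) (x + (φ * h) • u, u) - bk h k f0 i (x + (φ * h) • u, u)|
        ≤ 1 * (h * m) := mul_le_mul hfr.2 h1 (abs_nonneg _) zero_le_one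
      _ = h * m := one_mul _
  have hexp : Real.exp (i * h) ≤ Real.exp t := Real.exp_le_exp.2 hix
  have hpt : ∀ w, ‖w‖ ≤ W →
      |(bk h k f0 i (z.1, z.2 + w) - bk h k f0 i z) - (FF h k f0 t x (v + w) - FF h k f0 t x v)| ≤
        h * (2 * m + (1 + 2 * c) * Real.exp t * W) := by
    intro w hw
    have h1 := hFF (v + w)
    have h2 := hFF v
    have h3 := hfl (z.1, z.2 + w) (x + (φ * h) • (v + w), v + w)
    have h4 : ‖((z.1, z.2 + w) : V d × V d) - (x + (φ * h) • (v + w), v + w)‖ ≤ h * W := by
      have h5 : ((z.1, z.2 + w) : V d × V d) - (x + (φ * h) • (v + w), v + w) =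
          (-((φ * h) • w), 0) := by
        rw [hz1]
        ext a
        · simp only [Prod.mk_sub_mk, smul_add, Pi.sub_apply, Pi.add_apply, Pi.neg_apply]
          ring
        · simp only [Prod.mk_sub_mk, sub_self, Pi.zero_apply]
      rw [h5, Prod.norm_mk, norm_zero, norm_neg, norm_smul, max_eq_left (by positivity),
        Real.norm_eq_abs, abs_mul, abs_of_nonneg hfr.1, abs_of_pos hh]
      calc φ * h * ‖w‖ ≤ 1 * h * W := by
            refine mul_le_mul (mul_le_mul_of_nonneg_right hfr.2 hh.le) hw (norm_nonneg _)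
              (by positivity)
        _ = h * W := by ring
    have h6 : |bk h k f0 i (z.1, z.2 + w) - bk h k f0 i (x + (φ * h) • (v + w), v + w)| ≤
        (1 + 2 * c) * Real.exp t * (h * W) := by
      refine h3.trans ?_
      refine mul_le_mul (mul_le_mul_of_nonneg_left hexp (by positivity)) h4 (norm_nonneg _)
        (by positivity)
    rw [← hz1] at h2
    have h7 : (bk h k f0 i (z.1, z.2 + w) - bk h k f0 i z) -
        (FF h k f0 t x (v + w) - FF h k f0 t x v) =
        (bk h k f0 i (z.1, z.2 + w) - bk h k f0 i (x + (φ * h) • (v + w), v + w)) -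
        (FF h k f0 t x (v + w) - bk h k f0 i (x + (φ * h) • (v + w), v + w)) +
        (FF h k f0 t x v - bk h k f0 i z) := by ring
    rw [h7]
    refine (abs_add_le _ _).trans ?_
    have h8 := abs_sub (bk h k f0 i (z.1, z.2 + w) - bk h k f0 i (x + (φ * h) • (v + w), v + w))
      (FF h k f0 t x (v + w) - bk h k f0 i (x + (φ * h) • (v + w), v + w))
    calc _ ≤ ((1 + 2 * c) * Real.exp t * (h * W) + h * m) + h * m := by
          exact add_le_add (h8.trans (add_le_add h6 h1)) h2
      _ = h * (2 * m + (1 + 2 * c) * Real.exp t * W) := by ring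
  -- integrability
  have hi1 : Integrable (fun w => (bk h k f0 i (z.1, z.2 + w) - bk h k f0 i z) * k i z w) := by
    have h1 := (TT_eq hk hfc.measurable 1 (fun z => by
      rw [abs_le]
      exact ⟨by linarith [(hf01 z).1], (hf01 z).2⟩) z).1
    have h2 := (hk.int z).const_mul (bk h k f0 i z)
    refine (h1.sub h2).congr (Eventually.of_forall fun w => ?_)
    simp only [Pi.sub_apply]
    ring
  have hFcont : Continuous (fun w => FF h k f0 t x (v + w)) := by
    have h1 := FF_cont H
    exact h1.comp (continuous_const.prodMk (continuous_const.prodMk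
      (continuous_const.add continuous_id)))
  have hi2 : Integrable (fun w => (FF h k f0 t x (v + w) - FF h k f0 t x v) * k i z w) := by
    refine ((hk.int z).norm).mono' ?_ (Eventually.of_forall fun w => ?_)
    · exact ((hFcont.sub continuous_const).measurable.aestronglyMeasurable).mul
        (hk.int z).aestronglyMeasurable
    · rw [norm_mul]
      refine mul_le_of_le_one_left (norm_nonneg _) ?_
      rw [Real.norm_eq_abs, abs_le]
      have h1 := FF_mem H t x (v + w)
      have h2 := FF_mem H t x v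
      exact ⟨by linarith [h1.1, h2.2], by linarith [h1.2, h2.1]⟩
  have e1 : RR h k f0 t x v =
      (∫ w, (bk h k f0 i (z.1, z.2 + w) - bk h k f0 i z) * k i z w) / h := by
    unfold RR TT
    rw [← hi, ← hz, add_sub_cancel_left]
  have e2 : ∫ w, (FF h k f0 t x (v + w) - FF h k f0 t x v) * KK h k t x v w =
      (∫ w, (FF h k f0 t x (v + w) - FF h k f0 t x v) * k i z w) / h := by
    rw [← integral_div]
    refine integral_congr_ae (Eventually.of_forall fun w => ?_)
    simp only [KK]
    rw [← hi, ← hz, mul_div_assoc]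
  have hbound : |(∫ w, (bk h k f0 i (z.1, z.2 + w) - bk h k f0 i z) * k i z w) -
      ∫ w, (FF h k f0 t x (v + w) - FF h k f0 t x v) * k i z w| ≤
      h * (2 * m + (1 + 2 * c) * Real.exp t * W) * (h * m) := by
    rw [← integral_sub hi1 hi2]
    have hC : 0 ≤ h * (2 * m + (1 + 2 * c) * Real.exp t * W) := by positivity
    calc |∫ w, ((bk h k f0 i (z.1, z.2 + w) - bk h k f0 i z) * k i z w -
          (FF h k f0 t x (v + w) - FF h k f0 t x v) * k i z w)|
        ≤ ∫ w, h * (2 * m + (1 + 2 * c) * Real.exp t * W) * k i z w := by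
          rw [← Real.norm_eq_abs]
          refine norm_integral_le_of_norm_le ((hk.int z).const_mul _)
            (Eventually.of_forall fun w => ?_)
          rw [← sub_mul, norm_mul, Real.norm_eq_abs, Real.norm_eq_abs,
            abs_of_nonneg (hk.nonneg z w)]
          rcases le_or_gt ‖w‖ W with hw | hw
          · exact mul_le_mul_of_nonneg_right (hpt w hw) (hk.nonneg z w)
          · rw [hk.supp z w hw, mul_zero, mul_zero]
      _ = h * (2 * m + (1 + 2 * c) * Real.exp t * W) * ∫ w, k i z w := integral_const_mul _ _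
      _ ≤ h * (2 * m + (1 + 2 * c) * Real.exp t * W) * (h * m) :=
          mul_le_mul_of_nonneg_left (hk.mass z) hC
  rw [e1, e2, ← sub_div, abs_div, abs_of_pos hh, div_le_iff₀ hh]
  refine hbound.trans (le_of_eq ?_)
  ring

theorem apx_FF (H : RecOk h k f0 m c W) (T : ℝ) (hT : 0 ≤ T) :
    Apx (FF h k f0) (KK h k) (RR h k f0) T ((1 + 2 * c) * Real.exp (T + 2)) m W
      (h * m * (2 * m + (1 + 2 * c) * Real.exp T * W)) := by
  have hh := H.h0
  have hm := H.m0
  have hc := H.c0
  have hW := H.W0
  refine ⟨FF_cont H, FF_mem H, ?_, KK_meas H, ?_, ?_, ?_, ?_, RR_meas H, RR_le H, ?_, ?_, ?_⟩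
  · intro t x v x' v' h0 h1
    refine (FF_lip H t h0 x v x' v').trans ?_
    have h2 : Real.exp (t + 2) ≤ Real.exp (T + 2) := Real.exp_le_exp.2 (by linarith)
    exact mul_le_mul_of_nonneg_right (mul_le_mul_of_nonneg_left h2 (by positivity))
      (le_max_of_le_left (norm_nonneg _))
  · intro t x v w
    exact div_nonneg ((H.hk _).nonneg _ _) hh.le
  · intro t x v
    exact ((H.hk _).int _).div_const h
  · intro t x v
    unfold KK
    rw [integral_div, div_le_iff₀ hh, mul_comm m h]
    exact (H.hk _).mass _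
  · intro t x v w hw
    unfold KK
    rw [(H.hk _).supp _ _ hw, zero_div]
  · intro t x v h0
    have h1 := E3_lt_ix H h0
    have h2 : ∀ᶠ τ in 𝓝[>] (0 : ℝ), τ ∈ Ioo (0 : ℝ) (((ix h t : ℝ) + 1) * h - t) :=
      Ioo_mem_nhdsGT (by linarith)
    filter_upwards [h2] with τ hτ
    exact FF_char H t h0 x v τ hτ.1.le (by linarith [hτ.2])
  · intro t x v τ h0 h1
    exact FF_charb H t h0 x v τ h1
  · intro t x v h0 h1
    refine (FF_eqn H t h0 x v).trans ?_
    have h2 : Real.exp t ≤ Real.exp T := Real.exp_le_exp.2 h1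
    have h3 : (1 + 2 * c) * Real.exp t * W ≤ (1 + 2 * c) * Real.exp T * W :=
      mul_le_mul_of_nonneg_right (mul_le_mul_of_nonneg_left h2 (by positivity)) hW
    exact mul_le_mul_of_nonneg_left (by linarith) (by positivity)

end KDB
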