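import Pool.Agent.Helper34.KDB.St.V1
import Pool.Agent.Helper34.KDB.St.A3

/-! KDP-V3: total mass of the value function. -/

set_option autoImplicit false

namespace KDB

open MeasureTheory Set Filter Topology
open scoped ENNReal NNReal ContDiff

variable (p : Par)

/-- MASS -/
theorem vf_mass (hp : p.Ok) (hh : p.h * (p.kap + p.mr) ≤ 1 / 2) (N : ℕ)
    (G : ℕ → Finset p.St) (B : ℝ) (hG : ∀ t ≤ N, ((G t).card : ℝ) ≤ B) (i : ℕ) (hi : i ≤ N) :
    Integrable (p.vf N G i) ∧
      ∫ z, p.vf N G i z ≤ B * 16 ^ p.d * (1 + i * (p.h * p.mr)) := by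
  obtain ⟨kd1, kd2, kd3, kd4, kd5, kd6⟩ := kd_prop p hp
  have hrec := rec_ok p hp hh N G
  have hmr : 0 ≤ p.h * p.mr := by
    have h1 : 0 ≤ p.mr := by
      have := hp.hmu
      unfold Par.mr
      positivity
    exact mul_nonneg hrec.h0.le h1
  have hbump : ∀ t ≤ N, ∫ z, bump (G t) z ≤ B * 16 ^ p.d := by
    intro t ht
    refine (bump_integral (G t)).2.trans ?_
    exact mul_le_mul_of_nonneg_right (hG t ht) (by positivity)
  induction i with
  | zero =>
    refine ⟨(bump_integral (G N)).1, ?_⟩
    have h1 := hbump N le_rfl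
    change ∫ z, bump (G N) z ≤ _
    simpa using h1
  | succ i ih =>
    obtain ⟨ih1, ih2⟩ := ih (by omega)
    obtain ⟨ra1, ra2, ra3, ra4, ra5, ra6, ra7⟩ := ra_prop p hp (N - 1 - i)
    obtain ⟨hc, h01, -⟩ := bk_prop hrec i
    have hk : p.ker N G i = fun z w => p.h * p.kd w + bump (G (N - i)) z * p.ra (N - 1 - i) z w := by
      funext z w
      unfold Par.ker
      rw [if_pos (by omega)]
    have hbm : Measurable (bump (G (N - i))) := by
      have h : LipschitzWith 1 (bump (G (N - i))) := by
        refine LipschitzWith.of_dist_le_mul fun x y => ?_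
        rw [Real.dist_eq, NNReal.coe_one, one_mul, dist_eq_norm]
        exact bump_lip _ x y
      exact h.continuous.measurable
    obtain ⟨t1, t2⟩ := TT_mass (kd4.const_mul p.h) (fun w => mul_nonneg hrec.h0.le (kd2 w))
      (bump_integral (G (N - i))).1 (bump_nonneg (G (N - i))) hbm ra1 ra2 ra4 ra5 hc.measurable h01
      ih1
    rw [← hk] at t1 t2
    have hmp := measurePreserving_Sh (d := p.d) p.h
    have hTm : AEStronglyMeasurable (TT (p.ker N G i) (bk p.h (p.ker N G) (bump (G N)) i))
        (volume : Measure (V p.d × V p.d)) := t1.aestronglyMeasurable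
    have e1 : p.vf N G (i + 1) =
        TT (p.ker N G i) (bk p.h (p.ker N G) (bump (G N)) i) ∘ Sh p.h := rfl
    constructor
    · rw [e1]
      exact (hmp.integrable_comp hTm).2 t1
    · have e2 : ∫ z, p.vf N G (i + 1) z =
          ∫ z, TT (p.ker N G i) (bk p.h (p.ker N G) (bump (G N)) i) z := by
        rw [e1]
        have h2 := integral_map (μ := (volume : Measure (V p.d × V p.d)))
          (φ := Sh p.h) hmp.measurable.aemeasurable
          (f := TT (p.ker N G i) (bk p.h (p.ker N G) (bump (G N)) i))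
          (by rw [hmp.map_eq]; exact hTm)
        rw [hmp.map_eq] at h2
        exact h2.symm
      rw [e2]
      refine t2.trans ?_
      have h3 := mul_le_mul_of_nonneg_left (hbump (N - i) (Nat.sub_le _ _)) hmr
      have h4 : ∫ z, bk p.h (p.ker N G) (bump (G N)) i z ≤
          B * 16 ^ p.d * (1 + i * (p.h * p.mr)) := ih2
      push_cast
      linarith

/-- a function with a small integral is small somewhere in a box -/
theorem exists_small {d : ℕ} (f : V d × V d → ℝ) (hf : Integrable f) (h0 : ∀ z, 0 ≤ f z)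
    (r1 r2 θ : ℝ) (h1 : 0 < r1) (h2 : 0 < r2) (hθ : 0 < θ)
    (hI : ∫ z, f z < θ * ((2 * r1) ^ d * (2 * r2) ^ d)) :
    ∃ z : V d × V d, ‖z.1‖ ≤ r1 ∧ ‖z.2‖ ≤ r2 ∧ f z ≤ θ := by
  have _ := hθ
  by_contra hcon
  push Not at hcon
  set S : Set (V d × V d) := Metric.closedBall (0 : V d) r1 ×ˢ Metric.closedBall (0 : V d) r2
    with hS
  have hvol : (volume : Measure (V d × V d)) S =
      ENNReal.ofReal ((2 * r1) ^ d * (2 * r2) ^ d) := by
    rw [hS, Measure.volume_eq_prod, Measure.prod_prod, Real.volume_pi_closedBall _ h1.le,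
      Real.volume_pi_closedBall _ h2.le, Fintype.card_fin, ← ENNReal.ofReal_mul (by positivity)]
  have hreal : (volume : Measure (V d × V d)).real S = (2 * r1) ^ d * (2 * r2) ^ d := by
    rw [Measure.real, hvol, ENNReal.toReal_ofReal (by positivity)]
  have hSm : MeasurableSet S := by
    rw [hS]
    exact Metric.isClosed_closedBall.measurableSet.prod Metric.isClosed_closedBall.measurableSet
  have h3 : θ * (volume : Measure (V d × V d)).real S ≤ ∫ z in S, f z := by
    refine setIntegral_ge_of_const_le_real hSm (by rw [hvol]; exact ENNReal.ofReal_ne_top) ?_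
      hf.integrableOn
    intro z hz
    rw [hS, Set.mem_prod, mem_closedBall_zero_iff, mem_closedBall_zero_iff] at hz
    exact (hcon z hz.1 hz.2).le
  have h4 : ∫ z in S, f z ≤ ∫ z, f z :=
    setIntegral_le_integral hf (Filter.Eventually.of_forall h0)
  rw [hreal] at h3
  linarith

end KDB
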