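import Pool.Agent.Helper34.KDB.St.V2
import Pool.Agent.Helper34.KDB.St.V3
import Pool.Agent.Helper37.KDB.St.CH

/-! KDP-F1: the value function has a gap. -/

set_option autoImplicit false

namespace KDB

open MeasureTheory Set Filter Topology
open scoped ENNReal NNReal ContDiff

/-- admissible parameters, independent of the number of levels (from `params`) -/
structure Adm (d L q : ℕ) (mu lam R : ℝ) : Prop where
  q1 : 2 ≤ q
  reg : ∀ (n H : ℕ) (vs eps : ℝ), 1 ≤ n → 1 ≤ H → 0 < vs → vs * (1 + (L : ℝ) ^ n) ≤ 1 / 100 →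
    0 < eps → eps < 1 → Par.Reg ⟨d, L, q, n, H, mu, lam, vs, eps, R⟩

/-- numerics for the lower bound -/
private theorem F1_num1 (L : ℕ) (hL : 1000 ≤ L) (c : ℝ) :
    ∃ n0 : ℕ, ∀ n : ℕ, n0 ≤ n →
      4 * (L : ℝ) ^ (-(7 / 5 : ℝ) * n) + 3 / 4 * (L : ℝ) ^ n * c *
        (2 * (4 * (L : ℝ) ^ (-(7 / 5 : ℝ) * n))) ≤ 1 / 8 := by
  have hL0 : (0 : ℝ) < L := by positivity
  have hL1 : (1 : ℝ) < L := by exact_mod_cast (show 1 < L by omega)
  set a : ℝ := (L : ℝ) ^ (-(7 / 5 : ℝ)) with ha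
  have ha0 : 0 ≤ a := Real.rpow_nonneg hL0.le _
  have ha1 : a < 1 := Real.rpow_lt_one_of_one_lt_of_neg hL1 (by norm_num)
  have haL : a * L = (L : ℝ) ^ (-(2 / 5 : ℝ)) := by
    rw [ha]
    nth_rewrite 2 [← Real.rpow_one (L : ℝ)]
    rw [← Real.rpow_add hL0]
    norm_num
  have haL0 : 0 ≤ a * L := by positivity
  have haL1 : a * L < 1 := by
    rw [haL]
    exact Real.rpow_lt_one_of_one_lt_of_neg hL1 (by norm_num)
  have h1 := tendsto_pow_atTop_nhds_zero_of_lt_one ha0 ha1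
  have h2 := tendsto_pow_atTop_nhds_zero_of_lt_one haL0 haL1
  have h3 : Tendsto (fun n : ℕ => 4 * a ^ n + 6 * c * (a * L) ^ n) atTop (𝓝 0) := by
    have := (h1.const_mul 4).add (h2.const_mul (6 * c))
    simpa using this
  obtain ⟨n0, hn0⟩ := eventually_atTop.1 (h3.eventually_le_const (show (0 : ℝ) < 1 / 8 by norm_num))
  refine ⟨n0, fun n hn => ?_⟩
  have h4 := hn0 n hn
  have h5 : (L : ℝ) ^ (-(7 / 5 : ℝ) * n) = a ^ n := by
    rw [ha, Real.rpow_mul hL0.le, Real.rpow_natCast]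
  rw [h5]
  rw [mul_pow] at h4
  nlinarith [h4]

/-- numerics for the upper bound -/
private theorem F1_num2 (d L ell : ℕ) (hd : 1 ≤ d) (hL : 1000 ≤ L) (hell : 2 ≤ ell) (c δ : ℝ)
    (hc : 0 ≤ c) (hδ : 0 < δ) :
    ∃ n0 : ℕ, ∀ n : ℕ, n0 ≤ n →
      Real.exp (17 / 10 * n * d * Real.log ell) * 16 ^ d * (1 + 3 / 4 * (L : ℝ) ^ n * c) <
        1 / 8 * ((2 * (δ * ((ell : ℝ) * L) ^ n)) ^ d * (2 * (δ * (ell : ℝ) ^ n)) ^ d) := by
  have hL0 : (0 : ℝ) < L := by positivity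
  have hL1 : (1 : ℝ) < L := by exact_mod_cast (show 1 < L by omega)
  have he1 : (1 : ℝ) < ell := by exact_mod_cast (show 1 < ell by omega)
  have he0 : (0 : ℝ) < ell := by linarith
  have hd0 : (0 : ℝ) < d := by exact_mod_cast (show 0 < d by omega)
  set A : ℝ := Real.exp (17 / 10 * d * Real.log ell) with hA
  set B : ℝ := ((ell : ℝ) * L) ^ d * (ell : ℝ) ^ d with hB
  have hA0 : 0 < A := Real.exp_pos _
  have hB0 : 0 < B := by positivity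
  have hAB : A * L < B := by
    have h1 : A < (ell : ℝ) ^ d * (ell : ℝ) ^ d := by
      rw [← pow_add, hA, ← Real.exp_log (pow_pos he0 (d + d)), Real.log_pow, Real.exp_lt_exp]
      have : 0 < Real.log ell := Real.log_pos he1
      push_cast
      nlinarith [mul_pos hd0 this]
    have h2 : (L : ℝ) ≤ (L : ℝ) ^ d := le_self_pow₀ hL1.le (by omega)
    calc A * L < ((ell : ℝ) ^ d * (ell : ℝ) ^ d) * L := by gcongr
      _ ≤ ((ell : ℝ) ^ d * (ell : ℝ) ^ d) * (L : ℝ) ^ d := by gcongr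
      _ = B := by rw [hB, mul_pow]; ring
  have hr0 : 0 ≤ A * L / B := by positivity
  have hr1 : A * L / B < 1 := (div_lt_one hB0).2 hAB
  have h1 := tendsto_pow_atTop_nhds_zero_of_lt_one hr0 hr1
  have h2 : Tendsto (fun n : ℕ => 16 ^ d * (1 + 3 / 4 * c) * (A * L / B) ^ n) atTop (𝓝 0) := by
    have := h1.const_mul ((16 : ℝ) ^ d * (1 + 3 / 4 * c))
    simpa using this
  have h3 : (0 : ℝ) < 1 / 8 * ((2 * δ) ^ d * (2 * δ) ^ d) := by positivity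
  obtain ⟨n0, hn0⟩ := eventually_atTop.1 (h2.eventually_lt_const h3)
  refine ⟨n0, fun n hn => ?_⟩
  have h4 := hn0 n hn
  have h5 : Real.exp (17 / 10 * n * d * Real.log ell) = A ^ n := by
    rw [hA, ← Real.exp_nat_mul]
    congr 1
    ring
  have h6 : 1 / 8 * ((2 * (δ * ((ell : ℝ) * L) ^ n)) ^ d * (2 * (δ * (ell : ℝ) ^ n)) ^ d) =
      1 / 8 * ((2 * δ) ^ d * (2 * δ) ^ d) * B ^ n := by
    rw [hB]
    simp only [mul_pow, ← pow_mul]
    rw [mul_comm n d]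
    ring
  rw [h5, h6]
  have hBn : 0 < B ^ n := pow_pos hB0 n
  have h7 : 16 ^ d * (1 + 3 / 4 * c) * (A * L) ^ n <
      1 / 8 * ((2 * δ) ^ d * (2 * δ) ^ d) * B ^ n := by
    have := mul_lt_mul_of_pos_right h4 hBn
    rw [div_pow, mul_assoc, div_mul_cancel₀ _ hBn.ne'] at this
    exact this
  refine lt_of_le_of_lt ?_ h7
  have hLn : (1 : ℝ) ≤ (L : ℝ) ^ n := one_le_pow₀ hL1.le
  have h8 : 1 + 3 / 4 * (L : ℝ) ^ n * c ≤ (1 + 3 / 4 * c) * (L : ℝ) ^ n := by nlinarith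
  calc A ^ n * 16 ^ d * (1 + 3 / 4 * (L : ℝ) ^ n * c)
      ≤ A ^ n * 16 ^ d * ((1 + 3 / 4 * c) * (L : ℝ) ^ n) := by gcongr
    _ = 16 ^ d * (1 + 3 / 4 * c) * (A * L) ^ n := by rw [mul_pow]; ring

/-- the number of steps -/
private theorem F1_steps (p : Par) (hp : p.Ok) :
    ∃ N : ℕ, (N : ℝ) * p.h = 3 / 4 * (p.L : ℝ) ^ p.n ∧ N ≤ p.tau p.n := by
  have h4 : 4 ∣ p.L ^ (p.n + p.q) := by
    refine hp.hL4.trans (dvd_pow_self _ ?_)
    have := hp.hn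
    omega
  obtain ⟨M, hM⟩ := h4
  have hL0 : (0 : ℝ) < p.L := by
    have := hp.hL
    exact_mod_cast (show 0 < p.L by omega)
  have hH0 : (0 : ℝ) < p.H := by
    have := hp.hH
    exact_mod_cast (show 0 < p.H by omega)
  refine ⟨3 * p.H * M, ?_, ?_⟩
  · have hM' : (p.L : ℝ) ^ (p.n + p.q) = 4 * M := by exact_mod_cast hM
    rw [pow_add] at hM'
    unfold Par.h
    push_cast
    field_simp
    linarith
  · unfold Par.tau
    rw [hM]
    nlinarith [Nat.zero_le (p.H * M)]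

/-- the gap for one set of parameters -/
private theorem F1_gap (p : Par) (hp : p.Reg) (hh : p.h * (p.kap + p.mr) ≤ 1 / 2) (δ : ℝ)
    (hδ : 0 < δ)
    (h1 : 4 * (p.L : ℝ) ^ (-(7 / 5 : ℝ) * p.n) + 3 / 4 * (p.L : ℝ) ^ p.n * p.mr *
        (2 * (4 * (p.L : ℝ) ^ (-(7 / 5 : ℝ) * p.n))) ≤ 1 / 8)
    (h2 : Real.exp (17 / 10 * p.n * p.d * Real.log p.ell) * 16 ^ p.d *
        (1 + 3 / 4 * (p.L : ℝ) ^ p.n * p.mr) <
        1 / 8 * ((2 * (δ * ((p.ell : ℝ) * p.L) ^ p.n)) ^ p.d * (2 * (δ * (p.ell : ℝ) ^ p.n)) ^ p.d)) :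
    ∃ (N : ℕ) (G : ℕ → Finset p.St), (N : ℝ) * p.h = 3 / 4 * (p.L : ℝ) ^ p.n ∧
        7 / 8 ≤ p.vf N G N 0 ∧
        ∃ x v : V p.d, ‖x‖ ≤ δ * p.xi p.n ∧ ‖v‖ ≤ δ * p.rho p.n ∧ p.vf N G N (x, v) ≤ 1 / 8 := by
  have hO := hp.toOk
  have hHok := Hok_of p hO hh
  obtain ⟨N, hN1, hN2⟩ := F1_steps p hO
  have hch : ∀ t : ℕ, ∃ G : Finset p.St, t ≤ N →
      (G.card : ℝ) ≤ Real.exp (17 / 10 * p.n * p.d * Real.log p.ell) ∧
      p.pathLaw N {om | ∀ z ∈ G, 1 < ‖p.run (p.exte N om) t - z‖} ≤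
        ENNReal.ofReal (4 * (p.L : ℝ) ^ (-(7 / 5 : ℝ) * p.n)) := by
    intro t
    by_cases ht : t ≤ N
    · obtain ⟨G, hG⟩ := chain p hp hHok N t ht (ht.trans hN2)
      exact ⟨G, fun _ => hG⟩
    · exact ⟨∅, fun h => absurd h ht⟩
  choose G hG using hch
  have hL0 : (0 : ℝ) < p.L := by
    have := hO.hL
    exact_mod_cast (show 0 < p.L by omega)
  have hNm : (N : ℝ) * (p.h * p.mr) = 3 / 4 * (p.L : ℝ) ^ p.n * p.mr := by
    rw [← mul_assoc, hN1]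
  refine ⟨N, G, hN1, ?_, ?_⟩
  · have hδ' : 0 ≤ 4 * (p.L : ℝ) ^ (-(7 / 5 : ℝ) * p.n) := by positivity
    have hlow := vf_lower p hO hh N G (4 * (p.L : ℝ) ^ (-(7 / 5 : ℝ) * p.n)) (fun t ht =>
      ENNReal.toReal_le_of_le_ofReal hδ' (hG t ht).2)
    rw [hNm] at hlow
    linarith
  · obtain ⟨hint, hmass⟩ := vf_mass p hO hh N G
      (Real.exp (17 / 10 * p.n * p.d * Real.log p.ell)) (fun t ht => (hG t ht).1) N le_rfl
    rw [hNm] at hmass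
    have hell0 : (0 : ℝ) < p.ell := by
      unfold Par.ell
      push_cast
      positivity
    obtain ⟨z, hz1, hz2, hz3⟩ := exists_small (p.vf N G N) hint
      (fun z => ((bk_prop (rec_ok p hO hh N G) N).2.1 z).1)
      (δ * ((p.ell : ℝ) * p.L) ^ p.n) (δ * (p.ell : ℝ) ^ p.n) (1 / 8) (by positivity)
      (by positivity) (by norm_num) (lt_of_le_of_lt hmass h2)
    exact ⟨z.1, z.2, hz1, hz2, hz3⟩

/-- F1: for `n` large the value function is large at `0` and small nearby (unscaled), uniformly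
in `vs`, `eps`, `H` -/
theorem value_gap (d L q : ℕ) (mu lam R : ℝ) (hA : Adm d L q mu lam R) (δ : ℝ) (hδ : 0 < δ) :
    ∃ n0 : ℕ, ∀ n H : ℕ, ∀ vs eps : ℝ, n0 ≤ n → 1 ≤ n → 1 ≤ H → 0 < vs →
      vs * (1 + (L : ℝ) ^ n) ≤ 1 / 100 → 0 < eps → eps < 1 →
      ∀ p : Par, p = ⟨d, L, q, n, H, mu, lam, vs, eps, R⟩ →
      p.h * (p.kap + p.mr) ≤ 1 / 2 →
      ∃ (N : ℕ) (G : ℕ → Finset p.St), (N : ℝ) * p.h = 3 / 4 * (L : ℝ) ^ n ∧
        7 / 8 ≤ p.vf N G N 0 ∧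
        ∃ x v : V p.d, ‖x‖ ≤ δ * p.xi n ∧ ‖v‖ ≤ δ * p.rho n ∧ p.vf N G N (x, v) ≤ 1 / 8 := by
  -- the standing assumptions for some parameters
  have hvs0 : (0 : ℝ) < 1 / 100 / (1 + (L : ℝ) ^ 1) := by positivity
  have hreg0 := hA.reg 1 1 (1 / 100 / (1 + (L : ℝ) ^ 1)) (1 / 2) le_rfl le_rfl hvs0
    (by rw [div_mul_cancel₀]; positivity) (by norm_num) (by norm_num)
  have hd : 1 ≤ d := hreg0.toOk.hd
  have hL : 1000 ≤ L := hreg0.toOk.hL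
  have hmu : 0 < mu := hreg0.toOk.hmu
  have hq : 2 ≤ q := hA.q1
  have hell : 2 ≤ L ^ q := by
    calc 2 ≤ L := by omega
      _ = L ^ 1 := (pow_one L).symm
      _ ≤ L ^ q := Nat.pow_le_pow_right (by omega) (by omega)
  obtain ⟨n1, hn1⟩ := F1_num1 L hL (2 * mu * (L : ℝ) ^ q)
  obtain ⟨n2, hn2⟩ := F1_num2 d L (L ^ q) hd hL hell (2 * mu * (L : ℝ) ^ q) δ (by positivity) hδ
  refine ⟨max n1 n2, fun n H vs eps hn hn0 hH hvs hvs1 heps heps1 p hp hh => ?_⟩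
  subst hp
  exact F1_gap _ (hA.reg n H vs eps hn0 hH hvs hvs1 heps heps1) hh δ hδ
    (hn1 n ((le_max_left _ _).trans hn)) (hn2 n ((le_max_right _ _).trans hn))

end KDB
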