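import Pool.Agent.Helper34.KDB.St.M1

/-! KDP-M3: the mollified kernel and the equation. -/

set_option autoImplicit false

namespace KDB

open MeasureTheory Set Filter Topology
open scoped ENNReal NNReal ContDiff

variable {d : ℕ} {ψ : ℝ × V d × V d → ℝ} {η : ℝ} {F : ℝ → V d → V d → ℝ}
  {K : ℝ → V d → V d → V d → ℝ} {R : ℝ → V d → V d → ℝ} {T Lp m W e : ℝ}

private theorem M3_meas (hA : Apx F K R T Lp m W e) (hψ : Mo ψ η) :
    Measurable (fun q : (ℝ × V d × V d × V d) × (ℝ × V d × V d) =>
      ψ q.2 * K (q.1.1 - q.2.1) (q.1.2.1 - q.2.2.1) (q.1.2.2.1 - q.2.2.2) q.1.2.2.2) := by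
  refine (hψ.smooth.continuous.measurable.comp measurable_snd).mul ?_
  have h : Measurable (fun q : (ℝ × V d × V d × V d) × (ℝ × V d × V d) =>
      ((q.1.1 - q.2.1, q.1.2.1 - q.2.2.1, q.1.2.2.1 - q.2.2.2, q.1.2.2.2) :
        ℝ × V d × V d × V d)) := by
    fun_prop
  exact hA.Kmeas.comp h

private theorem M3_int (hA : Apx F K R T Lp m W e) (hψ : Mo ψ η) (t : ℝ) (x v : V d)
    (G : V d → ℝ) (hG : Measurable G) (B : ℝ) (hB : ∀ w, |G w| ≤ B) :
    Integrable (fun q : V d × (ℝ × V d × V d) =>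
      G q.1 * (ψ q.2 * K (t - q.2.1) (x - q.2.2.1) (v - q.2.2.2) q.1))
      (volume.prod volume) := by
  have hB0 : 0 ≤ B := (abs_nonneg _).trans (hB 0)
  have hmeas : Measurable (fun q : V d × (ℝ × V d × V d) =>
      G q.1 * (ψ q.2 * K (t - q.2.1) (x - q.2.2.1) (v - q.2.2.2) q.1)) := by
    refine (hG.comp measurable_fst).mul ?_
    have h : Measurable (fun q : V d × (ℝ × V d × V d) =>
        (((t, x, v, q.1), q.2) : (ℝ × V d × V d × V d) × (ℝ × V d × V d))) := by
      fun_prop
    exact (M3_meas hA hψ).comp h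
  have hK : ∀ (a : ℝ × V d × V d), Integrable (fun w : V d =>
      G w * (ψ a * K (t - a.1) (x - a.2.1) (v - a.2.2) w)) := by
    intro a
    refine Integrable.bdd_mul (c := B) ((hA.Kint _ _ _).const_mul _) hG.aestronglyMeasurable ?_
    exact Eventually.of_forall fun w => hB w
  rw [integrable_prod_iff' hmeas.aestronglyMeasurable]
  refine ⟨Eventually.of_forall fun a => hK a, ?_⟩
  have hm2 : AEStronglyMeasurable (fun a : ℝ × V d × V d => ∫ w : V d,
      ‖G w * (ψ a * K (t - a.1) (x - a.2.1) (v - a.2.2) w)‖) volume := by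
    have := hmeas.norm.stronglyMeasurable.integral_prod_left' (μ := (volume : Measure (V d)))
    exact this.aestronglyMeasurable
  refine (hψ.int.const_mul (B * m)).mono' hm2 (Eventually.of_forall fun a => ?_)
  rw [Real.norm_eq_abs, abs_of_nonneg (integral_nonneg fun w => norm_nonneg _)]
  have h1 : ∫ w : V d, ‖G w * (ψ a * K (t - a.1) (x - a.2.1) (v - a.2.2) w)‖ ≤
      ∫ w : V d, (B * ψ a) * K (t - a.1) (x - a.2.1) (v - a.2.2) w := by
    refine integral_mono (hK a).norm ((hA.Kint _ _ _).const_mul _) fun w => ?_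
    simp only [norm_mul, Real.norm_eq_abs]
    rw [abs_of_nonneg (hψ.nonneg a), abs_of_nonneg (hA.Knn _ _ _ _), ← mul_assoc]
    exact mul_le_mul_of_nonneg_right
      (mul_le_mul_of_nonneg_right (hB w) (hψ.nonneg a)) (hA.Knn _ _ _ _)
  refine h1.trans ?_
  rw [integral_const_mul]
  have h2 := mul_le_mul_of_nonneg_left (hA.Kmass (t - a.1) (x - a.2.1) (v - a.2.2))
    (mul_nonneg hB0 (hψ.nonneg a))
  calc _ ≤ B * ψ a * m := h2
    _ = B * m * ψ a := by ring

/-- the mollified kernel -/
theorem mol_K (hA : Apx F K R T Lp m W e) (hψ : Mo ψ η) :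
    Measurable (fun p : ℝ × V d × V d × V d =>
      mol ψ (fun t x v => K t x v p.2.2.2) p.1 p.2.1 p.2.2.1) ∧
    (∀ t x v w, 0 ≤ mol ψ (fun t x v => K t x v w) t x v) ∧
    (∀ t x v, Integrable fun w => mol ψ (fun t x v => K t x v w) t x v) ∧
    (∀ t x v, ∫ w, mol ψ (fun t x v => K t x v w) t x v ≤ m) ∧
    ∀ t x v w, W < ‖w‖ → mol ψ (fun t x v => K t x v w) t x v = 0 := by
  have hI : ∀ t x v, Integrable (fun q : V d × (ℝ × V d × V d) =>
      ψ q.2 * K (t - q.2.1) (x - q.2.2.1) (v - q.2.2.2) q.1) (volume.prod volume) := by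
    intro t x v
    have := M3_int hA hψ t x v (fun _ => 1) measurable_const 1 (fun _ => by simp)
    simpa using this
  refine ⟨?_, ?_, ?_, ?_, ?_⟩
  · exact (M3_meas hA hψ).stronglyMeasurable.integral_prod_right.measurable
  · intro t x v w
    exact integral_nonneg fun a => mul_nonneg (hψ.nonneg a) (hA.Knn _ _ _ _)
  · intro t x v
    exact (hI t x v).integral_prod_left
  · intro t x v
    have h1 : ∫ w, mol ψ (fun t x v => K t x v w) t x v =
        ∫ a, ∫ w, ψ a * K (t - a.1) (x - a.2.1) (v - a.2.2) w := by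
      exact integral_integral_swap (f := fun (w : V d) (a : ℝ × V d × V d) =>
        ψ a * K (t - a.1) (x - a.2.1) (v - a.2.2) w) (hI t x v)
    rw [h1]
    have h2 : ∫ a, ∫ w, ψ a * K (t - a.1) (x - a.2.1) (v - a.2.2) w ≤ ∫ a, ψ a * m := by
      refine integral_mono (hI t x v).integral_prod_right (hψ.int.mul_const _) fun a => ?_
      simp only
      rw [integral_const_mul]
      exact mul_le_mul_of_nonneg_left (hA.Kmass _ _ _) (hψ.nonneg a)
    refine h2.trans ?_
    rw [integral_mul_const, hψ.one, one_mul]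
  · intro t x v w hw
    unfold mol
    simp only [hA.Ksupp _ _ _ w hw, mul_zero, integral_zero]

/-- the equation for the mollification, up to the oscillation `om` of `F` at the scale `η` -/
theorem mol_eqn (hA : Apx F K R T Lp m W e) (hψ : Mo ψ η) (hη : 0 ≤ η) (hW : 0 ≤ W) (t : ℝ)
    (x v : V d) (ht : η ≤ t) (hT : t + η ≤ T) (om : ℝ)
    (hom : ∀ y : ℝ × V d × V d, ‖y‖ ≤ η → ∀ w : V d, ‖w‖ ≤ W →
      |F (t - y.1) (x - y.2.1) (v + w - y.2.2) - mol ψ F t x (v + w)| ≤ om) :
    |mol ψ R t x v - ∫ w, (mol ψ F t x (v + w) - mol ψ F t x v) *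
      mol ψ (fun t x v => K t x v w) t x v| ≤ e + 2 * m * om := by
  have hFm : Measurable (fun p : ℝ × V d × V d => F p.1 p.2.1 p.2.2) := hA.cont.measurable
  have hFb : ∀ t x v, |F t x v| ≤ 1 := fun t x v => by
    rw [abs_of_nonneg (hA.mem t x v).1]; exact (hA.mem t x v).2
  have hMc : Continuous (fun p : ℝ × V d × V d => mol ψ F p.1 p.2.1 p.2.2) :=
    (mol_contDiff hψ hFm 1 hFb).continuous
  have hMr : ∀ t x v, 0 ≤ mol ψ F t x v ∧ mol ψ F t x v ≤ 1 := fun t x v =>
    mol_range hψ hFm 1 hFb t x v 0 1 fun y _ => hA.mem _ _ _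
  set G : V d → ℝ := fun w => mol ψ F t x (v + w) - mol ψ F t x v with hGdef
  have hGm : Measurable G := by
    have h1 : Continuous (fun w : V d => mol ψ F t x (v + w)) :=
      hMc.comp (f := fun w : V d => ((t, x, v + w) : ℝ × V d × V d)) (by fun_prop)
    exact (h1.sub continuous_const).measurable
  have hGb : ∀ w, |G w| ≤ 1 := fun w => by
    rw [abs_le]
    constructor <;> simp only [hGdef] <;> linarith [(hMr t x (v + w)).1, (hMr t x (v + w)).2,
      (hMr t x v).1, (hMr t x v).2]
  have hI := M3_int hA hψ t x v G hGm 1 hGb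
  have hm0 : 0 ≤ m := (abs_nonneg _).trans (hA.Rb 0 0 0)
  -- Fubini
  have h1 : ∫ w, G w * mol ψ (fun t x v => K t x v w) t x v =
      ∫ a, ∫ w, G w * (ψ a * K (t - a.1) (x - a.2.1) (v - a.2.2) w) := by
    rw [← integral_integral_swap (f := fun (w : V d) (a : ℝ × V d × V d) =>
        G w * (ψ a * K (t - a.1) (x - a.2.1) (v - a.2.2) w)) hI]
    refine integral_congr_ae (Eventually.of_forall fun w => ?_)
    simp only [mol]
    rw [integral_const_mul]
  have h2 : (∫ a, ∫ w, G w * (ψ a * K (t - a.1) (x - a.2.1) (v - a.2.2) w)) =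
      ∫ a, ψ a * ∫ w, G w * K (t - a.1) (x - a.2.1) (v - a.2.2) w := by
    refine integral_congr_ae (Eventually.of_forall fun a => ?_)
    simp only
    rw [← integral_const_mul]
    refine integral_congr_ae (Eventually.of_forall fun w => ?_)
    simp only
    ring
  have hRint : Integrable (fun a : ℝ × V d × V d => ψ a * R (t - a.1) (x - a.2.1) (v - a.2.2)) := by
    refine Integrable.mul_bdd (c := m) hψ.int ?_ ?_
    · have h : Measurable (fun a : ℝ × V d × V d =>
          ((t - a.1, x - a.2.1, v - a.2.2) : ℝ × V d × V d)) := by fun_prop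
      exact (hA.Rmeas.comp h).aestronglyMeasurable
    · exact Eventually.of_forall fun a => hA.Rb _ _ _
  have hKint : Integrable (fun a : ℝ × V d × V d =>
      ψ a * ∫ w, G w * K (t - a.1) (x - a.2.1) (v - a.2.2) w) := by
    have := hI.integral_prod_right
    refine this.congr (Eventually.of_forall fun a => ?_)
    simp only
    rw [← integral_const_mul]
    refine integral_congr_ae (Eventually.of_forall fun w => ?_)
    simp only
    ring
  rw [h1, h2]
  unfold mol
  rw [← integral_sub hRint hKint, ← Real.norm_eq_abs]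
  have hbd : ∀ a : ℝ × V d × V d, ‖ψ a * R (t - a.1) (x - a.2.1) (v - a.2.2) -
      ψ a * ∫ w, G w * K (t - a.1) (x - a.2.1) (v - a.2.2) w‖ ≤ ψ a * (e + 2 * m * om) := by
    intro a
    rw [← mul_sub, norm_mul, Real.norm_eq_abs, Real.norm_eq_abs, abs_of_nonneg (hψ.nonneg a)]
    by_cases ha : η < ‖a‖
    · rw [hψ.supp a ha]; simp
    push Not at ha
    refine mul_le_mul_of_nonneg_left ?_ (hψ.nonneg a)
    have ha1 : |a.1| ≤ η := by
      have : ‖a.1‖ ≤ ‖a‖ := norm_fst_le a
      exact this.trans ha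
    have ht0 : 0 ≤ t - a.1 := by linarith [(abs_le.1 ha1).2]
    have htT : t - a.1 ≤ T := by linarith [(abs_le.1 ha1).1]
    have he := hA.eqn (t - a.1) (x - a.2.1) (v - a.2.2) ht0 htT
    have hFi : Integrable (fun w : V d =>
        (F (t - a.1) (x - a.2.1) (v - a.2.2 + w) - F (t - a.1) (x - a.2.1) (v - a.2.2)) *
          K (t - a.1) (x - a.2.1) (v - a.2.2) w) := by
      refine Integrable.bdd_mul (c := 1) (hA.Kint _ _ _) ?_ ?_
      · have h : Continuous (fun w : V d =>
            F (t - a.1) (x - a.2.1) (v - a.2.2 + w)) :=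
          hA.cont.comp (f := fun w : V d =>
            ((t - a.1, x - a.2.1, v - a.2.2 + w) : ℝ × V d × V d)) (by fun_prop)
        exact (h.sub continuous_const).aestronglyMeasurable
      · refine Eventually.of_forall fun w => ?_
        rw [Real.norm_eq_abs, abs_le]
        constructor <;> linarith [(hA.mem (t - a.1) (x - a.2.1) (v - a.2.2 + w)).1,
          (hA.mem (t - a.1) (x - a.2.1) (v - a.2.2 + w)).2,
          (hA.mem (t - a.1) (x - a.2.1) (v - a.2.2)).1,
          (hA.mem (t - a.1) (x - a.2.1) (v - a.2.2)).2]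
    have hGi : Integrable (fun w : V d => G w * K (t - a.1) (x - a.2.1) (v - a.2.2) w) := by
      refine Integrable.bdd_mul (c := 1) (hA.Kint _ _ _) hGm.aestronglyMeasurable ?_
      exact Eventually.of_forall fun w => hGb w
    have hd : |(∫ w, (F (t - a.1) (x - a.2.1) (v - a.2.2 + w) -
        F (t - a.1) (x - a.2.1) (v - a.2.2)) * K (t - a.1) (x - a.2.1) (v - a.2.2) w) -
        ∫ w, G w * K (t - a.1) (x - a.2.1) (v - a.2.2) w| ≤ 2 * m * om := by
      rw [← integral_sub hFi hGi, ← Real.norm_eq_abs]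
      have hom0 : 0 ≤ om := by
        have := hom 0 (by simpa using hη) 0 (by simpa using hW)
        exact (abs_nonneg _).trans this
      have h3 : ‖∫ w, ((F (t - a.1) (x - a.2.1) (v - a.2.2 + w) -
          F (t - a.1) (x - a.2.1) (v - a.2.2)) * K (t - a.1) (x - a.2.1) (v - a.2.2) w -
          G w * K (t - a.1) (x - a.2.1) (v - a.2.2) w)‖ ≤
          ∫ w, (2 * om) * K (t - a.1) (x - a.2.1) (v - a.2.2) w := by
        refine norm_integral_le_of_norm_le ((hA.Kint _ _ _).const_mul _)
          (Eventually.of_forall fun w => ?_)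
        rw [← sub_mul, norm_mul, Real.norm_eq_abs, Real.norm_eq_abs,
          abs_of_nonneg (hA.Knn _ _ _ _)]
        by_cases hw : W < ‖w‖
        · rw [hA.Ksupp _ _ _ w hw]; simp
        push Not at hw
        refine mul_le_mul_of_nonneg_right ?_ (hA.Knn _ _ _ _)
        have e1 := hom a ha w hw
        have e2 := hom a ha 0 (by simpa using hW)
        rw [add_zero] at e2
        have e3 : v - a.2.2 + w = v + w - a.2.2 := by abel
        rw [e3]
        simp only [hGdef]
        rw [abs_le] at e1 e2 ⊢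
        constructor <;> linarith [e1.1, e1.2, e2.1, e2.2]
      refine h3.trans ?_
      rw [integral_const_mul]
      have := mul_le_mul_of_nonneg_left (hA.Kmass (t - a.1) (x - a.2.1) (v - a.2.2))
        (by linarith : 0 ≤ 2 * om)
      linarith
    rw [abs_le] at he hd ⊢
    constructor <;> linarith [he.1, he.2, hd.1, hd.2]
  refine (norm_integral_le_of_norm_le (hψ.int.mul_const _) (Eventually.of_forall hbd)).trans ?_
  rw [integral_mul_const, hψ.one, one_mul]

end KDB
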