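import Pool.Agent.Helper34.KDB.St.V1
import Pool.Agent.Helper34.KDB.St.B5
import Pool.Agent.Helper34.KDB.St.M3
import Pool.Agent.Helper34.KDB.St.E3

/-! KDP-F2: ellipticity of the full kernel. -/

set_option autoImplicit false

namespace KDB

open MeasureTheory Set Filter Topology
open scoped ENNReal NNReal ContDiff

/-- the full kernel: mollified chain kernel plus the kicks which the chain does not have -/
noncomputable def Kf (p : Par) (K : ℝ → V p.d → V p.d → V p.d → ℝ)
    (ψ : ℝ × V p.d × V p.d → ℝ) (t : ℝ) (x v w : V p.d) : ℝ :=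
  open Classical in
  mol ψ (fun t x v => K t x v w) t x v +
    if p.eps ≤ ‖w‖ ∧ ‖w‖ < p.rho p.n then 0 else p.lam * (e2 w) ^ (-((p.d : ℝ) + 2 * p.s))

open Classical in
/-- the kicks which the chain does not have -/
noncomputable def F2_out (p : Par) (w : V p.d) : ℝ :=
  if p.eps ≤ ‖w‖ ∧ ‖w‖ < p.rho p.n then 0 else p.lam * (e2 w) ^ (-((p.d : ℝ) + 2 * p.s))

theorem F2_Kf (p : Par) (K : ℝ → V p.d → V p.d → V p.d → ℝ)
    (ψ : ℝ × V p.d × V p.d → ℝ) (t : ℝ) (x v w : V p.d) :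
    Kf p K ψ t x v w = mol ψ (fun t x v => K t x v w) t x v + F2_out p w := rfl

theorem F2_out_meas (p : Par) : Measurable (F2_out p) := by
  classical
  refine Measurable.ite ?_ measurable_const ?_
  · exact (measurableSet_le measurable_const measurable_norm).inter
      (measurableSet_lt measurable_norm measurable_const)
  · exact (e2_measurable.pow_const _).const_mul _

/-- bound for the kernel of the rings which holds for all `w` -/
theorem F2_ra_le (p : Par) (hp : p.Ok) (j : ℕ) (z : p.St) (w : V p.d) :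
    p.ra j z w ≤ ∑ k ∈ Finset.range p.n, p.mu / p.W k * ((2 * p.rad k) ^ p.d)⁻¹ := by
  rw [Par.ra]
  refine Finset.sum_le_sum fun k _ => ?_
  have h1 := (rk_prop p hp k j).2.1 z w
  have h2 := (rk_prop p hp k j).2.2.1 z w
  have h3 := pring_le p hp k j
  have h4 := pring_nonneg p hp k j
  exact mul_le_mul h3 h2 h1 (h4.trans h3)

/-- the chain kernel between `kd w` and `kd w + b` -/
theorem F2_KK (p : Par) (hp : p.Ok) (h0 : 0 < p.h) (N : ℕ) (G : ℕ → Finset p.St) (t : ℝ)
    (x v w : V p.d) {b : ℝ} (hb0 : 0 ≤ b) (hb : ∀ j z, p.ra j z w ≤ p.h * b) :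
    p.kd w ≤ KK p.h (p.ker N G) t x v w ∧ KK p.h (p.ker N G) t x v w ≤ p.kd w + b := by
  rw [KK, Par.ker]
  have hhb : 0 ≤ p.h * b := mul_nonneg h0.le hb0
  split_ifs with hi
  · have hr := (ra_prop p hp (N - 1 - ix p.h t)).2.1 (zt p.h t x v) w
    have hr2 := hb (N - 1 - ix p.h t) (zt p.h t x v)
    have b0 := bump_nonneg (G (N - ix p.h t)) (zt p.h t x v)
    have b1 := bump_le_one (G (N - ix p.h t)) (zt p.h t x v)
    have h1 := mul_nonneg b0 hr
    have h2 := mul_le_of_le_one_left hr b1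
    constructor
    · rw [le_div_iff₀ h0]
      linarith
    · rw [div_le_iff₀ h0]
      linarith
  · constructor
    · rw [le_div_iff₀ h0]
      linarith
    · rw [div_le_iff₀ h0]
      linarith

theorem F2_LamR (p : Par) (hp : p.Ok) : 0 ≤ p.LamR := by
  have := hp.hmu
  rw [Par.LamR]
  positivity

/-- F2: ellipticity of the full kernel -/
theorem Kf_bounds (p : Par) (hp : p.Ok) (hh : p.h * (p.kap + p.mr) ≤ 1 / 2) (N : ℕ)
    (G : ℕ → Finset p.St) (ψ : ℝ × V p.d × V p.d → ℝ) (η : ℝ) (hψ : Mo ψ η) :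
    Measurable (fun a : ℝ × V p.d × V p.d × V p.d =>
      Kf p (KK p.h (p.ker N G)) ψ a.1 a.2.1 a.2.2.1 a.2.2.2) ∧
    (∀ t x v w, Kf p (KK p.h (p.ker N G)) ψ t x v (-w) = Kf p (KK p.h (p.ker N G)) ψ t x v w) ∧
    (∀ t x v w, w ≠ 0 →
      p.lam ≤ e2 w ^ ((p.d : ℝ) + 2 * p.s) * Kf p (KK p.h (p.ker N G)) ψ t x v w ∧
      e2 w ^ ((p.d : ℝ) + 2 * p.s) * Kf p (KK p.h (p.ker N G)) ψ t x v w ≤
        p.lam + p.LamR) ∧
    ∀ w, ContDiff ℝ ∞ (fun a : ℝ × V p.d × V p.d =>
      Kf p (KK p.h (p.ker N G)) ψ a.1 a.2.1 a.2.2 w) := by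
  have H := rec_ok p hp hh N G
  have hA := apx_FF H 0 le_rfl
  have hmK := mol_K hA hψ
  have hFm : ∀ w : V p.d, Measurable (fun a : ℝ × V p.d × V p.d =>
      KK p.h (p.ker N G) a.1 a.2.1 a.2.2 w) := by
    intro w
    have h1 : Measurable (fun a : ℝ × V p.d × V p.d => (a.1, a.2.1, a.2.2, w)) := by fun_prop
    have h2 := (KK_meas H).comp h1
    exact h2
  have hkd := kd_prop p hp
  refine ⟨?_, ?_, ?_, ?_⟩
  · simp only [F2_Kf]
    have h2 : Measurable (fun a : ℝ × V p.d × V p.d × V p.d => a.2.2.2) := by fun_prop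
    have h3 : Measurable (fun a : ℝ × V p.d × V p.d × V p.d => F2_out p a.2.2.2) :=
      (F2_out_meas p).comp h2
    have h4 : Measurable (fun a : ℝ × V p.d × V p.d × V p.d =>
      mol ψ (fun t x v => KK p.h (p.ker N G) t x v a.2.2.2) a.1 a.2.1 a.2.2.1) := hmK.1
    exact h4.add h3
  · intro t x v w
    have h1 : ∀ t x v, KK p.h (p.ker N G) t x v (-w) = KK p.h (p.ker N G) t x v w := by
      intro t x v
      rw [KK, KK, (H.hk _).even]
    simp only [Kf, h1, norm_neg, e2_neg]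
  · intro t x v w hw
    have hE : 0 < e2 w ^ ((p.d : ℝ) + 2 * p.s) := Real.rpow_pos_of_pos (e2_pos w hw) _
    set E := e2 w ^ ((p.d : ℝ) + 2 * p.s) with hEdef
    have hneg : e2 w ^ (-((p.d : ℝ) + 2 * p.s)) = E⁻¹ := by
      rw [Real.rpow_neg (e2_pos w hw).le]
    have hb0 : 0 ≤ p.LamR / E := div_nonneg (F2_LamR p hp) hE.le
    have hb : ∀ j z, p.ra j z w ≤ p.h * (p.LamR / E) := by
      intro j z
      have h1 := ra_le p hp j z w hw
      rw [← mul_div_assoc, le_div_iff₀ hE]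
      linarith
    have hK := fun t x v => F2_KK p hp H.h0 N G t x v w hb0 hb
    have hB : ∀ t x v, |KK p.h (p.ker N G) t x v w| ≤ p.kd w + p.LamR / E := by
      intro t x v
      rw [abs_of_nonneg ((hkd.2.1 w).trans (hK t x v).1)]
      exact (hK t x v).2
    have hmol := mol_range hψ (F := fun t x v => KK p.h (p.ker N G) t x v w) (hFm w) _ hB t x v
      (p.kd w) (p.kd w + p.LamR / E) (fun y _ => hK _ _ _)
    have key : p.lam * E⁻¹ ≤ Kf p (KK p.h (p.ker N G)) ψ t x v w ∧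
        Kf p (KK p.h (p.ker N G)) ψ t x v w ≤ p.lam * E⁻¹ + p.LamR / E := by
      rw [Kf, hneg]
      rw [Par.kd, hneg] at hmol
      split_ifs at hmol ⊢ with hc
      · constructor <;> linarith [hmol.1, hmol.2]
      · constructor <;> linarith [hmol.1, hmol.2]
    obtain ⟨k1, k2⟩ := key
    have k3 := mul_le_mul_of_nonneg_left k1 hE.le
    have k4 := mul_le_mul_of_nonneg_left k2 hE.le
    have e1 : E * (p.lam * E⁻¹) = p.lam := by field_simp
    have e2' : E * (p.lam * E⁻¹ + p.LamR / E) = p.lam + p.LamR := by field_simp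
    rw [e1] at k3
    rw [e2'] at k4
    exact ⟨k3, k4⟩
  · intro w
    have h0 := H.h0
    set S := ∑ k ∈ Finset.range p.n, p.mu / p.W k * ((2 * p.rad k) ^ p.d)⁻¹ with hS
    have hS0 : 0 ≤ S := ((ra_prop p hp 0).2.1 0 w).trans (F2_ra_le p hp 0 0 w)
    have hb0 : 0 ≤ S / p.h := div_nonneg hS0 h0.le
    have hb : ∀ j z, p.ra j z w ≤ p.h * (S / p.h) := by
      intro j z
      rw [mul_div_cancel₀ _ h0.ne']
      exact F2_ra_le p hp j z w
    have hK := fun t x v => F2_KK p hp H.h0 N G t x v w hb0 hb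
    have hB : ∀ t x v, |KK p.h (p.ker N G) t x v w| ≤ p.kd w + S / p.h := by
      intro t x v
      rw [abs_of_nonneg ((hkd.2.1 w).trans (hK t x v).1)]
      exact (hK t x v).2
    exact (mol_contDiff hψ (F := fun t x v => KK p.h (p.ker N G) t x v w) (hFm w) _ hB).add
      contDiff_const

end KDB
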