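import Pool.Agent.Helper34.KDB.St.M2
import Pool.Agent.Helper34.KDB.St.M3

/-! KDP-M4: the mollification theorem. -/

set_option autoImplicit false

namespace KDB

open MeasureTheory Set Filter Topology
open scoped ENNReal NNReal ContDiff

variable {d : ℕ} {ψ : ℝ × V d × V d → ℝ} {η : ℝ} {F : ℝ → V d → V d → ℝ}
  {K : ℝ → V d → V d → V d → ℝ} {R : ℝ → V d → V d → ℝ} {T Lp m W e : ℝ}

/-- MOLLIFICATION THEOREM -/
theorem mollify (hA : Apx F K R T Lp m W e) (hLp : 0 ≤ Lp) (hW : 0 ≤ W) (t0 t1 B e2 : ℝ)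
    (h0 : 0 < t0) (h01 : t0 ≤ t1) (h1 : t1 < T) (he2 : 0 < e2) :
    ∃ (η : ℝ) (ψ : ℝ × V d × V d → ℝ), 0 < η ∧ Mo ψ η ∧
      (∀ t x v, t0 ≤ t → t ≤ t1 → ‖x‖ ≤ B → ‖v‖ ≤ B →
        |mol ψ F t x v - F t x v| ≤ e2 ∧
        |fderiv ℝ (fun p : ℝ × V d × V d => mol ψ F p.1 p.2.1 p.2.2) (t, x, v) (1, -v, 0) -
          ∫ w, (mol ψ F t x (v + w) - mol ψ F t x v) *
            mol ψ (fun t x v => K t x v w) t x v| ≤ e + e2) ∧
      ∀ t x v v', t0 ≤ t → t ≤ t1 →
        |mol ψ F t x v - mol ψ F t x v'| ≤ Lp * ‖v - v'‖ := by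
  have hm : 0 ≤ m := (abs_nonneg _).trans (hA.Rb 0 0 0)
  obtain ⟨om, hom⟩ : ∃ om : ℝ, om = e2 / (6 * (m + 1)) := ⟨_, rfl⟩
  have hompos : 0 < om := by rw [hom]; positivity
  have hom1 : om ≤ e2 := by
    rw [hom, div_le_iff₀ (by positivity)]
    nlinarith
  have hom2 : 2 * m * (2 * om) ≤ 2 / 3 * e2 := by
    have h1 : om * (6 * (m + 1)) = e2 := by
      rw [hom]
      field_simp
    nlinarith
  obtain ⟨ρ, hρ⟩ : ∃ ρ : ℝ, ρ = |t0| + |t1| + |B| + W + 10 := ⟨_, rfl⟩
  have hcomp : IsCompact (Metric.closedBall (0 : ℝ × V d × V d) ρ) := isCompact_closedBall _ _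
  have huc := hcomp.uniformContinuousOn_of_continuous hA.cont.continuousOn
  rw [Metric.uniformContinuousOn_iff] at huc
  obtain ⟨η0, hη0, huc⟩ := huc om hompos
  obtain ⟨η, hηdef⟩ : ∃ η : ℝ, η = min (min (η0 / 2) 1)
    (min (min t0 ((T - t1) / 2)) (e2 / (3 * (Lp + 1)))) := ⟨_, rfl⟩
  have hη : 0 < η := by
    rw [hηdef]
    refine lt_min (lt_min (by positivity) one_pos) (lt_min (lt_min h0 (by linarith)) (by positivity))
  have hη1 : η < η0 := by
    have : η ≤ η0 / 2 := by rw [hηdef]; exact (min_le_left _ _).trans (min_le_left _ _)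
    linarith
  have hη2 : η ≤ 1 := by rw [hηdef]; exact (min_le_left _ _).trans (min_le_right _ _)
  have hη3 : η ≤ t0 := by
    rw [hηdef]; exact (min_le_right _ _).trans ((min_le_left _ _).trans (min_le_left _ _))
  have hη4 : t1 + η < T := by
    have : η ≤ (T - t1) / 2 := by
      rw [hηdef]; exact (min_le_right _ _).trans ((min_le_left _ _).trans (min_le_right _ _))
    linarith
  have hη5 : Lp * η ≤ e2 / 3 := by
    have h1 : η ≤ e2 / (3 * (Lp + 1)) := by
      rw [hηdef]; exact (min_le_right _ _).trans (min_le_right _ _)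
    have h2 : η * (3 * (Lp + 1)) ≤ e2 := (le_div_iff₀ (by positivity)).1 h1
    nlinarith
  obtain ⟨ψ, hψ⟩ := exists_Mo d hη
  have hmeas : Measurable (fun p : ℝ × V d × V d => F p.1 p.2.1 p.2.2) := hA.cont.measurable
  have hb : ∀ t x v, |F t x v| ≤ 1 := fun t x v => by
    rw [abs_of_nonneg (hA.mem t x v).1]
    exact (hA.mem t x v).2
  -- oscillation
  have hosc : ∀ t x v, t0 ≤ t → t ≤ t1 → ‖x‖ ≤ B → ‖v‖ ≤ B + W → ∀ y : ℝ × V d × V d, ‖y‖ ≤ η →
      |F (t - y.1) (x - y.2.1) (v - y.2.2) - F t x v| ≤ om := by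
    intro t x v ht ht' hx hv y hy
    have hy1 : ‖y.1‖ ≤ 1 := (norm_fst_le y).trans (hy.trans hη2)
    have hy2 : ‖y.2.1‖ ≤ 1 := (norm_fst_le y.2).trans ((norm_snd_le y).trans (hy.trans hη2))
    have hy3 : ‖y.2.2‖ ≤ 1 := (norm_snd_le y.2).trans ((norm_snd_le y).trans (hy.trans hη2))
    have ht1 : |t| ≤ |t0| + |t1| := by
      rw [abs_le]
      have := neg_abs_le t0
      have := le_abs_self t1
      have := abs_nonneg t0
      have := abs_nonneg t1
      constructor <;> linarith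
    have hBa := le_abs_self B
    have hBn := abs_nonneg B
    have h0n := abs_nonneg t0
    have h1n := abs_nonneg t1
    have hmem1 : ((t - y.1, x - y.2.1, v - y.2.2) : ℝ × V d × V d) ∈
        Metric.closedBall (0 : ℝ × V d × V d) ρ := by
      rw [mem_closedBall_zero_iff, Prod.norm_def, Prod.norm_def]
      refine max_le ?_ (max_le ?_ ?_)
      · refine (norm_sub_le _ _).trans ?_
        rw [Real.norm_eq_abs t]
        show |t| + ‖y.1‖ ≤ ρ
        linarith
      · refine (norm_sub_le _ _).trans ?_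
        show ‖x‖ + ‖y.2.1‖ ≤ ρ
        linarith
      · refine (norm_sub_le _ _).trans ?_
        show ‖v‖ + ‖y.2.2‖ ≤ ρ
        linarith
    have hmem2 : ((t, x, v) : ℝ × V d × V d) ∈ Metric.closedBall (0 : ℝ × V d × V d) ρ := by
      rw [mem_closedBall_zero_iff, Prod.norm_def, Prod.norm_def]
      refine max_le ?_ (max_le ?_ ?_)
      · show |t| ≤ ρ
        linarith
      · show ‖x‖ ≤ ρ
        linarith
      · show ‖v‖ ≤ ρ
        linarith
    have hdist : dist ((t - y.1, x - y.2.1, v - y.2.2) : ℝ × V d × V d) (t, x, v) < η0 := by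
      rw [dist_eq_norm]
      have : ((t - y.1, x - y.2.1, v - y.2.2) : ℝ × V d × V d) - (t, x, v) = -y := by
        ext1
        · show t - y.1 - t = -y.1
          ring
        · ext1
          · show x - y.2.1 - x = -y.2.1
            abel
          · show v - y.2.2 - v = -y.2.2
            abel
      rw [this, norm_neg]
      exact hy.trans_lt hη1
    have := huc _ hmem1 _ hmem2 hdist
    rw [Real.dist_eq] at this
    exact this.le
  have hclose : ∀ t x v, t0 ≤ t → t ≤ t1 → ‖x‖ ≤ B → ‖v‖ ≤ B + W →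
      |mol ψ F t x v - F t x v| ≤ om := by
    intro t x v ht ht' hx hv
    have h1 := mol_range hψ hmeas 1 hb t x v (F t x v - om) (F t x v + om) (fun y hy => by
      have := abs_le.1 (hosc t x v ht ht' hx hv y hy)
      constructor <;> linarith [this.1, this.2])
    rw [abs_le]
    constructor <;> linarith [h1.1, h1.2]
  refine ⟨η, ψ, hη, hψ, ?_, ?_⟩
  · intro t x v ht ht' hx hv
    have hvW : ‖v‖ ≤ B + W := by linarith
    refine ⟨(hclose t x v ht ht' hx hvW).trans hom1, ?_⟩
    have h1 := mol_char hA hLp hψ hη.le t x v (by linarith) (by linarith)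
    have h2 := mol_eqn hA hψ hη.le hW t x v (by linarith) (by linarith) (2 * om) (by
      intro y hy w hw
      have hvw : ‖v + w‖ ≤ B + W := (norm_add_le _ _).trans (by linarith)
      have h3 := hosc t x (v + w) ht ht' hx hvw y hy
      have h4 := hclose t x (v + w) ht ht' hx hvw
      have h5 : F (t - y.1) (x - y.2.1) (v + w - y.2.2) - mol ψ F t x (v + w) =
          (F (t - y.1) (x - y.2.1) (v + w - y.2.2) - F t x (v + w)) -
            (mol ψ F t x (v + w) - F t x (v + w)) := by ring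
      rw [h5]
      refine (abs_sub _ _).trans ?_
      linarith)
    have h6 := abs_add_le
      (fderiv ℝ (fun p : ℝ × V d × V d => mol ψ F p.1 p.2.1 p.2.2) (t, x, v) (1, -v, 0) -
        mol ψ R t x v)
      (mol ψ R t x v - ∫ w, (mol ψ F t x (v + w) - mol ψ F t x v) *
        mol ψ (fun t x v => K t x v w) t x v)
    rw [sub_add_sub_cancel] at h6
    linarith
  · intro t x v v' ht ht'
    refine mol_close hψ hmeas 1 hb t x v t x v' (Lp * ‖v - v'‖) fun y hy => ?_
    have hy1 : |y.1| ≤ η := (norm_fst_le y).trans hy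
    have hy1' := abs_le.1 hy1
    have h1 := hA.lip (t - y.1) (x - y.2.1) (v - y.2.2) (x - y.2.1) (v' - y.2.2)
      (by linarith [hy1'.2]) (by linarith [hy1'.1])
    rw [sub_self, norm_zero, sub_sub_sub_cancel_right, max_eq_right (norm_nonneg _)] at h1
    exact h1

end KDB
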