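import Pool.Agent.Helper34.KDB.St.F1
import Pool.Agent.Helper34.KDB.St.F2
import Pool.Agent.Helper34.KDB.St.E3
import Pool.Agent.Helper34.KDB.St.M4

/-! KDP-F3: the unscaled solution. -/

set_option autoImplicit false

namespace KDB

open MeasureTheory Set Filter Topology
open scoped ENNReal NNReal ContDiff

/-- the integral against the kicks which the chain does not have -/
theorem F3_tails {d : ℕ} (hd : 1 ≤ d) {s : ℝ} (hs : 0 < s) (hs1 : 2 * s < 1) {eps r lam Lp : ℝ}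
    (heps : 0 < eps) (her : eps ≤ r) (hlam : 0 ≤ lam) (hLp : 0 ≤ Lp) (g : V d → ℝ)
    (hg : Continuous g) (hg1 : ∀ w, |g w| ≤ 1) (hg2 : ∀ w, |g w| ≤ Lp * ‖w‖) :
    Integrable (fun w => g w * (open Classical in
      if eps ≤ ‖w‖ ∧ ‖w‖ < r then 0 else lam * e2 w ^ (-((d : ℝ) + 2 * s)))) ∧
    |∫ w, g w * (open Classical in
      if eps ≤ ‖w‖ ∧ ‖w‖ < r then 0 else lam * e2 w ^ (-((d : ℝ) + 2 * s)))| ≤
      Lp * lam * (2 ^ d * d * eps ^ (1 - 2 * s) / (1 - 2 * s)) +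
        lam * (2 ^ d * d * r ^ (-(2 * s)) / (2 * s)) := by
  classical
  have hr : 0 < r := lt_of_lt_of_le heps her
  obtain ⟨hn1, hn2⟩ := near_int hd hs hs1 heps
  obtain ⟨hf1, hf2⟩ := far_int hd hs hr
  have hmn : MeasurableSet {w : V d | ‖w‖ < eps} := measurableSet_lt measurable_norm measurable_const
  have hmf : MeasurableSet {w : V d | r ≤ ‖w‖} := measurableSet_le measurable_const measurable_norm
  set P : V d → ℝ := fun w => e2 w ^ (-((d : ℝ) + 2 * s)) with hP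
  have hP0 : ∀ w, 0 ≤ P w := fun w => Real.rpow_nonneg (Real.sqrt_nonneg _) _
  have hPm : Measurable P := e2_measurable.pow_const _
  -- decomposition
  have hdec : ∀ w, g w * (if eps ≤ ‖w‖ ∧ ‖w‖ < r then 0 else lam * e2 w ^ (-((d : ℝ) + 2 * s))) =
      ({w : V d | ‖w‖ < eps}.indicator (fun w => g w * (lam * P w)) w) +
      ({w : V d | r ≤ ‖w‖}.indicator (fun w => g w * (lam * P w)) w) := by
    intro w
    simp only [Set.indicator, Set.mem_ofPred_eq, hP]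
    by_cases h1 : ‖w‖ < eps
    · have h2 : ¬ r ≤ ‖w‖ := by linarith
      have h3 : ¬ (eps ≤ ‖w‖ ∧ ‖w‖ < r) := fun h => by linarith [h.1]
      simp [h1, h2, h3]
    · by_cases h2 : r ≤ ‖w‖
      · have h3 : ¬ (eps ≤ ‖w‖ ∧ ‖w‖ < r) := fun h => by linarith [h.2]
        simp [h1, h2, h3]
      · have h3 : (eps ≤ ‖w‖ ∧ ‖w‖ < r) := ⟨not_lt.mp h1, not_le.mp h2⟩
        simp [h1, h2, h3]
  have hb1 : ∀ w, ‖g w * (lam * P w)‖ ≤ Lp * lam * (‖w‖ * P w) := by
    intro w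
    rw [norm_mul, Real.norm_eq_abs, Real.norm_eq_abs, abs_of_nonneg (mul_nonneg hlam (hP0 w))]
    have := hg2 w
    have h0 := mul_nonneg hlam (hP0 w)
    calc |g w| * (lam * P w) ≤ (Lp * ‖w‖) * (lam * P w) := by gcongr
      _ = _ := by ring
  have hb2 : ∀ w, ‖g w * (lam * P w)‖ ≤ lam * P w := by
    intro w
    rw [norm_mul, Real.norm_eq_abs, Real.norm_eq_abs, abs_of_nonneg (mul_nonneg hlam (hP0 w))]
    have h0 := mul_nonneg hlam (hP0 w)
    calc |g w| * (lam * P w) ≤ 1 * (lam * P w) := by gcongr; exact hg1 w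
      _ = _ := by ring
  have hgm : AEStronglyMeasurable (fun w => g w * (lam * P w)) (volume : Measure (V d)) :=
    (hg.measurable.mul (hPm.const_mul lam)).aestronglyMeasurable
  have hi1 : IntegrableOn (fun w => g w * (lam * P w)) {w : V d | ‖w‖ < eps} :=
    Integrable.mono' (hn1.const_mul (Lp * lam)) hgm.restrict
      (Eventually.of_forall hb1)
  have hi2 : IntegrableOn (fun w => g w * (lam * P w)) {w : V d | r ≤ ‖w‖} :=
    Integrable.mono' (hf1.const_mul lam) hgm.restrict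
      (Eventually.of_forall hb2)
  have hI1 := hi1.integrable_indicator hmn
  have hI2 := hi2.integrable_indicator hmf
  constructor
  · exact (hI1.add hI2).congr (Eventually.of_forall fun w => (hdec w).symm)
  · rw [integral_congr_ae (Eventually.of_forall hdec), integral_add hI1 hI2,
      integral_indicator hmn, integral_indicator hmf]
    refine (abs_add_le _ _).trans (add_le_add ?_ ?_)
    · rw [← Real.norm_eq_abs]
      calc ‖∫ w in {w : V d | ‖w‖ < eps}, g w * (lam * P w)‖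
          ≤ ∫ w in {w : V d | ‖w‖ < eps}, Lp * lam * (‖w‖ * P w) :=
            norm_integral_le_of_norm_le (hn1.const_mul (Lp * lam)) (Eventually.of_forall hb1)
        _ = Lp * lam * ∫ w in {w : V d | ‖w‖ < eps}, ‖w‖ * P w := integral_const_mul _ _
        _ ≤ _ := by
            have := mul_nonneg hLp hlam
            gcongr
    · rw [← Real.norm_eq_abs]
      calc ‖∫ w in {w : V d | r ≤ ‖w‖}, g w * (lam * P w)‖
          ≤ ∫ w in {w : V d | r ≤ ‖w‖}, lam * P w :=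
            norm_integral_le_of_norm_le (hf1.const_mul lam) (Eventually.of_forall hb2)
        _ = lam * ∫ w in {w : V d | r ≤ ‖w‖}, P w := integral_const_mul _ _
        _ ≤ _ := by gcongr


theorem F3_ell (p : Par) (hp : p.Ok) : (p.rho p.n) ^ (-(2 * p.s)) = ((p.L : ℝ) ^ p.n)⁻¹ := by
  have hq : (p.q : ℝ) ≠ 0 := by have := hp.hq; positivity
  have hL : (0 : ℝ) < p.L := by have := hp.hL; exact_mod_cast (by omega : 0 < p.L)
  unfold Par.rho Par.ell Par.s
  push_cast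
  rw [← pow_mul, ← Real.rpow_natCast, ← Real.rpow_mul hL.le]
  have : ((p.q * p.n : ℕ) : ℝ) * -(2 * (1 / (2 * (p.q : ℝ)))) = -(p.n : ℝ) := by
    push_cast; field_simp
  rw [this, Real.rpow_neg hL.le, Real.rpow_natCast]

theorem F3_core (p : Par) (hp : p.Ok) (hq2 : 2 ≤ p.q) (hh : p.h * (p.kap + p.mr) ≤ 1 / 2)
    (h1 : p.h * (p.kap + p.mr) * (2 * (p.kap + p.mr) +
      (1 + 2 * p.cc) * Real.exp (2 * (p.L : ℝ) ^ p.n) * (p.L * p.rho p.n)) ≤
        1 / (10 * (p.L : ℝ) ^ p.n))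
    (h2 : (1 + 2 * p.cc) * Real.exp (2 * (p.L : ℝ) ^ p.n + 2) * p.lam *
      (2 ^ p.d * p.d * p.eps ^ (1 - 2 * p.s) / (1 - 2 * p.s)) ≤ 1 / (10 * (p.L : ℝ) ^ p.n))
    (h3 : p.lam * (2 ^ p.d * p.d * p.q) ≤ 1 / 10) (N : ℕ) (G : ℕ → Finset p.St) (B0 : ℝ) :
    ∃ (η : ℝ) (ψ : ℝ × V p.d × V p.d → ℝ), 0 < η ∧ Mo ψ η ∧
        ∀ t x v, (p.L : ℝ) ^ p.n / 8 ≤ t → t ≤ 9 / 8 * (p.L : ℝ) ^ p.n → ‖x‖ ≤ B0 →
            ‖v‖ ≤ B0 →
          |mol ψ (FF p.h (p.ker N G) (bump (G N))) t x v -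
            FF p.h (p.ker N G) (bump (G N)) t x v| ≤ 1 / 16 ∧
          Integrable (fun w => (mol ψ (FF p.h (p.ker N G) (bump (G N))) t x (v + w) -
            mol ψ (FF p.h (p.ker N G) (bump (G N))) t x v) * Kf p (KK p.h (p.ker N G)) ψ t x v w) ∧
          |fderiv ℝ (fun a : ℝ × V p.d × V p.d =>
              mol ψ (FF p.h (p.ker N G) (bump (G N))) a.1 a.2.1 a.2.2) (t, x, v) (1, -v, 0) -
            ∫ w, (mol ψ (FF p.h (p.ker N G) (bump (G N))) t x (v + w) -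
              mol ψ (FF p.h (p.ker N G) (bump (G N))) t x v) *
                Kf p (KK p.h (p.ker N G)) ψ t x v w| ≤ ((p.L : ℝ) ^ p.n)⁻¹ := by
  classical
  set a : ℝ := (p.L : ℝ) ^ p.n with ha
  have hL1 : (1 : ℝ) ≤ p.L := by have := hp.hL; exact_mod_cast (by omega : 1 ≤ p.L)
  have ha1 : 1 ≤ a := one_le_pow₀ hL1
  have ha0 : 0 < a := by linarith
  have hrec := rec_ok p hp hh N G
  have hm0 : 0 ≤ p.kap + p.mr := hrec.m0
  have hc0 : 0 ≤ p.cc := hrec.c0
  have hW0 : 0 ≤ p.L * p.rho p.n := hrec.W0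
  have hApx := apx_FF hrec (2 * a) (by positivity)
  have hLp : 0 ≤ (1 + 2 * p.cc) * Real.exp (2 * a + 2) := by positivity
  obtain ⟨η, ψ, hη, hψ, hmain, hlip⟩ := mollify hApx hLp hW0 (a / 8) (9 / 8 * a)
    B0 (min (1 / 16) (1 / (10 * a))) (by positivity) (by linarith)
    (by linarith) (by positivity)
  refine ⟨η, ψ, hη, hψ, ?_⟩
  intro t x v ht1 ht2 hx hv
  obtain ⟨hcl, hres⟩ := hmain t x v ht1 ht2 hx hv
  set F : ℝ → V p.d → V p.d → ℝ := FF p.h (p.ker N G) (bump (G N)) with hF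
  have hFm : Measurable (fun b : ℝ × V p.d × V p.d => F b.1 b.2.1 b.2.2) := hApx.cont.measurable
  have hFb : ∀ t x v, |F t x v| ≤ 1 := fun t x v => by
    have := hApx.mem t x v
    exact abs_le.mpr ⟨by linarith [this.1], this.2⟩
  have hsm := mol_contDiff hψ hFm 1 hFb
  have hrange : ∀ t x v, 0 ≤ mol ψ F t x v ∧ mol ψ F t x v ≤ 1 := fun t x v =>
    mol_range hψ hFm 1 hFb t x v 0 1 fun y _ => hApx.mem _ _ _
  obtain ⟨hKm, hKn, hKi, hKmass, hKs⟩ := mol_K hApx hψ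
  -- the difference as a function of `w`
  set g : V p.d → ℝ := fun w => mol ψ F t x (v + w) - mol ψ F t x v with hg
  have hgc : Continuous g := by
    have : Continuous (fun w : V p.d => mol ψ F t x (v + w)) :=
      hsm.continuous.comp (by fun_prop : Continuous fun w : V p.d => (t, x, v + w))
    exact this.sub continuous_const
  have hg1 : ∀ w, |g w| ≤ 1 := by
    intro w
    have h1 := hrange t x (v + w)
    have h2 := hrange t x v
    exact abs_le.mpr ⟨by simp only [hg]; linarith [h1.1, h2.2], by simp only [hg]; linarith [h1.2, h2.1]⟩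
  have hg2 : ∀ w, |g w| ≤ (1 + 2 * p.cc) * Real.exp (2 * a + 2) * ‖w‖ := by
    intro w
    have := hlip t x (v + w) v ht1 ht2
    simpa [hg] using this
  have hs : 0 < p.s := by
    unfold Par.s; have := hp.hq; positivity
  have hq' : (2 : ℝ) ≤ p.q := by exact_mod_cast hq2
  have h2s : 2 * p.s = 1 / p.q := by
    have : (p.q : ℝ) ≠ 0 := by linarith
    unfold Par.s; field_simp
  have hs1 : 2 * p.s < 1 := by
    rw [h2s, div_lt_one (by linarith)]; linarith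
  have hell1 : (1 : ℝ) ≤ p.ell := by
    unfold Par.ell; push_cast; exact one_le_pow₀ hL1
  have hrho1 : 1 ≤ p.rho p.n := one_le_pow₀ hell1
  obtain ⟨hTi, hTb⟩ := F3_tails hp.hd hs hs1 hp.heps (hp.heps1.le.trans hrho1) hp.hlam.le hLp g hgc
    hg1 hg2
  have hKint : Integrable (fun w => g w * mol ψ (fun t x v => KK p.h (p.ker N G) t x v w) t x v) := by
    refine Integrable.mono' (hKi t x v) (hgc.aestronglyMeasurable.mul (hKi t x v).aestronglyMeasurable)
      (Eventually.of_forall fun w => ?_)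
    rw [norm_mul, Real.norm_eq_abs, Real.norm_eq_abs, abs_of_nonneg (hKn t x v w)]
    exact mul_le_of_le_one_left (hKn t x v w) (hg1 w)
  have hsplit : ∀ w, g w * Kf p (KK p.h (p.ker N G)) ψ t x v w =
      g w * mol ψ (fun t x v => KK p.h (p.ker N G) t x v w) t x v +
      g w * (if p.eps ≤ ‖w‖ ∧ ‖w‖ < p.rho p.n then 0 else
        p.lam * e2 w ^ (-((p.d : ℝ) + 2 * p.s))) := by
    intro w; unfold Kf; rw [mul_add]
  refine ⟨hcl.trans (min_le_left _ _), ?_, ?_⟩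
  · exact (hKint.add hTi).congr (Eventually.of_forall fun w => (hsplit w).symm)
  · have hint : ∫ w, g w * Kf p (KK p.h (p.ker N G)) ψ t x v w =
        (∫ w, g w * mol ψ (fun t x v => KK p.h (p.ker N G) t x v w) t x v) +
        ∫ w, g w * (if p.eps ≤ ‖w‖ ∧ ‖w‖ < p.rho p.n then 0 else
          p.lam * e2 w ^ (-((p.d : ℝ) + 2 * p.s))) := by
      rw [integral_congr_ae (Eventually.of_forall hsplit), integral_add hKint hTi]
    have hfar : p.lam * (2 ^ p.d * p.d * p.rho p.n ^ (-(2 * p.s)) / (2 * p.s)) ≤ 1 / (10 * a) := by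
      rw [F3_ell p hp, h2s, ← ha]
      have : p.lam * (2 ^ p.d * p.d * a⁻¹ / (1 / p.q)) = p.lam * (2 ^ p.d * p.d * p.q) * a⁻¹ := by
        field_simp
      rw [this]
      calc p.lam * (2 ^ p.d * p.d * p.q) * a⁻¹ ≤ 1 / 10 * a⁻¹ := by gcongr
        _ = _ := by field_simp
    have hsum : p.h * (p.kap + p.mr) * (2 * (p.kap + p.mr) +
        (1 + 2 * p.cc) * Real.exp (2 * a) * (p.L * p.rho p.n)) + min (1 / 16) (1 / (10 * a)) +
        (1 / (10 * a) + 1 / (10 * a)) ≤ a⁻¹ := by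
      have e1 := min_le_right (1 / 16 : ℝ) (1 / (10 * a))
      have : a⁻¹ = 10 * (1 / (10 * a)) := by field_simp
      rw [this]
      have : 0 < 1 / (10 * a) := by positivity
      linarith
    show |_ - ∫ w, g w * Kf p (KK p.h (p.ker N G)) ψ t x v w| ≤ a⁻¹
    rw [hint, ← sub_sub]
    refine (abs_sub _ _).trans ?_
    refine le_trans (add_le_add hres (hTb.trans (add_le_add h2 hfar))) hsum

/-- F3: the unscaled solution: for `eps` small and `H` large the residual is small -/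
theorem residualB (d L q : ℕ) (mu lam R : ℝ) (hA : Adm d L q mu lam R) (n : ℕ) (hn : 1 ≤ n)
    (vs : ℝ) (hvs : 0 < vs) (hvs1 : vs * (1 + (L : ℝ) ^ n) ≤ 1 / 100) :
    ∃ (eps : ℝ) (H : ℕ), 0 < eps ∧ eps < 1 ∧ 1 ≤ H ∧
      ∀ p : Par, p = ⟨d, L, q, n, H, mu, lam, vs, eps, R⟩ →
      p.h * (p.kap + p.mr) ≤ 1 / 2 ∧
      ∀ (N : ℕ) (G : ℕ → Finset p.St) (B0 : ℝ),
        ∃ (η : ℝ) (ψ : ℝ × V p.d × V p.d → ℝ), 0 < η ∧ Mo ψ η ∧
        ∀ t x v, (L : ℝ) ^ n / 8 ≤ t → t ≤ 9 / 8 * (L : ℝ) ^ n → ‖x‖ ≤ B0 → ‖v‖ ≤ B0 →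
          |mol ψ (FF p.h (p.ker N G) (bump (G N))) t x v -
            FF p.h (p.ker N G) (bump (G N)) t x v| ≤ 1 / 16 ∧
          Integrable (fun w => (mol ψ (FF p.h (p.ker N G) (bump (G N))) t x (v + w) -
            mol ψ (FF p.h (p.ker N G) (bump (G N))) t x v) * Kf p (KK p.h (p.ker N G)) ψ t x v w) ∧
          |fderiv ℝ (fun a : ℝ × V p.d × V p.d =>
              mol ψ (FF p.h (p.ker N G) (bump (G N))) a.1 a.2.1 a.2.2) (t, x, v) (1, -v, 0) -
            ∫ w, (mol ψ (FF p.h (p.ker N G) (bump (G N))) t x (v + w) -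
              mol ψ (FF p.h (p.ker N G) (bump (G N))) t x v) *
                Kf p (KK p.h (p.ker N G)) ψ t x v w| ≤ ((L : ℝ) ^ n)⁻¹ := by
  have hq2 := hA.q1
  have hq' : (2 : ℝ) ≤ q := by exact_mod_cast hq2
  -- the parameters with `eps = 1/2`, `H = 1`, for the quantities not depending on these
  have hR0 := hA.reg n 1 vs (1 / 2) hn le_rfl hvs hvs1 (by norm_num) (by norm_num)
  set p0 : Par := ⟨d, L, q, n, 1, mu, lam, vs, 1 / 2, R⟩ with hp0
  have hOk0 : p0.Ok := hR0.toOk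
  have hL1 : (1 : ℝ) ≤ L := by have := hOk0.hL; simp only [hp0] at this; exact_mod_cast (by omega : 1 ≤ L)
  have ha1 : 1 ≤ (L : ℝ) ^ n := one_le_pow₀ hL1
  set a : ℝ := (L : ℝ) ^ n with ha
  have ha0 : 0 < a := by linarith
  have hmu : 0 < mu := hOk0.hmu
  have hlam : 0 < lam := hOk0.hlam
  set mr : ℝ := 2 * mu * (L : ℝ) ^ q with hmr
  have hmr0 : 0 < mr := by positivity
  set cc : ℝ := mr * (1 + 2 * d / vs) with hcc
  have hcc0 : 0 ≤ cc := by positivity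
  set s : ℝ := 1 / (2 * q) with hs
  have h2s : 2 * s = 1 / q := by
    have : (q : ℝ) ≠ 0 := by linarith
    rw [hs]; field_simp
  have hs1 : 2 * s < 1 := by
    rw [h2s, div_lt_one (by linarith)]; linarith
  -- choice of eps
  obtain ⟨eps, heps0, heps1, heps2⟩ : ∃ eps : ℝ, 0 < eps ∧ eps < 1 ∧
      (1 + 2 * cc) * Real.exp (2 * a + 2) * lam * (2 ^ d * d * eps ^ (1 - 2 * s) / (1 - 2 * s)) ≤
        1 / (10 * a) := by
    have hcont : Continuous (fun x : ℝ => (1 + 2 * cc) * Real.exp (2 * a + 2) * lam *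
        (2 ^ d * d * x ^ (1 - 2 * s) / (1 - 2 * s))) := by
      have := Real.continuous_rpow_const (q := 1 - 2 * s) (by linarith)
      fun_prop
    have h0 : (1 + 2 * cc) * Real.exp (2 * a + 2) * lam *
        (2 ^ d * d * (0 : ℝ) ^ (1 - 2 * s) / (1 - 2 * s)) = 0 := by
      rw [Real.zero_rpow (by linarith)]; simp
    have ht := hcont.tendsto 0
    rw [h0] at ht
    have h1 : ∀ᶠ x in 𝓝[>] (0 : ℝ), (1 + 2 * cc) * Real.exp (2 * a + 2) * lam *
        (2 ^ d * d * x ^ (1 - 2 * s) / (1 - 2 * s)) < 1 / (10 * a) :=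
      (ht.mono_left nhdsWithin_le_nhds).eventually (gt_mem_nhds (by positivity))
    have h2 : ∀ᶠ x in 𝓝[>] (0 : ℝ), x < 1 :=
      (nhdsWithin_le_nhds (gt_mem_nhds (by norm_num : (0 : ℝ) < 1)))
    have h3 : ∀ᶠ x in 𝓝[>] (0 : ℝ), 0 < x := self_mem_nhdsWithin
    obtain ⟨x, hx1, hx2, hx3⟩ := (h1.and (h2.and h3)).exists
    exact ⟨x, hx3, hx2, hx1.le⟩
  -- choice of H
  set kap : ℝ := Par.kap ⟨d, L, q, n, 1, mu, lam, vs, eps, R⟩ with hkap
  set rho : ℝ := Par.rho ⟨d, L, q, n, 1, mu, lam, vs, eps, R⟩ n with hrho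
  set m : ℝ := kap + mr with hm
  set D : ℝ := m * (2 * m + (1 + 2 * cc) * Real.exp (2 * a) * (L * rho)) with hD
  set H : ℕ := ⌈max (2 * m) (10 * a * D)⌉₊ + 1 with hH
  have hH1 : 1 ≤ H := by omega
  have hHr : max (2 * m) (10 * a * D) ≤ H := by
    rw [hH]; push_cast; linarith [Nat.le_ceil (max (2 * m) (10 * a * D))]
  have hHpos : (0 : ℝ) < H := by exact_mod_cast hH1
  refine ⟨eps, H, heps0, heps1, hH1, ?_⟩
  intro p hp
  have hReg : p.Reg := by rw [hp]; exact hA.reg n H vs eps hn hH1 hvs hvs1 heps0 heps1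
  have hOk : p.Ok := hReg.toOk
  have ekap : p.kap = kap := by rw [hp]; rfl
  have emr : p.mr = mr := by rw [hp]; rfl
  have ecc : p.cc = cc := by rw [hp]; rfl
  have erho : p.rho n = rho := by rw [hp]; rfl
  have eL : (p.L : ℝ) = L := by rw [hp]
  have en : p.n = n := by rw [hp]
  have ed : p.d = d := by rw [hp]
  have eq' : p.q = q := by rw [hp]
  have elam : p.lam = lam := by rw [hp]
  have eeps : p.eps = eps := by rw [hp]
  have es : p.s = s := by rw [hp]; rfl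
  have eh : p.h = 1 / ((H : ℝ) * (L : ℝ) ^ q) := by rw [hp]; rfl
  have hh0 : 0 ≤ p.h := by rw [eh]; positivity
  have hLq : 1 ≤ (L : ℝ) ^ q := one_le_pow₀ hL1
  have hhle : p.h ≤ 1 / H := by
    rw [eh]
    apply one_div_le_one_div_of_le hHpos
    nlinarith
  have key : ∀ X : ℝ, X ≤ H → p.h * X ≤ 1 := by
    intro X hX
    by_cases hX0 : 0 ≤ X
    · calc p.h * X ≤ 1 / H * H := by gcongr
        _ = 1 := by field_simp
    · push Not at hX0; nlinarith
  have hh : p.h * (p.kap + p.mr) ≤ 1 / 2 := by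
    rw [ekap, emr]
    have := key (2 * m) ((le_max_left _ _).trans hHr)
    linarith
  refine ⟨hh, ?_⟩
  intro N G B0
  have h1 : p.h * (p.kap + p.mr) * (2 * (p.kap + p.mr) +
      (1 + 2 * p.cc) * Real.exp (2 * (p.L : ℝ) ^ p.n) * (p.L * p.rho p.n)) ≤
        1 / (10 * (p.L : ℝ) ^ p.n) := by
    rw [ekap, emr, ecc, eL, en, erho, ← ha, ← hm]
    have := key (10 * a * D) ((le_max_right _ _).trans hHr)
    rw [le_div_iff₀ (by positivity)]
    calc p.h * m * (2 * m + (1 + 2 * cc) * Real.exp (2 * a) * (↑L * rho)) * (10 * a) =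
        p.h * (10 * a * D) := by rw [hD]; ring
      _ ≤ 1 := this
  have h2 : (1 + 2 * p.cc) * Real.exp (2 * (p.L : ℝ) ^ p.n + 2) * p.lam *
      (2 ^ p.d * p.d * p.eps ^ (1 - 2 * p.s) / (1 - 2 * p.s)) ≤ 1 / (10 * (p.L : ℝ) ^ p.n) := by
    rw [ecc, eL, en, elam, ed, eeps, es, ← ha]
    exact heps2
  have h3 : p.lam * (2 ^ p.d * p.d * p.q) ≤ 1 / 10 := by
    have h4 := hReg.r4
    rw [eq'] at h4 ⊢
    have hL4 : (1 : ℝ) ≤ (p.L : ℝ) ^ 4 := by rw [eL]; exact one_le_pow₀ hL1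
    have hl : 0 ≤ p.lam := hOk.hlam.le
    have hd0 : (0 : ℝ) ≤ 2 ^ p.d * p.d := by positivity
    calc p.lam * (2 ^ p.d * p.d * q) ≤ p.lam * (2 ^ p.d * p.d * (q + 1)) := by gcongr; linarith
      _ ≤ p.lam * (2 ^ p.d * p.d * (q + 1)) * (p.L : ℝ) ^ 4 := le_mul_of_one_le_right (by positivity) hL4
      _ ≤ 1 / 10000 := h4
      _ ≤ 1 / 10 := by norm_num
  have := F3_core p hOk (by rw [eq']; exact hq2) hh h1 h2 h3 N G B0
  rw [eL, en] at this
  exact this

/-- F3: the unscaled solution: for `eps` small and `H` large the residual is small -/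
theorem residual (d L q : ℕ) (mu lam R : ℝ) (hA : Adm d L q mu lam R) (n : ℕ) (hn : 1 ≤ n)
    (vs : ℝ) (hvs : 0 < vs) (hvs1 : vs * (1 + (L : ℝ) ^ n) ≤ 1 / 100) :
    ∃ (eps : ℝ) (H : ℕ), 0 < eps ∧ eps < 1 ∧ 1 ≤ H ∧
      ∀ p : Par, p = ⟨d, L, q, n, H, mu, lam, vs, eps, R⟩ →
      p.h * (p.kap + p.mr) ≤ 1 / 2 ∧
      ∀ (N : ℕ) (G : ℕ → Finset p.St), ∃ (η : ℝ) (ψ : ℝ × V p.d × V p.d → ℝ), 0 < η ∧ Mo ψ η ∧
        ∀ t x v, (L : ℝ) ^ n / 8 ≤ t → t ≤ 9 / 8 * (L : ℝ) ^ n → ‖x‖ ≤ p.xi n → ‖v‖ ≤ p.rho n →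
          |mol ψ (FF p.h (p.ker N G) (bump (G N))) t x v -
            FF p.h (p.ker N G) (bump (G N)) t x v| ≤ 1 / 16 ∧
          Integrable (fun w => (mol ψ (FF p.h (p.ker N G) (bump (G N))) t x (v + w) -
            mol ψ (FF p.h (p.ker N G) (bump (G N))) t x v) * Kf p (KK p.h (p.ker N G)) ψ t x v w) ∧
          |fderiv ℝ (fun a : ℝ × V p.d × V p.d =>
              mol ψ (FF p.h (p.ker N G) (bump (G N))) a.1 a.2.1 a.2.2) (t, x, v) (1, -v, 0) -
            ∫ w, (mol ψ (FF p.h (p.ker N G) (bump (G N))) t x (v + w) -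
              mol ψ (FF p.h (p.ker N G) (bump (G N))) t x v) *
                Kf p (KK p.h (p.ker N G)) ψ t x v w| ≤ ((L : ℝ) ^ n)⁻¹ := by
  obtain ⟨eps, H, h1, h2, h3, h4⟩ := residualB d L q mu lam R hA n hn vs hvs hvs1
  refine ⟨eps, H, h1, h2, h3, fun p hp => ⟨(h4 p hp).1, fun N G => ?_⟩⟩
  obtain ⟨η, ψ, hη, hψ, hm⟩ := (h4 p hp).2 N G (max (p.xi n) (p.rho n))
  exact ⟨η, ψ, hη, hψ, fun t x v ht1 ht2 hx hv => hm t x v ht1 ht2
    (hx.trans (le_max_left _ _)) (hv.trans (le_max_right _ _))⟩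

end KDB
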