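import Pool.Agent.Helper34.KDB.St.F3

/-! KDP-F4: scaling. -/

set_option autoImplicit false

namespace KDB

open MeasureTheory Set Filter Topology
open scoped ENNReal NNReal ContDiff

/-- a counterexample at scale `δ`, in `ℝ^d` with the sup norm -/
def CexV (d : ℕ) (s lam Lam δ : ℝ) : Prop :=
  ∃ (K : ℝ → V d → V d → V d → ℝ) (F : ℝ → V d → V d → ℝ),
    Measurable (fun a : ℝ × V d × V d × V d => K a.1 a.2.1 a.2.2.1 a.2.2.2) ∧
    (∀ t x v w, K t x v (-w) = K t x v w) ∧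
    (∀ t x v w, w ≠ 0 → lam ≤ e2 w ^ ((d : ℝ) + 2 * s) * K t x v w ∧
      e2 w ^ ((d : ℝ) + 2 * s) * K t x v w ≤ Lam) ∧
    (∀ w, ContDiff ℝ ∞ (fun a : ℝ × V d × V d => K a.1 a.2.1 a.2.2 w)) ∧
    ContDiff ℝ ∞ (fun a : ℝ × V d × V d => F a.1 a.2.1 a.2.2) ∧
    (∀ t x v, 0 ≤ F t x v ∧ F t x v ≤ 1) ∧
    (∀ t x v, 0 ≤ t → t ≤ 1 → ‖x‖ ≤ 1 → ‖v‖ ≤ 1 →
      Integrable (fun w => (F t x (v + w) - F t x v) * K t x v w) ∧
      |fderiv ℝ (fun a : ℝ × V d × V d => F a.1 a.2.1 a.2.2) (t, x, v) (1, v, 0) -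
        ∫ w, (F t x (v + w) - F t x v) * K t x v w| ≤ 1) ∧
    ∃ x v : V d, ‖x‖ ≤ δ ∧ ‖v‖ ≤ δ ∧ 1 / 2 < F (5 / 8) 0 0 - F (5 / 8) x v

/-- the change of variables -/
noncomputable def F4_phi {d : ℕ} (a ξ ρ : ℝ) (b : ℝ × V d × V d) : ℝ × V d × V d :=
  (a * (b.1 + 1 / 8), (-ξ) • b.2.1, ρ • b.2.2)

theorem F4_phi_contDiff {d : ℕ} (a ξ ρ : ℝ) : ContDiff ℝ ∞ (F4_phi (d := d) a ξ ρ) := by
  unfold F4_phi
  fun_prop

theorem F4_phi_deriv {d : ℕ} (a ξ ρ : ℝ) (b c : ℝ × V d × V d) :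
    fderiv ℝ (F4_phi (d := d) a ξ ρ) b c = (a * c.1, (-ξ) • c.2.1, ρ • c.2.2) := by
  have h : HasFDerivAt (F4_phi (d := d) a ξ ρ)
      ((a • ContinuousLinearMap.fst ℝ ℝ (V d × V d)).prod
        (((-ξ) • (ContinuousLinearMap.fst ℝ (V d) (V d)).comp
          (ContinuousLinearMap.snd ℝ ℝ (V d × V d))).prod
        (ρ • (ContinuousLinearMap.snd ℝ (V d) (V d)).comp
          (ContinuousLinearMap.snd ℝ ℝ (V d × V d))))) b := by
    unfold F4_phi
    have h1 : HasFDerivAt (fun b : ℝ × V d × V d => a * (b.1 + 1 / 8))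
        (a • ContinuousLinearMap.fst ℝ ℝ (V d × V d)) b := by
      have := ((ContinuousLinearMap.fst ℝ ℝ (V d × V d)).hasFDerivAt (x := b)).add_const (1 / 8 : ℝ)
      exact this.const_mul a
    have h2 : HasFDerivAt (fun b : ℝ × V d × V d => (-ξ) • b.2.1)
        ((-ξ) • (ContinuousLinearMap.fst ℝ (V d) (V d)).comp
          (ContinuousLinearMap.snd ℝ ℝ (V d × V d))) b :=
      (((ContinuousLinearMap.fst ℝ (V d) (V d)).comp
          (ContinuousLinearMap.snd ℝ ℝ (V d × V d))).hasFDerivAt (x := b)).const_smul (-ξ)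
    have h3 : HasFDerivAt (fun b : ℝ × V d × V d => ρ • b.2.2)
        (ρ • (ContinuousLinearMap.snd ℝ (V d) (V d)).comp
          (ContinuousLinearMap.snd ℝ ℝ (V d × V d))) b :=
      (((ContinuousLinearMap.snd ℝ (V d) (V d)).comp
          (ContinuousLinearMap.snd ℝ ℝ (V d × V d))).hasFDerivAt (x := b)).const_smul ρ
    exact h1.prodMk (h2.prodMk h3)
  rw [h.fderiv]
  simp

theorem F4_core (p : Par) (hp : p.Ok) (hh : p.h * (p.kap + p.mr) ≤ 1 / 2) (δ : ℝ)
    (P c B0 δ' : ℝ) (hP0 : 0 < P) (hc0 : 0 < c) (hc : c * P ^ (2 * p.s) = (p.L : ℝ) ^ p.n)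
    (hB1 : P * (p.L : ℝ) ^ p.n ≤ B0) (hB3 : δ * p.xi p.n ≤ B0)
    (hδ' : δ * p.rho p.n ≤ δ' * P)
    (N : ℕ) (G : ℕ → Finset p.St) (hN : (N : ℝ) * p.h = 3 / 4 * (p.L : ℝ) ^ p.n)
    (hbig : 7 / 8 ≤ p.vf N G N 0)
    (hsmall : ∃ x v : V p.d, ‖x‖ ≤ δ * p.xi p.n ∧ ‖v‖ ≤ δ * p.rho p.n ∧
      p.vf N G N (x, v) ≤ 1 / 8)
    (η : ℝ) (ψ : ℝ × V p.d × V p.d → ℝ) (hψ : Mo ψ η)
    (hmain : ∀ t x v, (p.L : ℝ) ^ p.n / 8 ≤ t → t ≤ 9 / 8 * (p.L : ℝ) ^ p.n → ‖x‖ ≤ B0 →
            ‖v‖ ≤ B0 →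
          |mol ψ (FF p.h (p.ker N G) (bump (G N))) t x v -
            FF p.h (p.ker N G) (bump (G N)) t x v| ≤ 1 / 16 ∧
          Integrable (fun w => (mol ψ (FF p.h (p.ker N G) (bump (G N))) t x (v + w) -
            mol ψ (FF p.h (p.ker N G) (bump (G N))) t x v) * Kf p (KK p.h (p.ker N G)) ψ t x v w) ∧
          |fderiv ℝ (fun a : ℝ × V p.d × V p.d =>
              mol ψ (FF p.h (p.ker N G) (bump (G N))) a.1 a.2.1 a.2.2) (t, x, v) (1, -v, 0) -
            ∫ w, (mol ψ (FF p.h (p.ker N G) (bump (G N))) t x (v + w) -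
              mol ψ (FF p.h (p.ker N G) (bump (G N))) t x v) *
                Kf p (KK p.h (p.ker N G)) ψ t x v w| ≤ ((p.L : ℝ) ^ p.n)⁻¹) :
    CexV p.d p.s (c * p.lam) (c * (p.lam + p.LamR)) δ' := by
  have hrec := rec_ok p hp hh N G
  have hApx := apx_FF hrec (2 * (p.L : ℝ) ^ p.n) (by positivity)
  set a : ℝ := (p.L : ℝ) ^ p.n with ha
  have hL1 : (1 : ℝ) ≤ p.L := by have := hp.hL; exact_mod_cast (by omega : 1 ≤ p.L)
  have ha1 : 1 ≤ a := one_le_pow₀ hL1
  have ha0 : 0 < a := by linarith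
  have hell1 : (1 : ℝ) ≤ p.ell := by
    unfold Par.ell; push_cast; exact one_le_pow₀ hL1
  have hxi : p.xi p.n = p.rho p.n * a := xi_eq p p.n
  set X : ℝ := P * a with hX
  have hX0 : 0 < X := by positivity
  have hPB : P ≤ B0 := by nlinarith
  have hδρ : δ * p.rho p.n ≤ B0 := by
    by_cases h : 0 ≤ δ * p.rho p.n
    · refine le_trans ?_ hB3
      rw [hxi, ← mul_assoc]
      exact le_mul_of_one_le_right h ha1
    · push Not at h
      linarith [hP0]
  set F : ℝ → V p.d → V p.d → ℝ := FF p.h (p.ker N G) (bump (G N)) with hF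
  have hFm : Measurable (fun b : ℝ × V p.d × V p.d => F b.1 b.2.1 b.2.2) := hApx.cont.measurable
  have hFb : ∀ t x v, |F t x v| ≤ 1 := fun t x v => by
    have := hApx.mem t x v
    exact abs_le.mpr ⟨by linarith [this.1], this.2⟩
  have hsm := mol_contDiff hψ hFm 1 hFb
  have hrange : ∀ t x v, 0 ≤ mol ψ F t x v ∧ mol ψ F t x v ≤ 1 := fun t x v =>
    mol_range hψ hFm 1 hFb t x v 0 1 fun y _ => hApx.mem _ _ _
  obtain ⟨hK1, hK2, hK3, hK4⟩ := Kf_bounds p hp hh N G ψ η hψ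
  have hgrid : ∀ x v, F (N * p.h) x v = p.vf N G N (x, v) := fun x v => FF_grid hrec N x v
  set Kq := Kf p (KK p.h (p.ker N G)) ψ with hKq
  clear_value Kq F
  set Fm : ℝ × V p.d × V p.d → ℝ := fun b => mol ψ F b.1 b.2.1 b.2.2 with hFmd
  refine ⟨fun t x v w => a * P ^ p.d * Kq (a * (t + 1 / 8)) ((-X) • x) (P • v) (P • w),
    fun t x v => mol ψ F (a * (t + 1 / 8)) ((-X) • x) (P • v), ?_, ?_, ?_, ?_, ?_, ?_, ?_, ?_⟩
  · refine Measurable.const_mul ?_ _
    have hm : Measurable (fun b : ℝ × V p.d × V p.d × V p.d =>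
      ((a * (b.1 + 1 / 8), (-X) • b.2.1, P • b.2.2.1, P • b.2.2.2) :
        ℝ × V p.d × V p.d × V p.d)) := by
      have hc : Continuous (fun b : ℝ × V p.d × V p.d × V p.d =>
        ((a * (b.1 + 1 / 8), (-X) • b.2.1, P • b.2.2.1, P • b.2.2.2) :
          ℝ × V p.d × V p.d × V p.d)) := by fun_prop
      exact hc.measurable
    exact hK1.comp hm
  · intro t x v w
    simp only
    rw [smul_neg, hK2]
  · intro t x v w hw
    have hw' : P • w ≠ 0 := smul_ne_zero hP0.ne' hw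
    have h := hK3 (a * (t + 1 / 8)) ((-X) • x) (P • v) (P • w) hw'
    have he : c * (e2 (P • w) ^ ((p.d : ℝ) + 2 * p.s) *
        Kq (a * (t + 1 / 8)) ((-X) • x) (P • v) (P • w)) =
        e2 w ^ ((p.d : ℝ) + 2 * p.s) *
          (a * P ^ p.d * Kq (a * (t + 1 / 8)) ((-X) • x) (P • v) (P • w)) := by
      rw [e2_smul, abs_of_pos hP0, Real.mul_rpow hP0.le (show 0 ≤ e2 w from Real.sqrt_nonneg _),
        Real.rpow_add hP0, Real.rpow_natCast, ← hc]
      ring
    rw [← he]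
    exact ⟨mul_le_mul_of_nonneg_left h.1 hc0.le, mul_le_mul_of_nonneg_left h.2 hc0.le⟩
  · intro w
    refine contDiff_const.mul ?_
    exact (hK4 (P • w)).comp (F4_phi_contDiff a X P)
  · exact hsm.comp (F4_phi_contDiff a X P)
  · intro t x v
    exact hrange _ _ _
  · intro t x v ht0 ht1 hx hv
    have hx' : ‖(-X) • x‖ ≤ B0 := by
      rw [norm_smul, Real.norm_eq_abs, abs_neg, abs_of_pos hX0]
      refine le_trans ?_ hB1
      nlinarith
    have hv' : ‖P • v‖ ≤ B0 := by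
      rw [norm_smul, Real.norm_eq_abs, abs_of_pos hP0]
      refine le_trans ?_ hPB
      nlinarith
    obtain ⟨-, hint, hres⟩ := hmain (a * (t + 1 / 8)) ((-X) • x) (P • v) (by nlinarith)
      (by nlinarith) hx' hv'
    set g : V p.d → ℝ := fun w => (mol ψ F (a * (t + 1 / 8)) ((-X) • x) (P • v + w) -
      mol ψ F (a * (t + 1 / 8)) ((-X) • x) (P • v)) *
        Kq (a * (t + 1 / 8)) ((-X) • x) (P • v) w with hg
    have hfun : (fun w => (mol ψ F (a * (t + 1 / 8)) ((-X) • x) (P • (v + w)) -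
        mol ψ F (a * (t + 1 / 8)) ((-X) • x) (P • v)) *
          (a * P ^ p.d * Kq (a * (t + 1 / 8)) ((-X) • x) (P • v) (P • w))) =
        fun w => (a * P ^ p.d) * g (P • w) := by
      funext w
      simp only [hg, smul_add]
      ring
    have hfr : Module.finrank ℝ (V p.d) = p.d := by simp [V]
    constructor
    · rw [hfun]
      exact (hint.comp_smul hP0.ne').const_mul _
    · rw [hfun, integral_const_mul, Measure.integral_comp_smul, hfr]
      have hder : fderiv ℝ (fun b : ℝ × V p.d × V p.d =>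
          mol ψ F (a * (b.1 + 1 / 8)) ((-X) • b.2.1) (P • b.2.2)) (t, x, v) (1, v, 0) =
          a * fderiv ℝ Fm (a * (t + 1 / 8), (-X) • x, P • v) (1, -(P • v), 0) := by
        have hcomp : (fun b : ℝ × V p.d × V p.d =>
          mol ψ F (a * (b.1 + 1 / 8)) ((-X) • b.2.1) (P • b.2.2)) = Fm ∘ F4_phi a X P := rfl
        rw [hcomp, fderiv_comp _ (hsm.differentiable (by simp)).differentiableAt
          ((F4_phi_contDiff a X P).differentiable (by simp)).differentiableAt,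
          ContinuousLinearMap.comp_apply, F4_phi_deriv]
        have : ((a * (1 : ℝ), (-X) • v, P • (0 : V p.d)) : ℝ × V p.d × V p.d) =
            a • ((1 : ℝ), -(P • v), (0 : V p.d)) := by
          rw [hX]
          simp only [Prod.smul_mk, smul_eq_mul, smul_zero, smul_neg, neg_smul, smul_smul]
          rw [mul_comm a P]
        simp only [this, map_smul, smul_eq_mul]
        rfl
      have hpos : 0 < (P ^ p.d)⁻¹ := by positivity
      rw [hder, smul_eq_mul, abs_of_pos hpos]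
      have hcancel : a * P ^ p.d * ((P ^ p.d)⁻¹ * ∫ w, g w) = a * ∫ w, g w := by
        have : P ^ p.d ≠ 0 := by positivity
        field_simp
      rw [hcancel, ← mul_sub, abs_mul, abs_of_pos ha0]
      calc a * |_| ≤ a * a⁻¹ := by gcongr
        _ = 1 := mul_inv_cancel₀ ha0.ne'
  · obtain ⟨x0, v0, hx0, hv0, hxv⟩ := hsmall
    refine ⟨(-X)⁻¹ • x0, P⁻¹ • v0, ?_, ?_, ?_⟩
    · rw [norm_smul, norm_inv, Real.norm_eq_abs, abs_neg, abs_of_pos hX0, inv_mul_le_iff₀ hX0]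
      refine hx0.trans ?_
      rw [hxi, hX, ← mul_assoc]
      calc δ * p.rho p.n * a ≤ (δ' * P) * a := by gcongr
        _ = P * a * δ' := by ring
    · rw [norm_smul, norm_inv, Real.norm_eq_abs, abs_of_pos hP0, inv_mul_le_iff₀ hP0]
      linarith
    · have e1 : a * ((5 : ℝ) / 8 + 1 / 8) = N * p.h := by rw [hN]; ring
      have e2' : (-X) • (-X)⁻¹ • x0 = x0 := by
        rw [smul_smul, mul_inv_cancel₀ (by simpa using hX0.ne'), one_smul]
      have e3 : P • P⁻¹ • v0 = v0 := by rw [smul_smul, mul_inv_cancel₀ hP0.ne', one_smul]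
      have hB00 : 0 ≤ B0 := hP0.le.trans hPB
      simp only [smul_zero, e1, e2', e3]
      have c1 := (hmain (N * p.h) 0 0 (by rw [hN]; linarith) (by rw [hN]; linarith)
        (by simpa using hB00) (by simpa using hB00)).1
      have c2 := (hmain (N * p.h) x0 v0 (by rw [hN]; linarith) (by rw [hN]; linarith)
        (hx0.trans hB3) (hv0.trans hδρ)).1
      have g1 : F (N * p.h) 0 0 = p.vf N G N 0 := hgrid 0 0
      have g2 : F (N * p.h) x0 v0 = p.vf N G N (x0, v0) := hgrid x0 v0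
      rw [g1] at c1
      rw [g2] at c2
      have c1' := abs_le.mp c1
      have c2' := abs_le.mp c2
      linarith [c1'.1, c2'.2]

/-- F4: scaling. For every `c > 0` there are counterexamples with ellipticity constants
`c * lam` and `c * (lam + LamR)`. -/
theorem cexVc (d L q : ℕ) (mu lam R : ℝ) (hA : Adm d L q mu lam R) (c : ℝ) (hc : 0 < c) (δ : ℝ)
    (hδ : 0 < δ) :
    CexV d (1 / (2 * q)) (c * lam)
      (c * (lam + Par.LamR ⟨d, L, q, 1, 1, mu, lam, 1, 1, R⟩)) δ := by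
  have hcq : 0 < c ^ q := by positivity
  obtain ⟨n0, hn0⟩ := value_gap d L q mu lam R hA (δ / c ^ q) (by positivity)
  set n : ℕ := max n0 1 with hn
  have hn1 : 1 ≤ n := le_max_right _ _
  set vs : ℝ := 1 / (100 * (1 + (L : ℝ) ^ n)) with hvs
  have hvs0 : 0 < vs := by positivity
  have hvs1 : vs * (1 + (L : ℝ) ^ n) ≤ 1 / 100 := by
    have : (0 : ℝ) < 1 + (L : ℝ) ^ n := by positivity
    rw [hvs]; apply le_of_eq; field_simp
  obtain ⟨eps, H, he0, he1, hH, hres⟩ := residualB d L q mu lam R hA n hn1 vs hvs0 hvs1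
  obtain ⟨p, hp⟩ : ∃ p : Par, p = ⟨d, L, q, n, H, mu, lam, vs, eps, R⟩ := ⟨_, rfl⟩
  obtain ⟨hh, hres2⟩ := hres p hp
  obtain ⟨N, G, hN, hbig, hsm⟩ := hn0 n H vs eps (le_max_left _ _) hn1 hH hvs0 hvs1 he0 he1 p hp hh
  have hOk : p.Ok := by
    rw [hp]; exact (hA.reg n H vs eps hn1 hH hvs0 hvs1 he0 he1).toOk
  have hL1 : (1 : ℝ) ≤ L := by
    have := hOk.hL
    rw [hp] at this
    have h2 : 1000 ≤ L := this
    exact_mod_cast (by omega : 1 ≤ L)
  have eL : (p.L : ℝ) = L := by rw [hp]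
  have en : p.n = n := by rw [hp]
  have hq0 : (q : ℝ) ≠ 0 := by have := hA.q1; positivity
  have hrho0 : 0 < p.rho n := by
    have : (0 : ℝ) < p.ell := by
      unfold Par.ell; push_cast; rw [eL]; positivity
    exact pow_pos this n
  have hxi0 : 0 < p.xi n := by
    rw [xi_eq p n, eL]; positivity
  -- velocity scale
  set P : ℝ := p.rho n / c ^ q with hP
  have hP0 : 0 < P := by positivity
  have hscale : c * P ^ (2 * p.s) = (L : ℝ) ^ n := by
    have h1 := F3_ell p hOk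
    rw [en, eL, Real.rpow_neg hrho0.le] at h1
    have h1' : p.rho n ^ (2 * p.s) = (L : ℝ) ^ n := inv_injective h1
    have hs : 2 * p.s = (q : ℝ)⁻¹ := by
      rw [hp]; simp only [Par.s]; field_simp
    have hcc : (c ^ q) ^ ((q : ℝ)⁻¹) = c :=
      Real.pow_rpow_inv_natCast hc.le (by exact_mod_cast hq0)
    rw [hP, Real.div_rpow hrho0.le hcq.le, h1', hs, hcc]
    field_simp
  set B0 : ℝ := max (P * (L : ℝ) ^ n) (δ / c ^ q * p.xi n) with hB0
  obtain ⟨η, ψ, hη, hψ, hmain⟩ := hres2 N G B0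
  have := F4_core p hOk hh (δ / c ^ q) P c B0 δ hP0 hc (by rw [eL, en]; exact hscale)
    (by rw [eL, en]; exact le_max_left _ _) (by rw [en]; exact le_max_right _ _)
    (le_of_eq (by rw [hP, en]; ring)) N G (by rw [eL, en]; exact hN) hbig
    (by rw [en]; exact hsm) η ψ hψ (by rw [eL, en]; exact hmain)
  subst hp
  exact this

/-- F4 with `c = 1` -/
theorem cexV (d L q : ℕ) (mu lam R : ℝ) (hA : Adm d L q mu lam R) (δ : ℝ) (hδ : 0 < δ) :
    CexV d (1 / (2 * q)) lam (lam + Par.LamR ⟨d, L, q, 1, 1, mu, lam, 1, 1, R⟩) δ := by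
  have h := cexVc d L q mu lam R hA 1 one_pos δ hδ
  rwa [one_mul, one_mul] at h

end KDB
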