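import Pool.Agent.Helper34.KDB.St.F4
import Pool.Agent.Helper33.KD4.WrapDefs

/-! KDP-F5: transfer to the Euclidean norm. -/

set_option autoImplicit false

namespace KDB

open MeasureTheory Set Filter Topology
open scoped ENNReal NNReal ContDiff

open KD.IV in
/-- a smooth solution of the kinetic equation in the sense of the problem, on
`[0,1] × B_1 × B_1` (closed balls), with `f`, `K` smooth on the whole space -/
structure SolE {d : ℕ} (s lam Lam A B : ℝ) (K : ℝ → Ed d → Ed d → Ed d → ℝ)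
    (f h : ℝ → Ed d → Ed d → ℝ) : Prop where
  Kmeas : Measurable (fun a : ℝ × Ed d × Ed d × Ed d => K a.1 a.2.1 a.2.2.1 a.2.2.2)
  Ksymm : ∀ t x v w, K t x v (v - w) = K t x v (v + w)
  Klo : ∀ t x v v', v' ≠ v → lam ≤ ‖v' - v‖ ^ ((d : ℝ) + 2 * s) * K t x v v'
  Khi : ∀ t x v v', v' ≠ v → ‖v' - v‖ ^ ((d : ℝ) + 2 * s) * K t x v v' ≤ Lam
  Ksmooth : ∀ w, ContDiff ℝ ∞ (fun a : ℝ × Ed d × Ed d => K a.1 a.2.1 a.2.2 (a.2.2 + w))
  fsmooth : ContDiff ℝ ∞ (fun a : ℝ × Ed d × Ed d => f a.1 a.2.1 a.2.2)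
  fb : ∀ t x v, |f t x v| ≤ A
  hb : ∀ t x v, |h t x v| ≤ B
  eqn : ∀ t x v, 0 ≤ t → t ≤ 1 → ‖x‖ ≤ 1 → ‖v‖ ≤ 1 →
    Integrable (fun v' => (f t x v' - f t x v) * K t x v v') ∧
    Tendsto (fun ε : ℝ => ∫ v' in {v' : Ed d | ε ≤ ‖v' - v‖}, (f t x v' - f t x v) * K t x v v')
      (𝓝[>] 0) (𝓝 (∫ v', (f t x v' - f t x v) * K t x v v')) ∧
    deriv (fun τ => f τ x v) t + fderiv ℝ (fun y => f t y v) x v =
      (∫ v', (f t x v' - f t x v) * K t x v v') + h t x v

open KD.IV in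
private lemma F5_mp (d : ℕ) : MeasurePreserving (toE d : V d → Ed d) :=
  PiLp.volume_preserving_toLp (Fin d)

open KD.IV in
private lemma F5_mpv {d : ℕ} (v : Ed d) : MeasurePreserving (fun w : V d => v + toE d w) :=
  (measurePreserving_add_left (volume : Measure (Ed d)) v).comp (F5_mp d)

open KD.IV in
private lemma F5_emb {d : ℕ} (v : Ed d) : MeasurableEmbedding (fun w : V d => v + toE d w) :=
  (measurableEmbedding_addLeft v).comp (toE d).toHomeomorph.measurableEmbedding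

open KD.IV in
private lemma F5_e2 {d : ℕ} (w : V d) : ‖toE d w‖ = e2 w := by
  rw [EuclideanSpace.norm_eq]
  unfold e2
  congr 1
  refine Finset.sum_congr rfl fun i _ => ?_
  rw [Real.norm_eq_abs, sq_abs]
  rfl

open KD.IV in
private lemma F5_norm_le {d : ℕ} (x : V d) : ‖x‖ ≤ ‖toE d x‖ := by
  rw [pi_norm_le_iff_of_nonneg (norm_nonneg _)]
  intro i
  exact PiLp.norm_apply_le (toE d x) i

open KD.IV in
private lemma F5_toE_le {d : ℕ} (hd : 1 ≤ d) (x : V d) : ‖toE d x‖ ≤ d * ‖x‖ := by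
  have hd' : (1 : ℝ) ≤ d := by exact_mod_cast hd
  rw [EuclideanSpace.norm_eq]
  have h1 : ∑ i, ‖(toE d x) i‖ ^ 2 ≤ ∑ _i : Fin d, ‖x‖ ^ 2 := by
    refine Finset.sum_le_sum fun i _ => ?_
    have : ‖(toE d x) i‖ ≤ ‖x‖ := norm_le_pi_norm x i
    gcongr
  have h2 : ∑ _i : Fin d, ‖x‖ ^ 2 = d * ‖x‖ ^ 2 := by simp
  rw [h2] at h1
  calc √(∑ i, ‖(toE d x) i‖ ^ 2) ≤ √((d * ‖x‖) ^ 2) := by
        refine Real.sqrt_le_sqrt (h1.trans ?_)
        rw [mul_pow]
        have h5 : (d : ℝ) ≤ d ^ 2 := by nlinarith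
        exact mul_le_mul_of_nonneg_right h5 (sq_nonneg ‖x‖)
    _ = d * ‖x‖ := Real.sqrt_sq (by positivity)

open KD.IV in
private lemma F5_pv {d : ℕ} (v : Ed d) (G : Ed d → ℝ) (hG : Integrable G) (h0 : G v = 0) :
    Tendsto (fun ε : ℝ => ∫ v' in {v' : Ed d | ε ≤ ‖v' - v‖}, G v') (𝓝[>] 0)
      (𝓝 (∫ v', G v')) := by
  have hms : ∀ ε : ℝ, MeasurableSet {v' : Ed d | ε ≤ ‖v' - v‖} := fun ε =>
    measurableSet_le measurable_const (by fun_prop)
  have e : (fun ε : ℝ => ∫ v' in {v' : Ed d | ε ≤ ‖v' - v‖}, G v') =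
      fun ε : ℝ => ∫ v', ({v' : Ed d | ε ≤ ‖v' - v‖}).indicator G v' := by
    funext ε
    rw [integral_indicator (hms ε)]
  rw [e]
  refine tendsto_integral_filter_of_dominated_convergence (fun v' => ‖G v'‖) ?_ ?_ hG.norm ?_
  · exact Eventually.of_forall fun ε => hG.aestronglyMeasurable.indicator (hms ε)
  · refine Eventually.of_forall fun ε => Eventually.of_forall fun v' => ?_
    exact norm_indicator_le_norm_self _ _
  · refine Eventually.of_forall fun v' => ?_
    by_cases hv : v' = v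
    · subst hv
      have : ∀ ε : ℝ, ({v'' : Ed d | ε ≤ ‖v'' - v'‖}).indicator G v' = G v' := by
        intro ε
        by_cases h : v' ∈ {v'' : Ed d | ε ≤ ‖v'' - v'‖}
        · rw [Set.indicator_of_mem h]
        · rw [Set.indicator_of_notMem h, h0]
      simp only [this]
      exact tendsto_const_nhds
    · have hpos : 0 < ‖v' - v‖ := norm_pos_iff.mpr (sub_ne_zero.mpr hv)
      refine tendsto_const_nhds.congr' ?_
      have : ∀ᶠ ε : ℝ in 𝓝[>] 0, ε < ‖v' - v‖ :=
        mem_nhdsWithin_of_mem_nhds (Iio_mem_nhds hpos)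
      filter_upwards [this] with ε hε
      rw [Set.indicator_of_mem]
      exact hε.le

open KD.IV in
/-- the transported function -/
private noncomputable def F5_f {d : ℕ} (F : ℝ → V d → V d → ℝ) (t : ℝ) (x v : Ed d) : ℝ :=
  F t ((toE d).symm x) ((toE d).symm v)

open KD.IV in
/-- the transported kernel -/
private noncomputable def F5_K {d : ℕ} (K : ℝ → V d → V d → V d → ℝ) (t : ℝ) (x v v' : Ed d) : ℝ :=
  K t ((toE d).symm x) ((toE d).symm v) ((toE d).symm (v' - v))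

open KD.IV in
private lemma F5_comp {d : ℕ} (F : ℝ → V d → V d → ℝ) (K : ℝ → V d → V d → V d → ℝ) (t : ℝ)
    (x v : Ed d) :
    (fun v' => (F5_f F t x v' - F5_f F t x v) * F5_K K t x v v') ∘ (fun w : V d => v + toE d w) =
      fun w => (F t ((toE d).symm x) ((toE d).symm v + w) - F t ((toE d).symm x) ((toE d).symm v)) *
        K t ((toE d).symm x) ((toE d).symm v) w := by
  funext w
  simp only [Function.comp, F5_f, F5_K, map_add, ContinuousLinearEquiv.symm_apply_apply,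
    add_sub_cancel_left]

open KD.IV in
private lemma F5_int {d : ℕ} (F : ℝ → V d → V d → ℝ) (K : ℝ → V d → V d → V d → ℝ) (t : ℝ)
    (x v : Ed d)
    (h : Integrable fun w => (F t ((toE d).symm x) ((toE d).symm v + w) -
      F t ((toE d).symm x) ((toE d).symm v)) * K t ((toE d).symm x) ((toE d).symm v) w) :
    Integrable fun v' => (F5_f F t x v' - F5_f F t x v) * F5_K K t x v v' := by
  rw [← F5_comp F K t x v] at h
  exact ((F5_mpv v).integrable_comp_emb (F5_emb v)).mp h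

open KD.IV in
private lemma F5_integral {d : ℕ} (F : ℝ → V d → V d → ℝ) (K : ℝ → V d → V d → V d → ℝ) (t : ℝ)
    (x v : Ed d) :
    ∫ v', (F5_f F t x v' - F5_f F t x v) * F5_K K t x v v' =
      ∫ w, (F t ((toE d).symm x) ((toE d).symm v + w) -
        F t ((toE d).symm x) ((toE d).symm v)) * K t ((toE d).symm x) ((toE d).symm v) w := by
  rw [← F5_comp F K t x v]
  exact ((F5_mpv v).integral_comp (F5_emb v) _).symm

open KD.IV in
private lemma F5_deriv {d : ℕ} (F : ℝ → V d → V d → ℝ)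
    (hF : ContDiff ℝ ∞ (fun a : ℝ × V d × V d => F a.1 a.2.1 a.2.2)) (t : ℝ) (x v : Ed d) :
    deriv (fun τ => F5_f F τ x v) t + fderiv ℝ (fun y => F5_f F t y v) x v =
      fderiv ℝ (fun a : ℝ × V d × V d => F a.1 a.2.1 a.2.2)
        (t, (toE d).symm x, (toE d).symm v) (1, (toE d).symm v, 0) := by
  set x' := (toE d).symm x with hx'
  set v' := (toE d).symm v with hv'
  set Ft : ℝ × V d × V d → ℝ := fun a => F a.1 a.2.1 a.2.2 with hFt
  have hD : DifferentiableAt ℝ Ft (t, x', v') := (hF.differentiable (by simp)) _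
  have hD' := hD.hasFDerivAt
  have h1 : HasDerivAt (fun τ => F5_f F τ x v) (fderiv ℝ Ft (t, x', v') (1, 0, 0)) t := by
    have hc : HasDerivAt (fun τ : ℝ => ((τ, x', v') : ℝ × V d × V d)) (1, 0, 0) t := by
      exact (hasDerivAt_id t).prodMk ((hasDerivAt_const t x').prodMk (hasDerivAt_const t v'))
    exact HasFDerivAt.comp_hasDerivAt t hD' hc
  have h2 : HasFDerivAt (fun y => F5_f F t y v)
      ((fderiv ℝ Ft (t, x', v')).comp
        ((0 : Ed d →L[ℝ] ℝ).prod (((toE d).symm : Ed d →L[ℝ] V d).prod (0 : Ed d →L[ℝ] V d)))) x := by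
    have hc : HasFDerivAt (fun y : Ed d => ((t, (toE d).symm y, v') : ℝ × V d × V d))
        ((0 : Ed d →L[ℝ] ℝ).prod (((toE d).symm : Ed d →L[ℝ] V d).prod (0 : Ed d →L[ℝ] V d))) x := by
      exact (hasFDerivAt_const t x).prodMk
        (((toE d).symm : Ed d →L[ℝ] V d).hasFDerivAt.prodMk (hasFDerivAt_const v' x))
    exact HasFDerivAt.comp x hD' hc
  rw [h1.deriv, h2.fderiv]
  have e : ((1, v', 0) : ℝ × V d × V d) = (1, 0, 0) + (0, v', 0) := by simp
  rw [e, map_add]
  rfl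

open KD.IV in
private lemma F5_dl {d : ℕ} {s : ℝ} (hs : 0 < s) (t : ℝ) (x v : Ed d) {η : ℝ} (hη : 0 ≤ η)
    (hx : ‖x‖ ≤ η ^ (1 + 2 * s)) (hv : ‖v‖ ≤ η) :
    dl s (t, 0, 0) (t, x, v) ≤ η ∧ 0 ≤ dl s (t, 0, 0) (t, x, v) := by
  have hnn : ∀ w : Ed d, 0 ≤ max (max (|t - t| ^ (1 / (2 * s)))
      (‖(0 : Ed d) - x - (t - t) • w‖ ^ (1 / (1 + 2 * s)))) (max ‖(0 : Ed d) - w‖ ‖v - w‖) :=
    fun w => le_max_of_le_right (le_max_of_le_left (norm_nonneg _))
  constructor
  · unfold dl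
    refine (ciInf_le ⟨0, ?_⟩ (0 : Ed d)).trans ?_
    · rintro _ ⟨w, rfl⟩
      exact hnn w
    · simp only [sub_self, abs_zero, smul_zero, sub_zero, zero_sub, norm_neg, norm_zero]
      refine max_le (max_le ?_ ?_) (max_le hη hv)
      · rw [Real.zero_rpow (by positivity)]
        exact hη
      · calc ‖x‖ ^ (1 / (1 + 2 * s)) ≤ (η ^ (1 + 2 * s)) ^ (1 / (1 + 2 * s)) :=
              Real.rpow_le_rpow (norm_nonneg _) hx (by positivity)
          _ = η := by
              rw [← Real.rpow_mul hη, mul_one_div, div_self (by positivity), Real.rpow_one]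
  · exact Real.iInf_nonneg hnn

open KD.IV in
/-- F5: transfer to the Euclidean norm -/
theorem cexE (d : ℕ) (hd : 1 ≤ d) (s lam Lam : ℝ) (hs : 0 < s) (hlam : 0 < lam)
    (hc : ∀ δ : ℝ, 0 < δ → CexV d s lam Lam δ) (α C : ℝ) (hα : 0 < α) :
    ∃ (K : ℝ → Ed d → Ed d → Ed d → ℝ) (f h : ℝ → Ed d → Ed d → ℝ),
      SolE s lam Lam 1 1 K f h ∧ ∃ z ∈ QE d, ∃ z' ∈ QE d,
        C * (1 + 1) * dl s z z' ^ α < |f z.1 z.2.1 z.2.2 - f z'.1 z'.2.1 z'.2.2| := by
  classical
  have hd' : (1 : ℝ) ≤ d := by exact_mod_cast hd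
  -- choice of the scale
  obtain ⟨η, hη0, hη1, hηC⟩ : ∃ η : ℝ, 0 < η ∧ η ≤ 1 / 4 ∧ |C| * 2 * η ^ α ≤ 1 / 4 := by
    set B : ℝ := 1 / (8 * (|C| + 1)) with hB
    have hB0 : 0 < B := by positivity
    refine ⟨min (1 / 4) (B ^ (1 / α)), lt_min (by norm_num) (Real.rpow_pos_of_pos hB0 _),
      min_le_left _ _, ?_⟩
    have h1 : (min (1 / 4) (B ^ (1 / α))) ^ α ≤ B := by
      calc (min (1 / 4) (B ^ (1 / α))) ^ α ≤ (B ^ (1 / α)) ^ α :=
            Real.rpow_le_rpow (le_min (by norm_num) (Real.rpow_nonneg hB0.le _))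
              (min_le_right _ _) hα.le
        _ = B := by rw [← Real.rpow_mul hB0.le, one_div_mul_cancel hα.ne', Real.rpow_one]
    calc |C| * 2 * (min (1 / 4) (B ^ (1 / α))) ^ α ≤ |C| * 2 * B :=
          mul_le_mul_of_nonneg_left h1 (by positivity)
      _ ≤ 1 / 4 := by
          rw [hB, mul_one_div, div_le_div_iff₀ (by positivity) (by norm_num)]
          nlinarith [abs_nonneg C]
  have hηs : η ^ (1 + 2 * s) ≤ η := by
    calc η ^ (1 + 2 * s) ≤ η ^ (1 : ℝ) :=
          Real.rpow_le_rpow_of_exponent_ge hη0 (by linarith) (by linarith)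
      _ = η := Real.rpow_one _
  have hηs0 : 0 < η ^ (1 + 2 * s) := Real.rpow_pos_of_pos hη0 _
  obtain ⟨Kf, F, hKm, hKe, hKb, hKs, hFs, hFb, heq, x, v, hx, hv, hgap⟩ :=
    hc (η ^ (1 + 2 * s) / d) (by positivity)
  have hbound : ∀ y : V d, ‖y‖ ≤ η ^ (1 + 2 * s) / d → ‖toE d y‖ ≤ η ^ (1 + 2 * s) := by
    intro y hy
    calc ‖toE d y‖ ≤ d * ‖y‖ := F5_toE_le hd y
      _ ≤ d * (η ^ (1 + 2 * s) / d) := mul_le_mul_of_nonneg_left hy (by positivity)
      _ = η ^ (1 + 2 * s) := by field_simp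
  have hx' := hbound x hx
  have hv' := hbound v hv
  set dom : ℝ → Ed d → Ed d → Prop := fun t x v => 0 ≤ t ∧ t ≤ 1 ∧ ‖x‖ ≤ 1 ∧ ‖v‖ ≤ 1 with hdom
  set h : ℝ → Ed d → Ed d → ℝ := fun t x v =>
    if dom t x v then deriv (fun τ => F5_f F τ x v) t + fderiv ℝ (fun y => F5_f F t y v) x v -
      ∫ v', (F5_f F t x v' - F5_f F t x v) * F5_K Kf t x v v' else 0 with hh
  have hsymm_le : ∀ y : Ed d, ‖y‖ ≤ 1 → ‖(toE d).symm y‖ ≤ 1 := by
    intro y hy
    have := F5_norm_le ((toE d).symm y)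
    rw [ContinuousLinearEquiv.apply_symm_apply] at this
    exact this.trans hy
  refine ⟨F5_K Kf, F5_f F, h, ?_, ?_⟩
  · refine ⟨?_, ?_, ?_, ?_, ?_, ?_, ?_, ?_, ?_⟩
    · -- measurability
      have hg : Measurable (fun a : ℝ × Ed d × Ed d × Ed d =>
          ((a.1, (toE d).symm a.2.1, (toE d).symm a.2.2.1,
            (toE d).symm (a.2.2.2 - a.2.2.1)) : ℝ × V d × V d × V d)) := by
        have hcont : Continuous (toE d).symm := (toE d).symm.continuous
        refine measurable_fst.prodMk ((hcont.measurable.comp ?_).prodMk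
          ((hcont.measurable.comp ?_).prodMk (hcont.measurable.comp ?_)))
        · exact measurable_snd.fst
        · exact measurable_snd.snd.fst
        · exact measurable_snd.snd.snd.sub measurable_snd.snd.fst
      exact hKm.comp hg
    · intro t y u w
      have e1 : u - w - u = -w := by abel
      have e2 : u + w - u = w := by abel
      simp only [F5_K, e1, e2, map_neg, hKe]
    · intro t y u u' hne
      have hw : (toE d).symm (u' - u) ≠ 0 := by
        intro h0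
        exact hne (sub_eq_zero.mp ((toE d).symm.map_eq_zero_iff.mp h0))
      have := (hKb t ((toE d).symm y) ((toE d).symm u) _ hw).1
      rwa [← F5_e2, ContinuousLinearEquiv.apply_symm_apply] at this
    · intro t y u u' hne
      have hw : (toE d).symm (u' - u) ≠ 0 := by
        intro h0
        exact hne (sub_eq_zero.mp ((toE d).symm.map_eq_zero_iff.mp h0))
      have := (hKb t ((toE d).symm y) ((toE d).symm u) _ hw).2
      rwa [← F5_e2, ContinuousLinearEquiv.apply_symm_apply] at this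
    · intro w
      have hlin : ContDiff ℝ ∞ (fun a : ℝ × Ed d × Ed d =>
          ((a.1, (toE d).symm a.2.1, (toE d).symm a.2.2) : ℝ × V d × V d)) :=
        contDiff_fst.prodMk (((toE d).symm.contDiff.comp contDiff_snd.fst).prodMk
          ((toE d).symm.contDiff.comp contDiff_snd.snd))
      have e : (fun a : ℝ × Ed d × Ed d => F5_K Kf a.1 a.2.1 a.2.2 (a.2.2 + w)) =
          (fun a : ℝ × V d × V d => Kf a.1 a.2.1 a.2.2 ((toE d).symm w)) ∘
            (fun a : ℝ × Ed d × Ed d =>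
              ((a.1, (toE d).symm a.2.1, (toE d).symm a.2.2) : ℝ × V d × V d)) := by
        funext a
        simp only [F5_K, Function.comp, add_sub_cancel_left]
      rw [e]
      exact (hKs ((toE d).symm w)).comp hlin
    · have hlin : ContDiff ℝ ∞ (fun a : ℝ × Ed d × Ed d =>
          ((a.1, (toE d).symm a.2.1, (toE d).symm a.2.2) : ℝ × V d × V d)) :=
        contDiff_fst.prodMk (((toE d).symm.contDiff.comp contDiff_snd.fst).prodMk
          ((toE d).symm.contDiff.comp contDiff_snd.snd))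
      exact hFs.comp hlin
    · intro t y u
      have := hFb t ((toE d).symm y) ((toE d).symm u)
      simp only [F5_f]
      rw [abs_of_nonneg this.1]
      exact this.2
    · intro t y u
      simp only [hh]
      by_cases hdm : dom t y u
      · rw [if_pos hdm, F5_deriv F hFs, F5_integral]
        exact (heq t _ _ hdm.1 hdm.2.1 (hsymm_le y hdm.2.2.1) (hsymm_le u hdm.2.2.2)).2
      · rw [if_neg hdm]
        simp
    · intro t y u ht0 ht1 hy hu
      have hint := F5_int F Kf t y u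
        (heq t _ _ ht0 ht1 (hsymm_le y hy) (hsymm_le u hu)).1
      refine ⟨hint, F5_pv u _ hint (by simp), ?_⟩
      have hdm : dom t y u := ⟨ht0, ht1, hy, hu⟩
      have e : h t y u = deriv (fun τ => F5_f F τ y u) t +
          fderiv ℝ (fun z => F5_f F t z u) y u -
            ∫ v', (F5_f F t y v' - F5_f F t y u) * F5_K Kf t y u v' := if_pos hdm
      linarith [e]
  · refine ⟨(5 / 8, 0, 0), ?_, (5 / 8, toE d x, toE d v), ?_, ?_⟩
    · refine ⟨by norm_num, by norm_num, ?_, ?_⟩ <;> simp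
    · refine ⟨by norm_num, by norm_num, ?_, ?_⟩
      · show ‖toE d x‖ < 1 / 2
        linarith
      · show ‖toE d v‖ < 1 / 2
        linarith
    · obtain ⟨hdl1, hdl0⟩ := F5_dl hs (5 / 8) (toE d x) (toE d v) hη0.le hx' (hv'.trans hηs)
      have h1 : F5_f F (5 / 8) 0 0 - F5_f F (5 / 8) (toE d x) (toE d v) =
          F (5 / 8) 0 0 - F (5 / 8) x v := by
        simp only [F5_f, map_zero, ContinuousLinearEquiv.symm_apply_apply]
      show C * (1 + 1) * dl s (5 / 8, 0, 0) (5 / 8, toE d x, toE d v) ^ α <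
        |F5_f F (5 / 8) 0 0 - F5_f F (5 / 8) (toE d x) (toE d v)|
      rw [h1]
      have h2 : C * (1 + 1) * dl s (5 / 8, 0, 0) (5 / 8, toE d x, toE d v) ^ α ≤
          |C| * 2 * η ^ α := by
        have h3 : dl s (5 / 8, 0, 0) (5 / 8, toE d x, toE d v) ^ α ≤ η ^ α :=
          Real.rpow_le_rpow hdl0 hdl1 hα.le
        have h4 : 0 ≤ dl s (5 / 8, 0, 0) (5 / 8, toE d x, toE d v) ^ α :=
          Real.rpow_nonneg hdl0 _
        calc C * (1 + 1) * dl s (5 / 8, 0, 0) (5 / 8, toE d x, toE d v) ^ α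
            ≤ |C| * (1 + 1) * dl s (5 / 8, 0, 0) (5 / 8, toE d x, toE d v) ^ α := by
              have := le_abs_self C
              gcongr
          _ ≤ |C| * (1 + 1) * η ^ α := by gcongr
          _ = |C| * 2 * η ^ α := by norm_num
      calc C * (1 + 1) * dl s (5 / 8, 0, 0) (5 / 8, toE d x, toE d v) ^ α
          ≤ 1 / 4 := h2.trans hηC
        _ < F (5 / 8) 0 0 - F (5 / 8) x v := by linarith
        _ ≤ |F (5 / 8) 0 0 - F (5 / 8) x v| := le_abs_self _

end KDB
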