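import Pool.Agent.Helper34.KDB.St.K1
import Pool.Agent.Helper75.KDB.P2

/-! KDP-K2: the density of the kicks. -/

set_option autoImplicit false

namespace KDB

open MeasureTheory Set Filter Topology
open scoped ENNReal NNReal ContDiff

variable (p : Par)

theorem kd_prop (hp : p.Ok) :
    Measurable p.kd ∧ (∀ w, 0 ≤ p.kd w) ∧ (∀ w, p.kd (-w) = p.kd w) ∧ Integrable p.kd ∧
      (∀ w, p.rho p.n ≤ ‖w‖ → p.kd w = 0) ∧ 0 < p.kap := by
  refine ⟨?_, I.P2.kd_nonneg p hp, ?_, I.P2.kd_int p hp, ?_, I.P2.kap_pos p hp⟩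
  · rw [I.P2.kd_eq]
    exact (measurable_const.mul (e2_measurable.pow_const _)).indicator (I.P2.SS_meas p)
  · intro w
    unfold Par.kd
    rw [norm_neg, e2_neg]
  · intro w hw
    unfold Par.kd
    rw [if_neg]
    rintro ⟨-, h⟩
    exact absurd h (not_lt.2 hw)

end KDB
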