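import Pool.Agent.Helper34.KDB.St.B4
import Pool.Agent.Helper34.KDB.St.K2
import Pool.Agent.Helper37.KDB.St.P1
import Pool.Agent.Helper37.KDB.St.P2
import Pool.Agent.Helper37.KDB.St.P3

/-! KDP-L1: the laws are probability measures. The statements `labLaw_prob`, `kickLaw_prob`,
`sgLaw_prob`, `stepLaw_prob`, `pathLaw_prob` are those of the pieces P1, P2, P3 of
`Pool.Agent.Helper37.KDB.St` (imported here, same names). -/

set_option autoImplicit false

namespace KDB

open MeasureTheory Set Filter Topology
open scoped ENNReal NNReal ContDiff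

variable (p : Par)

theorem Hok_of (hp : p.Ok) (hh : p.h * (p.kap + p.mr) ≤ 1 / 2) : p.Hok := by
  refine ⟨?_⟩
  have h1 := sum_W_le p hp
  calc p.h * p.kap + ∑ k ∈ Finset.range p.n, p.mu / p.W k ≤ p.h * p.kap + p.h * p.mr :=
        add_le_add le_rfl h1
    _ = p.h * (p.kap + p.mr) := by ring
    _ ≤ 1 / 2 := hh

end KDB
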