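import Pool.Agent.Helper34.KDB.St.B3

/-! KDP-L2: measurability of the chain. -/

set_option autoImplicit false

namespace KDB

open MeasureTheory Set Filter Topology
open scoped ENNReal NNReal ContDiff

variable (p : Par)

/-- the jump with the label as an argument -/
private noncomputable def L2_F (j : ℕ) (n : ℕ) (q : Nz p.d × p.St) : V p.d :=
  if n = 0 then 0
  else if n = 1 then q.1.w
  else if n - 2 < p.n ∧ (p.inA (n - 2) j ∨ p.inB (n - 2) j) then
    q.1.sg • (p.wst (n - 2) j (q.2.1 + p.h • q.2.2 - p.vs • q.1.y1) (q.2.2 - p.vs • q.1.y2) +
      p.rad (n - 2) • q.1.u)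
  else 0

private theorem L2_F_measurable (j n : ℕ) : Measurable (L2_F p j n) := by
  have mw : Measurable fun q : Nz p.d × p.St => q.1.w := by
    change Measurable fun q : Nz p.d × p.St => q.1.2.2.1
    fun_prop
  have mu : Measurable fun q : Nz p.d × p.St => q.1.u := by
    change Measurable fun q : Nz p.d × p.St => q.1.2.2.2.1
    fun_prop
  have my1 : Measurable fun q : Nz p.d × p.St => q.1.y1 := by
    change Measurable fun q : Nz p.d × p.St => q.1.2.2.2.2.1
    fun_prop
  have my2 : Measurable fun q : Nz p.d × p.St => q.1.y2 := by
    change Measurable fun q : Nz p.d × p.St => q.1.2.2.2.2.2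
    fun_prop
  have msg : Measurable fun q : Nz p.d × p.St => q.1.sg := by
    have h1 : Measurable fun b : Bool => (if b then (1 : ℝ) else -1) := measurable_of_countable _
    have h2 : Measurable fun q : Nz p.d × p.St => q.1.2.1 := by fun_prop
    exact h1.comp h2
  unfold L2_F
  split_ifs with h0 h1 h2
  · exact measurable_const
  · exact mw
  · refine msg.smul ?_
    refine Measurable.add ?_ (mu.fun_const_smul _)
    have h3 : Measurable fun q : Nz p.d × p.St =>
        ((q.2.1 + p.h • q.2.2 - p.vs • q.1.y1, q.2.2 - p.vs • q.1.y2) : p.St) := by
      refine Measurable.prodMk ?_ ?_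
      · exact ((measurable_snd.fst).add (measurable_snd.snd.fun_const_smul _)).sub
          (my1.fun_const_smul _)
      · exact (measurable_snd.snd).sub (my2.fun_const_smul _)
    have h4 := (wst_measurable p (n - 2) j).comp h3
    simp only [Function.comp_def] at h4
    exact h4
  · exact measurable_const

private theorem L2_jump (j : ℕ) (q : Nz p.d × p.St) :
    p.jump j q.1 (q.2.1 + p.h • q.2.2) q.2.2 = L2_F p j q.1.1 q := rfl

/-- one step is jointly measurable -/
theorem step_measurable (j : ℕ) :
    Measurable (fun q : Nz p.d × p.St => p.step j q.1 q.2) := by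
  have h1 : Measurable fun q : Nz p.d × p.St =>
      p.jump j q.1 (q.2.1 + p.h • q.2.2) q.2.2 := by
    have h2 : Measurable (Function.uncurry (L2_F p j)) :=
      measurable_from_prod_countable_right fun n => L2_F_measurable p j n
    have h3 : Measurable fun q : Nz p.d × p.St => (q.1.1, q) :=
      Measurable.prodMk (measurable_fst.fst) measurable_id
    exact h2.comp h3
  change Measurable fun q : Nz p.d × p.St =>
    ((q.2.1 + p.h • q.2.2, q.2.2 + p.jump j q.1 (q.2.1 + p.h • q.2.2) q.2.2) : p.St)
  exact Measurable.prodMk ((measurable_snd.fst).add (measurable_snd.snd.fun_const_smul _))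
    ((measurable_snd.snd).add h1)

/-- the chain is a measurable function of the noises -/
theorem run_measurable (N t : ℕ) :
    Measurable (fun om : Fin N → Nz p.d => p.run (p.exte N om) t) := by
  have he : ∀ j, Measurable fun om : Fin N → Nz p.d => p.exte N om j := by
    intro j
    unfold Par.exte
    by_cases hj : j < N
    · simp only [dif_pos hj]
      exact measurable_pi_apply _
    · simp only [dif_neg hj]
      exact measurable_const
  induction t with
  | zero => exact measurable_const
  | succ t ih =>
    change Measurable fun om : Fin N → Nz p.d => p.step t (p.exte N om t) (p.run (p.exte N om) t)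
    exact (step_measurable p t).comp (Measurable.prodMk (he t) ih)

end KDB
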