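import Pool.Agent.Helper34.KDB.St.L1
import Pool.Agent.Helper34.KDB.St.L2

/-! KDP-L3: the law of one step. -/

set_option autoImplicit false

namespace KDB

open MeasureTheory Set Filter Topology
open scoped ENNReal NNReal ContDiff

variable (p : Par)

/-- integral against the law of the label -/
theorem L3_lab (j : ℕ) (F : ℕ → ℝ) (h0 : 0 ≤ 1 - p.h * p.kap - ∑ k ∈ Finset.range p.n, p.pring k j)
    (h1 : 0 ≤ p.h * p.kap) (h2 : ∀ k, 0 ≤ p.pring k j) :
    ∫ n, F n ∂(p.labLaw j) =
      (1 - p.h * p.kap - ∑ k ∈ Finset.range p.n, p.pring k j) * F 0 + (p.h * p.kap) * F 1 +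
        ∑ k ∈ Finset.range p.n, p.pring k j * F (k + 2) := by
  have hi : ∀ (m : ℕ) (c : ℝ≥0∞), c ≠ ⊤ → Integrable F (c • Measure.dirac m) := by
    intro m c hc
    exact (integrable_dirac (by simp)).smul_measure hc
  unfold Par.labLaw
  rw [integral_add_measure, integral_add_measure, integral_finsetSum_measure]
  · simp only [integral_smul_measure, integral_dirac, smul_eq_mul, ENNReal.toReal_ofReal h0,
      ENNReal.toReal_ofReal h1]
    congr 1
    refine Finset.sum_congr rfl fun k _ => ?_
    rw [ENNReal.toReal_ofReal (h2 k)]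
  · intro k _
    exact hi _ _ ENNReal.ofReal_ne_top
  · exact hi _ _ ENNReal.ofReal_ne_top
  · exact hi _ _ ENNReal.ofReal_ne_top
  · exact (hi _ _ ENNReal.ofReal_ne_top).add_measure (hi _ _ ENNReal.ofReal_ne_top)
  · refine integrable_finsetSum_measure.2 ?_
    intro k _
    exact hi _ _ ENNReal.ofReal_ne_top

/-- integral against the law of the kick -/
theorem L3_kick (hp : p.Ok) (g : V p.d → ℝ) :
    p.kap * ∫ w, g w ∂p.kickLaw = ∫ w, g w * p.kd w := by
  obtain ⟨hm, hnn, -, hint, -, hpos⟩ := kd_prop p hp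
  unfold Par.kickLaw
  rw [integral_smul_measure, integral_withDensity_eq_integral_toReal_smul
    hm.ennreal_ofReal (by simp)]
  simp only [smul_eq_mul, ENNReal.toReal_inv, ENNReal.toReal_ofReal hpos.le]
  rw [← mul_assoc, mul_inv_cancel₀ hpos.ne', one_mul]
  refine integral_congr_ae (Eventually.of_forall fun w => ?_)
  simp only
  rw [ENNReal.toReal_ofReal (hnn w), mul_comm]

theorem L3_ind_shift {d : ℕ} {r : ℝ} (hr : 0 < r) (a : V d) :
    Integrable (fun w : V d => ind r (w - a)) ∧ ∫ w : V d, ind r (w - a) = 1 := by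
  obtain ⟨h1, h2⟩ := ind_integral (d := d) hr
  refine ⟨h1.comp_sub_right a, ?_⟩
  rw [integral_sub_right_eq_self (fun w => ind r w) a, h2]

/-- Fubini for the jitter -/
theorem L3_fub {d : ℕ} {r : ℝ} (hr : 0 < r) (g : V d → ℝ) (hg : Measurable g) (B : ℝ)
    (hB : ∀ w, |g w| ≤ B) (c : V d × V d → V d) (hc : Measurable c) :
    Integrable (fun w : V d => g w * ∫ y, ind r (w - c y) ∂(jitLaw d)) ∧
    Integrable (fun y : V d × V d => ∫ w, g w * ind r (w - c y)) (jitLaw d) ∧
    ∫ y, (∫ w, g w * ind r (w - c y)) ∂(jitLaw d) =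
      ∫ w, g w * ∫ y, ind r (w - c y) ∂(jitLaw d) := by
  have hmi : Measurable (fun q : (V d × V d) × V d => ind r (q.2 - c q.1)) :=
    (ind_measurable r).comp (measurable_snd.sub (hc.comp measurable_fst))
  have hI : Integrable (fun q : (V d × V d) × V d => ind r (q.2 - c q.1))
      ((jitLaw d).prod volume) := by
    rw [integrable_prod_iff hmi.aestronglyMeasurable]
    refine ⟨Eventually.of_forall fun y => (L3_ind_shift hr (c y)).1, ?_⟩
    have : (fun y : V d × V d => ∫ w, ‖ind r (w - c y)‖) = fun _ => (1 : ℝ) := by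
      funext y
      have : ∀ w, ‖ind r (w - c y)‖ = ind r (w - c y) := fun w => by
        rw [Real.norm_eq_abs, abs_of_nonneg (ind_nonneg hr.le _)]
      simp only [this]
      exact (L3_ind_shift hr (c y)).2
    simp only [this]
    exact integrable_const _
  have hI2 : Integrable (fun q : (V d × V d) × V d => g q.2 * ind r (q.2 - c q.1))
      ((jitLaw d).prod volume) := by
    refine hI.bdd_mul (c := B) (hg.comp measurable_snd).aestronglyMeasurable ?_
    exact Eventually.of_forall fun q => by simpa using hB q.2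
  have hsw := integral_integral_swap (f := fun (y : V d × V d) (w : V d) => g w * ind r (w - c y))
    (μ := jitLaw d) (ν := volume) hI2
  have e : ∀ w, ∫ y, g w * ind r (w - c y) ∂(jitLaw d) = g w * ∫ y, ind r (w - c y) ∂(jitLaw d) :=
    fun w => integral_const_mul _ _
  refine ⟨?_, hI2.integral_prod_left, ?_⟩
  · have := hI2.integral_prod_right
    simpa only [e] using this
  · rw [hsw]
    simp only [e]

/-- integral against the law of the sign -/
theorem L3_sg (F : Bool → ℝ) : ∫ b, F b ∂sgLaw = (F true + F false) / 2 := by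
  have hi : ∀ m : Bool, Integrable F ((2 : ℝ≥0∞)⁻¹ • Measure.dirac m) := by
    intro m
    exact (integrable_dirac (by simp)).smul_measure (by simp)
  unfold sgLaw
  rw [integral_add_measure (hi _) (hi _)]
  simp only [integral_smul_measure, integral_dirac, smul_eq_mul]
  simp
  ring

/-- one sign of the law of a ring -/
theorem L3_one {d : ℕ} {r : ℝ} (hr : 0 < r) (g : V d → ℝ) (hg : Measurable g) (B : ℝ)
    (hB : ∀ w, |g w| ≤ B) (c : V d × V d → V d) (hc : Measurable c)
    (κ : Measure (V d)) [IsProbabilityMeasure κ] (b : Bool) :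
    ∫ q : V d × V d × (V d × V d), g ((if b = true then (1 : ℝ) else -1) •
        (c q.2.2 + r • q.2.1)) ∂(κ.prod ((uLaw d).prod (jitLaw d))) =
      ∫ w, g w * ∫ y, ind r (w - (if b = true then (1 : ℝ) else -1) • c y) ∂(jitLaw d) := by
  have hs : Measurable (fun w : V d => g ((if b = true then (1 : ℝ) else -1) • w)) :=
    hg.comp (measurable_const_smul _)
  rw [integral_fun_snd (fun q : V d × (V d × V d) =>
    g ((if b = true then (1 : ℝ) else -1) • (c q.2 + r • q.1)))]
  simp only [probReal_univ, one_smul]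
  have hI : Integrable (fun q : V d × (V d × V d) =>
      g ((if b = true then (1 : ℝ) else -1) • (c q.2 + r • q.1))) ((uLaw d).prod (jitLaw d)) := by
    refine Integrable.of_bound (C := B) ?_ (Eventually.of_forall fun q => hB _)
    refine (hs.comp ?_).aestronglyMeasurable
    exact (hc.comp measurable_snd).add (measurable_fst.const_smul r)
  rw [integral_prod_symm _ hI]
  have e1 : ∀ y : V d × V d, ∫ u, g ((if b = true then (1 : ℝ) else -1) • (c y + r • u)) ∂(uLaw d)
      = ∫ w, g w * ind r (w - (if b = true then (1 : ℝ) else -1) • c y) := by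
    intro y
    have h := ind_law hr (fun w : V d => g ((if b = true then (1 : ℝ) else -1) • w)) hs B
      (fun w => hB _) (c y)
    rw [h]
    cases b
    · simp only [Bool.false_eq_true, if_false, neg_smul, one_smul, sub_neg_eq_add]
      rw [← integral_neg_eq_self (fun w => g w * ind r (w + c y)) volume]
      refine integral_congr_ae (Eventually.of_forall fun w => ?_)
      have e0 : ind r (w - c y) = ind r (-w + c y) := by
        rw [← ind_neg r (w - c y), neg_sub, sub_eq_add_neg, add_comm]
      simp only [e0]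
    · simp only [if_true, one_smul]
  refine (integral_congr_ae (Eventually.of_forall fun y => e1 y)).trans ?_
  exact (L3_fub hr g hg B hB (fun y => (if b = true then (1 : ℝ) else -1) • c y)
    ((measurable_const_smul _).comp hc)).2.2

/-- the law of a ring, general centre -/
theorem L3_two {d : ℕ} {r : ℝ} (hr : 0 < r) (G : V d → ℝ) (hG : Measurable G) (B : ℝ)
    (hGB : ∀ w, |G w| ≤ B) (c : V d × V d → V d) (hc : Measurable c)
    (κ : Measure (V d)) [IsProbabilityMeasure κ] :
    Integrable (fun w => G w * ∫ y, (ind r (w - c y) + ind r (w + c y)) / 2 ∂(jitLaw d)) ∧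
    ∫ q : Bool × V d × V d × (V d × V d), G ((if q.1 = true then (1 : ℝ) else -1) •
        (c q.2.2.2 + r • q.2.2.1)) ∂(sgLaw.prod (κ.prod ((uLaw d).prod (jitLaw d)))) =
      ∫ w, G w * ∫ y, (ind r (w - c y) + ind r (w + c y)) / 2 ∂(jitLaw d) := by
  have := sgLaw_prob
  have hcn : Measurable (fun y => -c y) := hc.neg
  have hf1 := L3_fub hr G hG B hGB c hc
  have hf2 := L3_fub hr G hG B hGB (fun y => -c y) hcn
  have hind : ∀ (c' : V d × V d → V d), Measurable c' → ∀ w,
      Integrable (fun y => ind r (w - c' y)) (jitLaw d) := by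
    intro c' hc' w
    refine Integrable.of_bound (C := ((2 * r) ^ d)⁻¹) ?_
      (Eventually.of_forall fun y => ?_)
    · exact ((ind_measurable _).comp (measurable_const.sub hc')).aestronglyMeasurable
    · rw [Real.norm_eq_abs, abs_of_nonneg (ind_nonneg hr.le _)]
      exact ind_le hr.le _
  have hrk : ∀ w, ∫ y, (ind r (w - c y) + ind r (w + c y)) / 2 ∂(jitLaw d) =
      ((∫ y, ind r (w - c y) ∂(jitLaw d)) +
      ∫ y, ind r (w - -c y) ∂(jitLaw d)) / 2 := by
    intro w
    rw [← integral_add (hind _ hc w) (hind _ hcn w), ← integral_div]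
    simp only [sub_neg_eq_add]
  have hfe : (fun w => G w * ∫ y, (ind r (w - c y) + ind r (w + c y)) / 2 ∂(jitLaw d)) = fun w =>
      (G w * (∫ y, ind r (w - c y) ∂(jitLaw d)) +
        G w * ∫ y, ind r (w - -c y) ∂(jitLaw d)) / 2 := by
    funext w
    rw [hrk w]
    ring
  rw [hfe]
  refine ⟨(hf1.1.add hf2.1).div_const 2, ?_⟩
  have hI : Integrable (fun r' : Bool × V d × V d × (V d × V d) =>
      G ((if r'.1 = true then (1 : ℝ) else -1) • (c r'.2.2.2 + r • r'.2.2.1)))
      (sgLaw.prod (κ.prod ((uLaw d).prod (jitLaw d)))) := by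
    refine Integrable.of_bound (C := B) ?_ (Eventually.of_forall fun q => hGB _)
    refine (hG.comp ?_).aestronglyMeasurable
    refine Measurable.fun_smul ?_ ?_
    · exact (measurable_of_countable (fun b : Bool => if b = true then (1 : ℝ) else -1)).comp
        measurable_fst
    · exact (hc.comp (measurable_snd.comp (measurable_snd.comp measurable_snd))).add
        ((measurable_const_smul r).comp
          (measurable_fst.comp (measurable_snd.comp measurable_snd)))
  have hE := integral_prod _ hI
  rw [hE, L3_sg]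
  rw [L3_one hr G hG B hGB c hc κ true, L3_one hr G hG B hGB c hc κ false,
    integral_div, integral_add hf1.1 hf2.1]
  simp only [Bool.false_eq_true, if_false, if_true, neg_smul, one_smul]

/-- the law of a ring -/
theorem L3_ring (hp : p.Ok) (k j : ℕ) (g : p.St → ℝ) (hg : Measurable g) (B : ℝ)
    (hB : ∀ z, |g z| ≤ B) (z : p.St) :
    Integrable (fun w => g (z.1, z.2 + w) * p.rk k j z w) ∧
    ∫ r, g (z.1, z.2 + (if r.1 = true then (1 : ℝ) else -1) •
        (p.wst k j (z.1 - p.vs • r.2.2.2.1) (z.2 - p.vs • r.2.2.2.2) + p.rad k • r.2.2.1))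
        ∂(sgLaw.prod (p.kickLaw.prod ((uLaw p.d).prod (jitLaw p.d)))) =
      ∫ w, g (z.1, z.2 + w) * p.rk k j z w := by
  have := kickLaw_prob p hp
  have hG : Measurable (fun w => g (z.1, z.2 + w)) :=
    hg.comp (measurable_const.prodMk (measurable_const.add measurable_id))
  have hc : Measurable (fun y : V p.d × V p.d =>
      p.wst k j (z.1 - p.vs • y.1) (z.2 - p.vs • y.2)) := by
    have h1 : Measurable (fun y : V p.d × V p.d => ((z.1 - p.vs • y.1, z.2 - p.vs • y.2) : p.St)) :=
      ((measurable_fst.const_smul p.vs).const_sub z.1).prodMk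
        ((measurable_snd.const_smul p.vs).const_sub z.2)
    have h2 := wst_measurable p k j
    generalize p.wst k j = f at h2 ⊢
    exact h2.comp h1
  have h := L3_two (rad_pos p hp k) (fun w => g (z.1, z.2 + w)) hG B (fun w => hB _)
    (fun y : V p.d × V p.d => p.wst k j (z.1 - p.vs • y.1) (z.2 - p.vs • y.2)) hc p.kickLaw
  unfold Par.rk
  exact h

/-- LAW OF ONE STEP -/
theorem step_law (hp : p.Ok) (hH : p.Hok) (j : ℕ) (g : p.St → ℝ) (hg : Measurable g) (B : ℝ)
    (hB : ∀ z, |g z| ≤ B) (a : p.St) :
    ∫ ζ, g (p.step j ζ a) ∂(p.stepLaw j) = TT (p.kfull j) g (Sh p.h a) := by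
  have := kickLaw_prob p hp
  have := sgLaw_prob
  have := labLaw_prob p hp hH j
  have := stepLaw_prob p hp hH j
  set z : p.St := Sh p.h a with hz
  set ν := sgLaw.prod (p.kickLaw.prod ((uLaw p.d).prod (jitLaw p.d))) with hν
  obtain ⟨hkm, hknn, -, hkint, -, hkpos⟩ := kd_prop p hp
  have hh : 0 ≤ p.h := by unfold Par.h; positivity
  have hpr := pring_nonneg p hp
  have hsum : ∑ k ∈ Finset.range p.n, p.pring k j ≤ ∑ k ∈ Finset.range p.n, p.mu / p.W k :=
    Finset.sum_le_sum fun k _ => pring_le p hp k j
  have hw0 : 0 ≤ 1 - p.h * p.kap - ∑ k ∈ Finset.range p.n, p.pring k j := by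
    have := hH.h1
    linarith
  have hstep : Measurable (fun ζ => p.step j ζ a) :=
    (step_measurable p j).comp (measurable_id.prodMk measurable_const)
  have hI : Integrable (fun ζ => g (p.step j ζ a)) ((p.labLaw j).prod ν) := by
    have : IsProbabilityMeasure ((p.labLaw j).prod ν) := stepLaw_prob p hp hH j
    refine Integrable.of_bound (C := B) ?_ (Eventually.of_forall fun q => hB _)
    exact (hg.comp hstep).aestronglyMeasurable
  have hE := integral_prod _ hI
  change ∫ ζ, g (p.step j ζ a) ∂((p.labLaw j).prod ν) = _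
  rw [hE, L3_lab p j _ hw0 (mul_nonneg hh hkpos.le) (fun k => hpr k j)]
  -- label 0
  have h0 : ∫ r, g (p.step j (0, r) a) ∂ν = g z := by
    have : ∀ r, p.step j (0, r) a = z := by
      intro r
      simp [Par.step, Par.jump, Nz.lab, hz, Sh]
    simp only [this]
    simp
  -- label 1
  have h1 : p.kap * ∫ r, g (p.step j (1, r) a) ∂ν = ∫ w, g (z.1, z.2 + w) * p.kd w := by
    have : ∀ r, p.step j (1, r) a = (z.1, z.2 + r.2.1) := by
      intro r
      simp [Par.step, Par.jump, Nz.lab, Nz.w, hz, Sh]
    simp only [this]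
    rw [hν, integral_fun_snd (fun q : V p.d × V p.d × (V p.d × V p.d) => g (z.1, z.2 + q.1)),
      integral_fun_fst (fun q : V p.d => g (z.1, z.2 + q))]
    simp only [probReal_univ, one_smul]
    exact L3_kick p hp (fun w => g (z.1, z.2 + w))
  -- rings
  have h2 : ∀ k ∈ Finset.range p.n, p.pring k j * ∫ r, g (p.step j (k + 2, r) a) ∂ν =
      p.pring k j * ∫ w, g (z.1, z.2 + w) * p.rk k j z w := by
    intro k hk
    have hk' : k < p.n := Finset.mem_range.1 hk
    by_cases hw : p.inA k j ∨ p.inB k j
    · have : ∀ r : Bool × V p.d × V p.d × (V p.d × V p.d), p.step j (k + 2, r) a =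
          (z.1, z.2 + (if r.1 = true then (1 : ℝ) else -1) •
        (p.wst k j (z.1 - p.vs • r.2.2.2.1) (z.2 - p.vs • r.2.2.2.2) + p.rad k • r.2.2.1)) := by
        intro r
        simp [Par.step, Par.jump, Nz.lab, Nz.sg, Nz.u, Nz.y1, Nz.y2, hz, Sh, hk', hw]
      simp only [this]
      rw [(L3_ring p hp k j g hg B hB z).2]
    · rw [not_or] at hw
      rw [pring_zero p k j hw.1 hw.2, zero_mul, zero_mul]
  rw [h0, mul_assoc, h1, Finset.sum_congr rfl h2]
  -- the right side
  have hrkp : ∀ k, Integrable (p.rk k j z) ∧ ∫ w, p.rk k j z w = 1 := fun k =>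
    ⟨(rk_prop p hp k j).2.2.2.2.1 z, (rk_prop p hp k j).2.2.2.2.2.1 z⟩
  have hgk : Integrable (fun w => g (z.1, z.2 + w) * p.kd w) := by
    refine hkint.bdd_mul (c := B) ?_ (Eventually.of_forall fun w => hB _)
    exact (hg.comp (measurable_const.prodMk (measurable_const.add measurable_id))).aestronglyMeasurable
  have hTT : TT (p.kfull j) g z = g z + ∫ w, (p.h * (g (z.1, z.2 + w) * p.kd w) -
      p.h * g z * p.kd w + ∑ k ∈ Finset.range p.n, (p.pring k j * (g (z.1, z.2 + w) * p.rk k j z w)
        - p.pring k j * g z * p.rk k j z w)) := by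
    unfold TT
    congr 1
    refine integral_congr_ae (Eventually.of_forall fun w => ?_)
    simp only [Par.kfull, Par.ra]
    rw [mul_add, Finset.mul_sum]
    congr 1
    · ring
    · refine Finset.sum_congr rfl fun k _ => ?_
      ring
  rw [hTT, integral_add, integral_sub, integral_finsetSum]
  · have : ∀ k ∈ Finset.range p.n, ∫ w, (p.pring k j * (g (z.1, z.2 + w) * p.rk k j z w)
        - p.pring k j * g z * p.rk k j z w) = p.pring k j * (∫ w, g (z.1, z.2 + w) * p.rk k j z w)
        - p.pring k j * g z := by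
      intro k _
      rw [integral_sub, integral_const_mul, integral_const_mul, (hrkp k).2, mul_one]
      · exact (L3_ring p hp k j g hg B hB z).1.const_mul _
      · exact (hrkp k).1.const_mul _
    rw [Finset.sum_congr rfl this, integral_const_mul, integral_const_mul, Finset.sum_sub_distrib,
      ← Finset.sum_mul]
    change _ = g z + (p.h * _ - p.h * g z * p.kap + _)
    ring
  · intro k _
    exact ((L3_ring p hp k j g hg B hB z).1.const_mul _).sub ((hrkp k).1.const_mul _)
  · exact hgk.const_mul _
  · exact hkint.const_mul _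
  · exact (hgk.const_mul _).sub (hkint.const_mul _)
  · refine integrable_finsetSum _ fun k _ => ?_
    exact ((L3_ring p hp k j g hg B hB z).1.const_mul _).sub ((hrkp k).1.const_mul _)

end KDB
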