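import Pool.Agent.Helper34.KDB.St.L3

/-! KDP-L4: the Markov property. -/

set_option autoImplicit false

namespace KDB

open MeasureTheory Set Filter Topology
open scoped ENNReal NNReal ContDiff

variable (p : Par)

/-- the chain depends only on the past noises -/
theorem L4_congr (om om' : ℕ → Nz p.d) (t : ℕ) (h : ∀ i, i < t → om i = om' i) :
    p.run om t = p.run om' t := by
  induction t with
  | zero => rfl
  | succ t ih =>
    have h1 := ih fun i hi => h i (hi.trans (Nat.lt_succ_self t))
    simp only [Par.run]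
    rw [h1, h t (Nat.lt_succ_self t)]

/-- MARKOV PROPERTY -/
theorem markov (hp : p.Ok) (hH : p.Hok) (N j : ℕ) (hj : j < N) (g : p.St → ℝ)
    (hg : Measurable g) (B : ℝ) (hB : ∀ z, |g z| ≤ B) :
    ∫ om, g (p.run (p.exte N om) (j + 1)) ∂(p.pathLaw N) =
      ∫ om, TT (p.kfull j) g (Sh p.h (p.run (p.exte N om) j)) ∂(p.pathLaw N) := by
  obtain ⟨n, rfl⟩ : ∃ n, N = n + 1 := ⟨N - 1, by omega⟩
  have hst : ∀ i : ℕ, IsProbabilityMeasure (p.stepLaw i) := stepLaw_prob p hp hH
  set i : Fin (n + 1) := ⟨j, hj⟩ with hi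
  set μ : Fin (n + 1) → Measure (Nz p.d) := fun k => p.stepLaw k with hμ
  have hμp : ∀ k, IsProbabilityMeasure (μ k) := fun k => hst k
  have hμj : μ i = p.stepLaw j := rfl
  have hmp := (measurePreserving_piFinSuccAbove μ i).symm
  set e := MeasurableEquiv.piFinSuccAbove (fun _ : Fin (n + 1) => Nz p.d) i with he
  have hesymm : ∀ (x : Nz p.d) (r : Fin n → Nz p.d), e.symm (x, r) = i.insertNth x r := by
    intro x r
    rfl
  -- the value at `i`
  have hval : ∀ (x : Nz p.d) (r : Fin n → Nz p.d), p.exte (n + 1) (e.symm (x, r)) j = x := by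
    intro x r
    rw [hesymm, Par.exte, dif_pos hj]
    exact Fin.insertNth_apply_same (α := fun _ => Nz p.d) i x r
  set x0 : Nz p.d := (0, true, 0, 0, (0, 0)) with hx0
  set R : (Fin n → Nz p.d) → p.St := fun r => p.run (p.exte (n + 1) (e.symm (x0, r))) j with hR
  have hind : ∀ (x : Nz p.d) (r : Fin n → Nz p.d),
      p.run (p.exte (n + 1) (e.symm (x, r))) j = R r := by
    intro x r
    refine L4_congr p _ _ j fun k hk => ?_
    have hkN : k < n + 1 := hk.trans hj
    rw [hesymm, hesymm, Par.exte, Par.exte, dif_pos hkN, dif_pos hkN]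
    have hne : (⟨k, hkN⟩ : Fin (n + 1)) ≠ i := by
      intro h
      rw [hi, Fin.mk.injEq] at h
      omega
    obtain ⟨l, hl⟩ := Fin.exists_succAbove_eq hne
    rw [← hl, Fin.insertNth_apply_succAbove, Fin.insertNth_apply_succAbove]
  have hsucc : ∀ (x : Nz p.d) (r : Fin n → Nz p.d),
      p.run (p.exte (n + 1) (e.symm (x, r))) (j + 1) = p.step j x (R r) := by
    intro x r
    change p.step j (p.exte (n + 1) (e.symm (x, r)) j)
      (p.run (p.exte (n + 1) (e.symm (x, r))) j) = _
    rw [hval, hind]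
  have hRm : Measurable R := by
    have h1 : Measurable (fun r : Fin n → Nz p.d => e.symm (x0, r)) :=
      e.symm.measurable.comp (measurable_const.prodMk measurable_id)
    exact (run_measurable p (n + 1) j).comp h1
  set ν : Measure (Fin n → Nz p.d) := Measure.pi fun k => μ (i.succAbove k) with hν
  have hLHS : ∫ om, g (p.run (p.exte (n + 1) om) (j + 1)) ∂(p.pathLaw (n + 1)) =
      ∫ q : Nz p.d × (Fin n → Nz p.d), g (p.step j q.1 (R q.2)) ∂((μ i).prod ν) := by
    have h1 := hmp.integral_comp' (fun om => g (p.run (p.exte (n + 1) om) (j + 1)))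
    change ∫ om, g (p.run (p.exte (n + 1) om) (j + 1)) ∂(Measure.pi μ) = _
    rw [← h1]
    refine integral_congr_ae (Eventually.of_forall fun q => ?_)
    exact congrArg g (hsucc q.1 q.2)
  have hRHS : ∫ om, TT (p.kfull j) g (Sh p.h (p.run (p.exte (n + 1) om) j))
      ∂(p.pathLaw (n + 1)) =
      ∫ q : Nz p.d × (Fin n → Nz p.d), TT (p.kfull j) g (Sh p.h (R q.2)) ∂((μ i).prod ν) := by
    have h1 := hmp.integral_comp'
      (fun om => TT (p.kfull j) g (Sh p.h (p.run (p.exte (n + 1) om) j)))
    change ∫ om, TT (p.kfull j) g (Sh p.h (p.run (p.exte (n + 1) om) j)) ∂(Measure.pi μ) = _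
    rw [← h1]
    refine integral_congr_ae (Eventually.of_forall fun q => ?_)
    exact congrArg (fun a => TT (p.kfull j) g (Sh p.h a)) (hind q.1 q.2)
  rw [hLHS, hRHS, integral_fun_snd (fun r => TT (p.kfull j) g (Sh p.h (R r))), probReal_univ,
    one_smul]
  have hI : Integrable (fun q : Nz p.d × (Fin n → Nz p.d) => g (p.step j q.1 (R q.2)))
      ((μ i).prod ν) := by
    refine Integrable.of_bound (C := B) ?_ (Eventually.of_forall fun q => hB _)
    exact (hg.comp ((step_measurable p j).comp
      (measurable_fst.prodMk (hRm.comp measurable_snd)))).aestronglyMeasurable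
  rw [integral_prod_symm _ hI]
  refine integral_congr_ae (Eventually.of_forall fun r => ?_)
  exact step_law p hp hH j g hg B hB (R r)

end KDB
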