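import Pool.Agent.Helper34.KDB.Defs

/-! KDP-M1: mollification, basic properties. -/

set_option autoImplicit false

namespace KDB

open MeasureTheory Set Filter Topology
open scoped ENNReal NNReal ContDiff

variable {d : ℕ} {ψ : ℝ × V d × V d → ℝ} {η : ℝ} {F : ℝ → V d → V d → ℝ}
  {K : ℝ → V d → V d → V d → ℝ} {R : ℝ → V d → V d → ℝ} {T Lp m W e : ℝ}

theorem exists_Mo (d : ℕ) {η : ℝ} (hη : 0 < η) : ∃ ψ : ℝ × V d × V d → ℝ, Mo ψ η := by
  let f : ContDiffBump (0 : ℝ × V d × V d) := ⟨η / 2, η, by positivity, by linarith⟩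
  refine ⟨f.normed volume, ?_, ?_, ?_, ?_, ?_⟩
  · exact f.contDiff_normed
  · exact fun a => f.nonneg_normed a
  · intro a ha
    by_contra h
    have h1 : a ∈ Function.support (f.normed volume) := h
    rw [f.support_normed_eq, Metric.mem_ball, dist_zero_right] at h1
    exact absurd h1 (not_lt.mpr ha.le)
  · exact f.integrable_normed
  · exact f.integral_normed

theorem M1_compact (hψ : Mo ψ η) : HasCompactSupport ψ := by
  refine HasCompactSupport.intro (isCompact_closedBall (0 : ℝ × V d × V d) η) ?_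
  intro a ha
  apply hψ.supp
  rw [Metric.mem_closedBall, dist_zero_right, not_le] at ha
  exact ha

theorem M1_shift (hF : Measurable (fun p : ℝ × V d × V d => F p.1 p.2.1 p.2.2)) (t : ℝ)
    (x v : V d) :
    Measurable (fun a : ℝ × V d × V d => F (t - a.1) (x - a.2.1) (v - a.2.2)) := by
  exact hF.comp (by fun_prop : Measurable fun a : ℝ × V d × V d =>
    ((t - a.1, x - a.2.1, v - a.2.2) : ℝ × V d × V d))

theorem M1_int (hψ : Mo ψ η)
    (hF : Measurable (fun p : ℝ × V d × V d => F p.1 p.2.1 p.2.2)) (B : ℝ)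
    (hB : ∀ t x v, |F t x v| ≤ B) (t : ℝ) (x v : V d) :
    Integrable (fun a : ℝ × V d × V d => ψ a * F (t - a.1) (x - a.2.1) (v - a.2.2)) := by
  refine hψ.int.mul_bdd (c := B) (M1_shift hF t x v).aestronglyMeasurable ?_
  exact Eventually.of_forall fun a => hB _ _ _

theorem M1_haar2 (d : ℕ) : (volume : Measure (V d × V d)).IsAddHaarMeasure := by
  rw [Measure.volume_eq_prod]; exact Measure.prod.instIsAddHaarMeasure _ _

theorem M1_haar (d : ℕ) : (volume : Measure (ℝ × V d × V d)).IsAddHaarMeasure := by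
  have := M1_haar2 d
  rw [Measure.volume_eq_prod]
  exact Measure.prod.instIsAddHaarMeasure _ _

theorem M1_neg (d : ℕ) : (volume : Measure (ℝ × V d × V d)).IsNegInvariant := by
  have := M1_haar d
  have : BorelSpace (ℝ × V d × V d) := inferInstance
  have : SecondCountableTopology (ℝ × V d × V d) := inferInstance
  have : IsLocallyFiniteMeasure (volume : Measure (ℝ × V d × V d)) := inferInstance
  have : (volume : Measure (ℝ × V d × V d)).Regular :=
    Measure.Regular.of_sigmaCompactSpace_of_isLocallyFiniteMeasure _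
  infer_instance

theorem mol_contDiff (hψ : Mo ψ η)
    (hF : Measurable (fun p : ℝ × V d × V d => F p.1 p.2.1 p.2.2)) (B : ℝ)
    (hB : ∀ t x v, |F t x v| ≤ B) :
    ContDiff ℝ ∞ (fun p : ℝ × V d × V d => mol ψ F p.1 p.2.1 p.2.2) := by
  have hloc : LocallyIntegrable (fun p : ℝ × V d × V d => F p.1 p.2.1 p.2.2) volume := by
    refine (locallyIntegrable_const B).mono hF.aestronglyMeasurable ?_
    refine Eventually.of_forall fun a => ?_
    rw [Real.norm_eq_abs, Real.norm_eq_abs]
    exact (hB _ _ _).trans (le_abs_self B)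
  have := M1_haar d
  have := M1_neg d
  have h := (M1_compact hψ).contDiff_convolution_left (ContinuousLinearMap.lsmul ℝ ℝ)
    (μ := volume) hψ.smooth hloc
  exact h

/-- the mollification is an average of the values at distance at most `η` -/
theorem mol_range (hψ : Mo ψ η)
    (hF : Measurable (fun p : ℝ × V d × V d => F p.1 p.2.1 p.2.2)) (B : ℝ)
    (hB : ∀ t x v, |F t x v| ≤ B) (t : ℝ) (x v : V d) (a b : ℝ)
    (h : ∀ y : ℝ × V d × V d, ‖y‖ ≤ η →
      a ≤ F (t - y.1) (x - y.2.1) (v - y.2.2) ∧ F (t - y.1) (x - y.2.1) (v - y.2.2) ≤ b) :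
    a ≤ mol ψ F t x v ∧ mol ψ F t x v ≤ b := by
  have hc : ∀ c : ℝ, ∫ y, ψ y * c = c := by
    intro c
    rw [integral_mul_const, hψ.one, one_mul]
  have hI := M1_int hψ hF B hB t x v
  constructor
  · rw [← hc a]
    refine integral_mono (hψ.int.mul_const a) hI fun y => ?_
    by_cases hy : ‖y‖ ≤ η
    · exact mul_le_mul_of_nonneg_left (h y hy).1 (hψ.nonneg y)
    · simp only [hψ.supp y (not_le.mp hy), zero_mul, le_refl]
  · rw [← hc b]
    refine integral_mono hI (hψ.int.mul_const b) fun y => ?_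
    by_cases hy : ‖y‖ ≤ η
    · exact mul_le_mul_of_nonneg_left (h y hy).2 (hψ.nonneg y)
    · simp only [hψ.supp y (not_le.mp hy), zero_mul, le_refl]

theorem mol_close (hψ : Mo ψ η)
    (hF : Measurable (fun p : ℝ × V d × V d => F p.1 p.2.1 p.2.2)) (B : ℝ)
    (hB : ∀ t x v, |F t x v| ≤ B) (t : ℝ) (x v : V d) (t' : ℝ) (x' v' : V d) (δ : ℝ)
    (h : ∀ y : ℝ × V d × V d, ‖y‖ ≤ η →
      |F (t - y.1) (x - y.2.1) (v - y.2.2) - F (t' - y.1) (x' - y.2.1) (v' - y.2.2)| ≤ δ) :
    |mol ψ F t x v - mol ψ F t' x' v'| ≤ δ := by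
  have hI := M1_int hψ hF B hB t x v
  have hI' := M1_int hψ hF B hB t' x' v'
  unfold mol
  rw [← integral_sub hI hI', ← Real.norm_eq_abs]
  calc ‖∫ a, (ψ a * F (t - a.1) (x - a.2.1) (v - a.2.2) -
        ψ a * F (t' - a.1) (x' - a.2.1) (v' - a.2.2))‖
      ≤ ∫ a, ψ a * δ := by
        refine norm_integral_le_of_norm_le (hψ.int.mul_const δ) (Eventually.of_forall fun y => ?_)
        rw [← mul_sub, norm_mul, Real.norm_of_nonneg (hψ.nonneg y), Real.norm_eq_abs]
        by_cases hy : ‖y‖ ≤ η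
        · exact mul_le_mul_of_nonneg_left (h y hy) (hψ.nonneg y)
        · simp only [hψ.supp y (not_le.mp hy), zero_mul, le_refl]
    _ = δ := by rw [integral_mul_const, hψ.one, one_mul]

end KDB
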