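import Pool.Agent.Helper34.KDB.St.M1

/-! KDP-M2: the derivative of the mollification along the characteristics. -/

set_option autoImplicit false

namespace KDB

open MeasureTheory Set Filter Topology
open scoped ENNReal NNReal ContDiff

variable {d : ℕ} {ψ : ℝ × V d × V d → ℝ} {η : ℝ} {F : ℝ → V d → V d → ℝ}
  {K : ℝ → V d → V d → V d → ℝ} {R : ℝ → V d → V d → ℝ} {T Lp m W e : ℝ}

private lemma M2_int (hψ : Mo ψ η) {f : ℝ × V d × V d → ℝ} (hf : Continuous f) {B : ℝ}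
    (hB : ∀ a, |f a| ≤ B) : Integrable (fun a => ψ a * f a) := by
  refine Integrable.mono' (g := fun a => ψ a * B) (hψ.int.mul_const B)
    (hψ.smooth.continuous.mul hf).aestronglyMeasurable (Eventually.of_forall fun a => ?_)
  rw [Real.norm_eq_abs, abs_mul, abs_of_nonneg (hψ.nonneg a)]
  exact mul_le_mul_of_nonneg_left (hB a) (hψ.nonneg a)

private lemma M2_cont (hA : Apx F K R T Lp m W e) {f : ℝ × V d × V d → ℝ}
    {g h : ℝ × V d × V d → V d} (hf : Continuous f) (hg : Continuous g) (hh : Continuous h) :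
    Continuous (fun a => F (f a) (g a) (h a)) :=
  hA.cont.comp (hf.prodMk (hg.prodMk hh))

private lemma M2_abs (hA : Apx F K R T Lp m W e) (t : ℝ) (x v : V d) : |F t x v| ≤ 1 :=
  abs_le.2 ⟨by linarith [(hA.mem t x v).1], (hA.mem t x v).2⟩

private lemma M2_norms (a : ℝ × V d × V d) : |a.1| ≤ ‖a‖ ∧ ‖a.2.2‖ ≤ ‖a‖ :=
  ⟨norm_fst_le a, (norm_snd_le a.2).trans (norm_snd_le a)⟩

private lemma M2_lim (hA : Apx F K R T Lp m W e) (hψ : Mo ψ η) (t : ℝ)
    (x v : V d) (ht : η ≤ t) :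
    Tendsto (fun τ : ℝ => ∫ a : ℝ × V d × V d, ψ a * ((F (t - a.1 + τ)
      (x - a.2.1 - τ • (v - a.2.2)) (v - a.2.2) - F (t - a.1) (x - a.2.1) (v - a.2.2)) / τ))
      (𝓝[>] 0) (𝓝 (mol ψ R t x v)) := by
  unfold mol
  apply tendsto_integral_filter_of_dominated_convergence (fun a => ψ a * m)
  · refine Eventually.of_forall fun τ => ?_
    apply Continuous.aestronglyMeasurable
    refine hψ.smooth.continuous.mul (Continuous.div_const (Continuous.sub ?_ ?_) _)
    · exact M2_cont hA (by fun_prop) (by fun_prop) (by fun_prop)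
    · exact M2_cont hA (by fun_prop) (by fun_prop) (by fun_prop)
  · filter_upwards [self_mem_nhdsWithin] with τ hτ
    have hτ0 : (0 : ℝ) < τ := hτ
    refine Eventually.of_forall fun a => ?_
    rw [Real.norm_eq_abs, abs_mul, abs_of_nonneg (hψ.nonneg a)]
    by_cases ha : ‖a‖ ≤ η
    · refine mul_le_mul_of_nonneg_left ?_ (hψ.nonneg a)
      rw [abs_div, abs_of_pos hτ0, div_le_iff₀ hτ0]
      refine hA.charb _ _ _ _ ?_ hτ0.le
      have := (le_abs_self a.1).trans ((M2_norms a).1)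
      linarith
    · rw [hψ.supp a (not_le.1 ha)]; simp
  · exact hψ.int.mul_const m
  · refine Eventually.of_forall fun a => ?_
    by_cases ha : ‖a‖ ≤ η
    · have h0 : 0 ≤ t - a.1 := by
        have := (le_abs_self a.1).trans ((M2_norms a).1)
        linarith
      refine Tendsto.const_mul _ ?_
      refine tendsto_const_nhds.congr' ?_
      filter_upwards [hA.char (t - a.1) (x - a.2.1) (v - a.2.2) h0, self_mem_nhdsWithin]
        with τ h1 h2
      have hτ0 : (0 : ℝ) < τ := h2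
      rw [h1]; field_simp; ring
    · rw [hψ.supp a (not_le.1 ha)]; simp

/-- the derivative along the characteristics -/
theorem mol_char (hA : Apx F K R T Lp m W e) (hLp : 0 ≤ Lp) (hψ : Mo ψ η) (hη : 0 ≤ η) (t : ℝ)
    (x v : V d) (ht : η ≤ t) (hT : t + η < T) :
    |fderiv ℝ (fun p : ℝ × V d × V d => mol ψ F p.1 p.2.1 p.2.2) (t, x, v) (1, -v, 0) -
      mol ψ R t x v| ≤ Lp * η := by
  have hFm : Measurable (fun p : ℝ × V d × V d => F p.1 p.2.1 p.2.2) := hA.cont.measurable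
  have hG := mol_contDiff hψ hFm 1 (M2_abs hA)
  set G : ℝ × V d × V d → ℝ := fun p => mol ψ F p.1 p.2.1 p.2.2 with hGdef
  have hd : DifferentiableAt ℝ G (t, x, v) := (hG.differentiable (by simp)).differentiableAt
  have hline : Tendsto (fun τ : ℝ => τ⁻¹ • (G ((t, x, v) + τ • (1, -v, 0)) - G (t, x, v)))
      (𝓝[>] 0) (𝓝 (fderiv ℝ G (t, x, v) (1, -v, 0))) :=
    (hd.hasFDerivAt.hasLineDerivAt (1, -v, 0)).tendsto_slope_zero_right
  have hD := M2_lim hA hψ t x v ht
  refine le_of_tendsto (hline.sub hD).abs ?_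
  have hT' : 0 < T - t - η := by linarith
  filter_upwards [self_mem_nhdsWithin, mem_nhdsWithin_of_mem_nhds (Iio_mem_nhds hT')]
    with τ h1 h2
  have hτ0 : (0 : ℝ) < τ := h1
  have hτ1 : τ < T - t - η := h2
  have e1 : G ((t, x, v) + τ • (1, -v, 0)) = ∫ a : ℝ × V d × V d,
      ψ a * F (t - a.1 + τ) (x - a.2.1 - τ • v) (v - a.2.2) := by
    simp only [hGdef, mol]
    refine integral_congr_ae (Eventually.of_forall fun a => ?_)
    have q1 : ((t, x, v) + τ • ((1 : ℝ), -v, (0 : V d))).1 - a.1 = t - a.1 + τ := by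
      simp; ring
    have q2 : ((t, x, v) + τ • ((1 : ℝ), -v, (0 : V d))).2.1 - a.2.1 = x - a.2.1 - τ • v := by
      simp only [Prod.smul_mk, Prod.mk_add_mk, smul_neg]; abel
    have q3 : ((t, x, v) + τ • ((1 : ℝ), -v, (0 : V d))).2.2 - a.2.2 = v - a.2.2 := by
      simp
    simp only [q1, q2, q3]
  have e2 : G (t, x, v) = ∫ a : ℝ × V d × V d,
      ψ a * F (t - a.1) (x - a.2.1) (v - a.2.2) := rfl
  have i1 : Integrable (fun a : ℝ × V d × V d =>
      ψ a * F (t - a.1 + τ) (x - a.2.1 - τ • v) (v - a.2.2)) :=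
    M2_int hψ (M2_cont hA (by fun_prop) (by fun_prop) (by fun_prop)) fun a => M2_abs hA _ _ _
  have i2 : Integrable (fun a : ℝ × V d × V d =>
      ψ a * F (t - a.1) (x - a.2.1) (v - a.2.2)) :=
    M2_int hψ (M2_cont hA (by fun_prop) (by fun_prop) (by fun_prop)) fun a => M2_abs hA _ _ _
  have i3 : Integrable (fun a : ℝ × V d × V d =>
      ψ a * F (t - a.1 + τ) (x - a.2.1 - τ • (v - a.2.2)) (v - a.2.2)) :=
    M2_int hψ (M2_cont hA (by fun_prop) (by fun_prop) (by fun_prop)) fun a => M2_abs hA _ _ _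
  have e3 : ∫ a : ℝ × V d × V d, ψ a * ((F (t - a.1 + τ)
      (x - a.2.1 - τ • (v - a.2.2)) (v - a.2.2) - F (t - a.1) (x - a.2.1) (v - a.2.2)) / τ) =
      τ⁻¹ * ((∫ a : ℝ × V d × V d, ψ a * F (t - a.1 + τ) (x - a.2.1 - τ • (v - a.2.2))
        (v - a.2.2)) - ∫ a : ℝ × V d × V d, ψ a * F (t - a.1) (x - a.2.1) (v - a.2.2)) := by
    rw [← integral_sub i3 i2, ← integral_const_mul]
    refine integral_congr_ae (Eventually.of_forall fun a => ?_)
    simp only []
    ring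
  rw [e3, e1, e2, smul_eq_mul]
  have e4 : τ⁻¹ * ((∫ a : ℝ × V d × V d, ψ a * F (t - a.1 + τ) (x - a.2.1 - τ • v)
        (v - a.2.2)) - ∫ a : ℝ × V d × V d, ψ a * F (t - a.1) (x - a.2.1) (v - a.2.2)) -
      τ⁻¹ * ((∫ a : ℝ × V d × V d, ψ a * F (t - a.1 + τ) (x - a.2.1 - τ • (v - a.2.2))
        (v - a.2.2)) - ∫ a : ℝ × V d × V d, ψ a * F (t - a.1) (x - a.2.1) (v - a.2.2)) =
      τ⁻¹ * ∫ a : ℝ × V d × V d, (ψ a * F (t - a.1 + τ) (x - a.2.1 - τ • v) (v - a.2.2) -
        ψ a * F (t - a.1 + τ) (x - a.2.1 - τ • (v - a.2.2)) (v - a.2.2)) := by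
    rw [integral_sub i1 i3]; ring
  rw [e4, abs_mul, abs_of_pos (inv_pos.2 hτ0), inv_mul_le_iff₀ hτ0, ← Real.norm_eq_abs]
  have e5 : ∫ a : ℝ × V d × V d, ψ a * (τ * (Lp * η)) = τ * (Lp * η) := by
    rw [integral_mul_const, hψ.one, one_mul]
  rw [← e5]
  refine norm_integral_le_of_norm_le (hψ.int.mul_const _) (Eventually.of_forall fun a => ?_)
  rw [← mul_sub, Real.norm_eq_abs, abs_mul, abs_of_nonneg (hψ.nonneg a)]
  by_cases ha : ‖a‖ ≤ η
  · refine mul_le_mul_of_nonneg_left ?_ (hψ.nonneg a)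
    have n1 := (M2_norms a).1
    have n2 := (M2_norms a).2
    have n3 := abs_le.1 (n1.trans ha)
    refine (hA.lip _ _ _ _ _ (by linarith) (by linarith)).trans ?_
    have e6 : x - a.2.1 - τ • v - (x - a.2.1 - τ • (v - a.2.2)) = -(τ • a.2.2) := by
      rw [smul_sub]; abel
    rw [e6, sub_self, norm_zero, norm_neg, norm_smul, Real.norm_eq_abs, abs_of_pos hτ0,
      max_eq_left (by positivity)]
    have : τ * ‖a.2.2‖ ≤ τ * η := mul_le_mul_of_nonneg_left (n2.trans ha) hτ0.le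
    calc Lp * (τ * ‖a.2.2‖) ≤ Lp * (τ * η) := mul_le_mul_of_nonneg_left this hLp
      _ = τ * (Lp * η) := by ring
  · rw [hψ.supp a (not_le.1 ha)]; simp

end KDB
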