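import Pool.Agent.Helper34.KDB.St.A1
import Pool.Agent.Helper34.KDB.St.D1
import Pool.Agent.Helper34.KDB.St.B4
import Pool.Agent.Helper34.KDB.St.K2

/-! KDP-V1: the kernels of the chain are admissible. -/

set_option autoImplicit false

namespace KDB

open MeasureTheory Set Filter Topology
open scoped ENNReal NNReal ContDiff

variable (p : Par)

private theorem V1_h_pos (hp : p.Ok) : 0 < p.h := by
  have h1 : (0 : ℝ) < p.L := by
    have := hp.hL
    exact_mod_cast (show 0 < p.L by omega)
  have h2 : (0 : ℝ) < p.H := by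
    have := hp.hH
    exact_mod_cast (show 0 < p.H by omega)
  unfold Par.h
  positivity

private theorem V1_h_le (hp : p.Ok) : p.h ≤ 1 := by
  have h1 : (1 : ℝ) ≤ p.L := by
    have := hp.hL
    exact_mod_cast (show 1 ≤ p.L by omega)
  have h2 : (1 : ℝ) ≤ p.H := by
    have := hp.hH
    exact_mod_cast this
  unfold Par.h
  have h3 : (1 : ℝ) ≤ (p.H : ℝ) * (p.L : ℝ) ^ p.q := by
    have := one_le_pow₀ (n := p.q) h1
    nlinarith
  rw [div_le_one (by linarith)]
  exact h3

private theorem V1_mr_nonneg (hp : p.Ok) : 0 ≤ p.mr := by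
  have := hp.hmu
  unfold Par.mr
  positivity

private theorem V1_cc_nonneg (hp : p.Ok) : 0 ≤ p.cc := by
  have := V1_mr_nonneg p hp
  have := hp.hvs
  unfold Par.cc
  positivity

private theorem V1_rho_nonneg (k : ℕ) : 0 ≤ p.rho k := by
  unfold Par.rho
  positivity

private theorem V1_rho_le (hp : p.Ok) (k : ℕ) : p.rho k ≤ p.L * p.rho k := by
  have h1 : (1 : ℝ) ≤ p.L := by
    have := hp.hL
    exact_mod_cast (show 1 ≤ p.L by omega)
  nlinarith [V1_rho_nonneg p k]

private theorem V1_bump_measurable {E : Type*} [SeminormedAddCommGroup E] [MeasurableSpace E]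
    [BorelSpace E] (G : Finset E) : Measurable (bump G) := by
  have h : LipschitzWith 1 (bump G) := by
    refine LipschitzWith.of_dist_le_mul fun x y => ?_
    rw [Real.dist_eq, NNReal.coe_one, one_mul, dist_eq_norm]
    exact bump_lip G x y
  exact h.continuous.measurable

theorem kfull_ok (hp : p.Ok) (j : ℕ) :
    KOk (p.kfull j) (p.h * (p.kap + p.mr)) (p.h * p.cc) (p.L * p.rho p.n) := by
  obtain ⟨kd1, kd2, kd3, kd4, kd5, kd6⟩ := kd_prop p hp
  obtain ⟨ra1, ra2, ra3, ra4, ra5, ra6, ra7⟩ := ra_prop p hp j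
  have hh := V1_h_pos p hp
  have hmr := V1_mr_nonneg p hp
  refine ⟨?_, ?_, ?_, ?_, ?_, ?_, ?_⟩
  · exact ((kd1.comp measurable_snd).const_mul p.h).add ra1
  · intro z w
    exact add_nonneg (mul_nonneg hh.le (kd2 w)) (ra2 z w)
  · intro z
    exact (kd4.const_mul p.h).add (ra4 z)
  · intro z
    have h1 : ∫ w, p.kfull j z w = p.h * p.kap + ∫ w, p.ra j z w := by
      unfold Par.kfull Par.kap
      rw [integral_add (kd4.const_mul p.h) (ra4 z), integral_const_mul]
    rw [h1, mul_add]
    exact add_le_add le_rfl (ra5 z)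
  · intro z z'
    have h1 : ∀ w, |p.kfull j z w - p.kfull j z' w| = |p.ra j z w - p.ra j z' w| := by
      intro w
      unfold Par.kfull
      congr 1
      ring
    simp only [h1]
    refine (ra7 z z').trans ?_
    have h2 : 0 ≤ p.h * p.mr * ‖z - z'‖ := by positivity
    unfold Par.cc
    nlinarith [h2]
  · intro z w hw
    unfold Par.kfull
    rw [kd5 w ((V1_rho_le p hp p.n).trans hw.le), ra6 z w hw]
    ring
  · intro z w
    unfold Par.kfull
    rw [kd3, ra3]

theorem ker_ok (hp : p.Ok) (N : ℕ) (G : ℕ → Finset p.St) (i : ℕ) :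
    KOk (p.ker N G i) (p.h * (p.kap + p.mr)) (p.h * p.cc) (p.L * p.rho p.n) := by
  obtain ⟨kd1, kd2, kd3, kd4, kd5, kd6⟩ := kd_prop p hp
  obtain ⟨ra1, ra2, ra3, ra4, ra5, ra6, ra7⟩ := ra_prop p hp (N - 1 - i)
  have hh := V1_h_pos p hp
  have hmr := V1_mr_nonneg p hp
  have hcc := V1_cc_nonneg p hp
  by_cases hi : i < N
  swap
  · have h0 : p.ker N G i = fun _ w => p.h * p.kd w := by
      funext z w
      unfold Par.ker
      rw [if_neg hi, add_zero]
    rw [h0]
    refine ⟨?_, ?_, ?_, ?_, ?_, ?_, ?_⟩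
    · exact (kd1.comp measurable_snd).const_mul p.h
    · intro z w
      exact mul_nonneg hh.le (kd2 w)
    · intro z
      exact kd4.const_mul p.h
    · intro z
      rw [integral_const_mul]
      change p.h * p.kap ≤ _
      nlinarith [mul_nonneg hh.le hmr]
    · intro z z'
      simp only [sub_self, abs_zero, integral_zero]
      positivity
    · intro z w hw
      rw [kd5 w ((V1_rho_le p hp p.n).trans hw.le), mul_zero]
    · intro z w
      simp only [kd3]
  · have h0 : p.ker N G i = fun z w => p.h * p.kd w + bump (G (N - i)) z * p.ra (N - 1 - i) z w := by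
      funext z w
      unfold Par.ker
      rw [if_pos hi]
    have hb0 := bump_nonneg (G (N - i))
    have hb1 := bump_le_one (G (N - i))
    have hbm : Measurable (bump (G (N - i))) := V1_bump_measurable _
    rw [h0]
    refine ⟨?_, ?_, ?_, ?_, ?_, ?_, ?_⟩
    · exact ((kd1.comp measurable_snd).const_mul p.h).add ((hbm.comp measurable_fst).mul ra1)
    · intro z w
      exact add_nonneg (mul_nonneg hh.le (kd2 w)) (mul_nonneg (hb0 z) (ra2 z w))
    · intro z
      exact (kd4.const_mul p.h).add ((ra4 z).const_mul _)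
    · intro z
      rw [integral_add (kd4.const_mul p.h) ((ra4 z).const_mul _), integral_const_mul,
        integral_const_mul, mul_add]
      change p.h * p.kap + _ ≤ _
      have h1 : 0 ≤ ∫ w, p.ra (N - 1 - i) z w := integral_nonneg fun w => ra2 z w
      have h2 : bump (G (N - i)) z * ∫ w, p.ra (N - 1 - i) z w ≤ 1 * ∫ w, p.ra (N - 1 - i) z w :=
        mul_le_mul_of_nonneg_right (hb1 z) h1
      have h3 := ra5 z
      linarith
    · intro z z'
      have h1 : ∀ w, |(p.h * p.kd w + bump (G (N - i)) z * p.ra (N - 1 - i) z w) -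
          (p.h * p.kd w + bump (G (N - i)) z' * p.ra (N - 1 - i) z' w)| ≤
          ‖z - z'‖ * p.ra (N - 1 - i) z w + |p.ra (N - 1 - i) z w - p.ra (N - 1 - i) z' w| := by
        intro w
        have e1 : (p.h * p.kd w + bump (G (N - i)) z * p.ra (N - 1 - i) z w) -
          (p.h * p.kd w + bump (G (N - i)) z' * p.ra (N - 1 - i) z' w) =
          (bump (G (N - i)) z - bump (G (N - i)) z') * p.ra (N - 1 - i) z w +
          bump (G (N - i)) z' * (p.ra (N - 1 - i) z w - p.ra (N - 1 - i) z' w) := by ring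
        rw [e1]
        refine (abs_add_le _ _).trans ?_
        rw [abs_mul, abs_mul, abs_of_nonneg (ra2 z w), abs_of_nonneg (hb0 z')]
        have e2 := bump_lip (G (N - i)) z z'
        have e3 := hb1 z'
        have e4 := abs_nonneg (p.ra (N - 1 - i) z w - p.ra (N - 1 - i) z' w)
        have e5 := mul_le_mul_of_nonneg_right e2 (ra2 z w)
        have e6 := mul_le_mul_of_nonneg_right e3 e4
        linarith
      have h2 : Integrable (fun w => |p.ra (N - 1 - i) z w - p.ra (N - 1 - i) z' w|) :=
        ((ra4 z).sub (ra4 z')).abs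
      have h3 : Integrable (fun w => ‖z - z'‖ * p.ra (N - 1 - i) z w) := (ra4 z).const_mul _
      have h4 := integral_mono_of_nonneg (μ := volume)
        (Filter.Eventually.of_forall fun w => abs_nonneg
          ((p.h * p.kd w + bump (G (N - i)) z * p.ra (N - 1 - i) z w) -
          (p.h * p.kd w + bump (G (N - i)) z' * p.ra (N - 1 - i) z' w))) (h3.add h2)
        (Filter.Eventually.of_forall h1)
      refine h4.trans ?_
      have h5 : ∫ w, (((fun w => ‖z - z'‖ * p.ra (N - 1 - i) z w) +
          fun w => |p.ra (N - 1 - i) z w - p.ra (N - 1 - i) z' w|) w) =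
          ‖z - z'‖ * (∫ w, p.ra (N - 1 - i) z w) +
            ∫ w, |p.ra (N - 1 - i) z w - p.ra (N - 1 - i) z' w| := by
        rw [← integral_const_mul]
        exact integral_add h3 h2
      rw [h5]
      have h6 := mul_le_mul_of_nonneg_left (ra5 z) (norm_nonneg (z - z'))
      have h7 := ra7 z z'
      unfold Par.cc
      nlinarith [h6, h7]
    · intro z w hw
      rw [kd5 w ((V1_rho_le p hp p.n).trans hw.le), ra6 z w hw]
      ring
    · intro z w
      simp only [kd3, ra3]

theorem rec_ok (hp : p.Ok) (hh : p.h * (p.kap + p.mr) ≤ 1 / 2) (N : ℕ)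
    (G : ℕ → Finset p.St) :
    RecOk p.h (p.ker N G) (bump (G N)) (p.kap + p.mr) p.cc (p.L * p.rho p.n) where
  h0 := V1_h_pos p hp
  h1 := V1_h_le p hp
  m0 := add_nonneg (kd_prop p hp).2.2.2.2.2.le (V1_mr_nonneg p hp)
  c0 := V1_cc_nonneg p hp
  W0 := mul_nonneg (Nat.cast_nonneg _) (V1_rho_nonneg p p.n)
  hm := by linarith
  hk := fun i => ker_ok p hp N G i
  f01 := fun z => ⟨bump_nonneg _ z, bump_le_one _ z⟩
  f0l := fun z z' => bump_lip _ z z'

/-- the recursion with rings only near the sets is close to the recursion with all rings -/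
theorem TT_compare (hp : p.Ok) (hh : p.h * (p.kap + p.mr) ≤ 1 / 2) (N : ℕ)
    (G : ℕ → Finset p.St) (j : ℕ) (hj : j < N) (f : p.St → ℝ) (hf : Measurable f)
    (h01 : ∀ z, 0 ≤ f z ∧ f z ≤ 1) (z : p.St) :
    TT (p.kfull j) f z ≤ TT (p.ker N G (N - 1 - j)) f z +
      p.h * p.mr * (1 - bump (G (j + 1)) z) := by
  have _ := hh
  obtain ⟨ra1, ra2, ra3, ra4, ra5, ra6, ra7⟩ := ra_prop p hp j
  have hb0 := bump_nonneg (G (j + 1)) z
  have hb1 := bump_le_one (G (j + 1)) z
  have e0 : ∀ w, p.kfull j z w - p.ker N G (N - 1 - j) z w =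
      (1 - bump (G (j + 1)) z) * p.ra j z w := by
    intro w
    unfold Par.kfull Par.ker
    rw [if_pos (by omega), show N - (N - 1 - j) = j + 1 by omega,
      show N - 1 - (N - 1 - j) = j by omega]
    ring
  have hint : ∀ k : V p.d → ℝ, Integrable k →
      Integrable (fun w => (f (z.1, z.2 + w) - f z) * k w) := by
    intro k hk
    refine hk.bdd_mul (c := 1) ?_ ?_
    · refine Measurable.aestronglyMeasurable ?_
      exact (hf.comp (measurable_const.prodMk (measurable_const.add measurable_id))).sub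
        measurable_const
    · refine Filter.Eventually.of_forall fun w => ?_
      rw [Real.norm_eq_abs, abs_le]
      constructor <;> linarith [(h01 (z.1, z.2 + w)).1, (h01 (z.1, z.2 + w)).2, (h01 z).1, (h01 z).2]
  have i1 := hint _ ((kfull_ok p hp j).int z)
  have i2 := hint _ ((ker_ok p hp N G (N - 1 - j)).int z)
  have i3 := hint _ (ra4 z)
  have e1 : TT (p.kfull j) f z - TT (p.ker N G (N - 1 - j)) f z =
      (1 - bump (G (j + 1)) z) * ∫ w, (f (z.1, z.2 + w) - f z) * p.ra j z w := by
    unfold TT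
    rw [add_sub_add_left_eq_sub, ← integral_sub i1 i2, ← integral_const_mul]
    congr 1
    funext w
    have := e0 w
    rw [← mul_sub, this]
    ring
  have e2 : ∫ w, (f (z.1, z.2 + w) - f z) * p.ra j z w ≤ ∫ w, p.ra j z w := by
    refine integral_mono i3 (ra4 z) fun w => ?_
    have h1 : f (z.1, z.2 + w) - f z ≤ 1 := by
      linarith [(h01 (z.1, z.2 + w)).2, (h01 z).1]
    have h2 := mul_le_mul_of_nonneg_right h1 (ra2 z w)
    simpa using h2
  have e3 := mul_le_mul_of_nonneg_left (e2.trans (ra5 z)) (sub_nonneg.2 hb1)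
  linarith

end KDB
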