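import Pool.Agent.Helper34.KDB.St.V1
import Pool.Agent.Helper34.KDB.St.L4

/-! KDP-V2: lower bound for the value function at the origin. -/

set_option autoImplicit false

namespace KDB

open MeasureTheory Set Filter Topology
open scoped ENNReal NNReal ContDiff

variable (p : Par)

private theorem V2_Sh {d : ℕ} (h : ℝ) : Measurable (Sh (d := d) h) := by
  unfold Sh
  fun_prop

private theorem V2_int {N : ℕ} {p : Par} (hp : p.Ok) (hH : p.Hok) (f : (Fin N → Nz p.d) → ℝ)
    (hf : Measurable f) (B : ℝ) (hB : ∀ z, |f z| ≤ B) : Integrable f (p.pathLaw N) := by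
  have := pathLaw_prob p hp hH N
  exact Integrable.of_bound hf.aestronglyMeasurable B (Eventually.of_forall hB)

/-- LOWER BOUND -/
theorem vf_lower (hp : p.Ok) (hh : p.h * (p.kap + p.mr) ≤ 1 / 2) (N : ℕ)
    (G : ℕ → Finset p.St) (δ : ℝ)
    (hG : ∀ t ≤ N, (p.pathLaw N).real {om | ∀ z ∈ G t, 1 < ‖p.run (p.exte N om) t - z‖} ≤ δ) :
    1 - δ - N * (p.h * p.mr) * (2 * δ) ≤ p.vf N G N 0 := by
  have hH : p.Hok := Hok_of p hp hh
  have hprob : IsProbabilityMeasure (p.pathLaw N) := pathLaw_prob p hp hH N
  have hrec := rec_ok p hp hh N G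
  have hvf := fun i => bk_prop hrec i
  have hvm : ∀ i, Measurable (p.vf N G i) := fun i => (hvf i).1.measurable
  have hv01 : ∀ i z, 0 ≤ p.vf N G i z ∧ p.vf N G i z ≤ 1 := fun i z => (hvf i).2.1 z
  have hvabs : ∀ i z, |p.vf N G i z| ≤ 1 := fun i z => by
    rw [abs_of_nonneg (hv01 i z).1]; exact (hv01 i z).2
  have hrm : ∀ t, Measurable (fun om : Fin N → Nz p.d => p.run (p.exte N om) t) :=
    fun t => run_measurable p N t
  have hmr : 0 ≤ p.h * p.mr := by
    have h1 : 0 ≤ p.h := hrec.h0.le
    have h2 : 0 ≤ p.mr := by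
      unfold Par.mr
      have := hp.hmu.le
      positivity
    exact mul_nonneg h1 h2
  -- the bad sets
  set bad : ℕ → Set p.St := fun t => {a | ∀ z ∈ G t, 1 < ‖a - z‖} with hbad
  have hbm : ∀ t, MeasurableSet (bad t) := by
    intro t
    have : bad t = ⋂ z ∈ G t, {a | 1 < ‖a - z‖} := by
      ext a; simp [hbad]
    rw [this]
    refine Finset.measurableSet_biInter _ fun z _ => ?_
    exact (isOpen_lt continuous_const (by fun_prop)).measurableSet
  have hbp : ∀ t ≤ N, ∫ om, (bad t).indicator (fun _ => (1 : ℝ)) (p.run (p.exte N om) t)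
      ∂(p.pathLaw N) ≤ δ := by
    intro t ht
    have h1 : (fun om : Fin N → Nz p.d =>
        (bad t).indicator (fun _ => (1 : ℝ)) (p.run (p.exte N om) t)) =
        ({om | ∀ z ∈ G t, 1 < ‖p.run (p.exte N om) t - z‖} :
          Set (Fin N → Nz p.d)).indicator (fun _ => (1 : ℝ)) := by
      ext om
      simp only [Set.indicator, hbad, Set.mem_ofPred_eq]
    have hms : MeasurableSet ({om | ∀ z ∈ G t, 1 < ‖p.run (p.exte N om) t - z‖} :
        Set (Fin N → Nz p.d)) := (hrm t) (hbm t)
    rw [h1, integral_indicator hms, setIntegral_const, smul_eq_mul, mul_one]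
    exact hG t ht
  have hbump : ∀ t z, 1 - bump (G t) z ≤ (bad t).indicator (fun _ => (1 : ℝ)) z := by
    intro t z
    by_cases hz : z ∈ bad t
    · rw [Set.indicator_of_mem hz]
      linarith [bump_nonneg (G t) z]
    · rw [Set.indicator_of_notMem hz]
      simp only [hbad, Set.mem_ofPred_eq, not_forall, not_lt] at hz
      obtain ⟨c, hc, hzc⟩ := hz
      rw [bump_eq_one (G t) z ⟨c, hc, hzc⟩, sub_self]
  -- the recursion
  have key : ∀ j, j ≤ N → ∫ om, p.vf N G (N - j) (p.run (p.exte N om) j) ∂(p.pathLaw N) ≤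
      p.vf N G N 0 + j * (p.h * p.mr) * (2 * δ) := by
    intro j
    induction j with
    | zero =>
      intro _
      simp [Par.run]
    | succ j ih =>
      intro hj
      have hj' : j < N := hj
      have ih' := ih hj'.le
      rw [markov p hp hH N j hj' (p.vf N G (N - (j + 1))) (hvm _) 1 (hvabs _)]
      have hNj : N - j = (N - (j + 1)) + 1 := by omega
      have hNj2 : N - 1 - j = N - (j + 1) := by omega
      have hstep : ∀ a : p.St, TT (p.kfull j) (p.vf N G (N - (j + 1))) (Sh p.h a) ≤
          p.vf N G (N - j) a + p.h * p.mr * (2 * TT (p.kfull j)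
            ((bad (j + 1)).indicator fun _ => (1 : ℝ)) (Sh p.h a)) := by
        intro a
        have h1 := TT_compare p hp hh N G j hj' (p.vf N G (N - (j + 1))) (hvm _) (hv01 _)
          (Sh p.h a)
        have h2 : p.vf N G (N - j) a =
            TT (p.ker N G (N - 1 - j)) (p.vf N G (N - (j + 1))) (Sh p.h a) := by
          rw [hNj, hNj2]; rfl
        rw [h2]
        refine h1.trans ?_
        have h3 := TT_half (kfull_ok p hp j) hh
          (f := (bad (j + 1)).indicator fun _ => (1 : ℝ))
          (measurable_const.indicator (hbm (j + 1)))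
          (fun z => ⟨Set.indicator_nonneg (fun _ _ => zero_le_one) z,
            Set.indicator_le_self' (fun _ _ => zero_le_one) z⟩) (Sh p.h a)
        have h4 := hbump (j + 1) (Sh p.h a)
        have h5 := mul_le_mul_of_nonneg_left (by linarith :
          1 - bump (G (j + 1)) (Sh p.h a) ≤ 2 * TT (p.kfull j)
            ((bad (j + 1)).indicator fun _ => (1 : ℝ)) (Sh p.h a)) hmr
        linarith
      have hTm : Measurable (TT (p.kfull j) ((bad (j + 1)).indicator fun _ => (1 : ℝ))) :=
        TT_measurable (kfull_ok p hp j) (measurable_const.indicator (hbm (j + 1)))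
      have hT01 := TT_mem (kfull_ok p hp j) (by linarith)
        (f := (bad (j + 1)).indicator fun _ => (1 : ℝ))
          (measurable_const.indicator (hbm (j + 1)))
          (fun z => ⟨Set.indicator_nonneg (fun _ _ => zero_le_one) z,
            Set.indicator_le_self' (fun _ _ => zero_le_one) z⟩)
      have hTm2 : Measurable (TT (p.kfull j) (p.vf N G (N - (j + 1)))) :=
        TT_measurable (kfull_ok p hp j) (hvm _)
      have hT012 := TT_mem (kfull_ok p hp j) (by linarith) (hvm (N - (j + 1))) (hv01 _)
      have hi1 : Integrable (fun om : Fin N → Nz p.d =>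
          TT (p.kfull j) (p.vf N G (N - (j + 1))) (Sh p.h (p.run (p.exte N om) j)))
          (p.pathLaw N) := by
        refine V2_int hp hH _ (hTm2.comp ((V2_Sh _).comp (hrm j))) 1 fun om => ?_
        rw [abs_of_nonneg (hT012 _).1]; exact (hT012 _).2
      have hi2 : Integrable (fun om : Fin N → Nz p.d =>
          p.vf N G (N - j) (p.run (p.exte N om) j)) (p.pathLaw N) :=
        V2_int hp hH _ ((hvm _).comp (hrm j)) 1 fun om => hvabs _ _
      have hi3 : Integrable (fun om : Fin N → Nz p.d => TT (p.kfull j)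
            ((bad (j + 1)).indicator fun _ => (1 : ℝ)) (Sh p.h (p.run (p.exte N om) j)))
          (p.pathLaw N) := by
        refine V2_int hp hH _ (hTm.comp ((V2_Sh _).comp (hrm j))) 1 fun om => ?_
        rw [abs_of_nonneg (hT01 _).1]; exact (hT01 _).2
      have h6 := integral_mono hi1 (hi2.add ((hi3.const_mul 2).const_mul (p.h * p.mr)))
        (fun om => hstep (p.run (p.exte N om) j))
      refine h6.trans ?_
      simp only [Pi.add_apply]
      rw [integral_add hi2 ((hi3.const_mul 2).const_mul (p.h * p.mr)), integral_const_mul,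
        integral_const_mul]
      have h7 := markov p hp hH N j hj' ((bad (j + 1)).indicator fun _ => (1 : ℝ))
        (measurable_const.indicator (hbm (j + 1))) 1 (fun z => by
          by_cases hz : z ∈ bad (j + 1)
          · rw [Set.indicator_of_mem hz]; simp
          · rw [Set.indicator_of_notMem hz]; simp)
      rw [← h7]
      have h8 := hbp (j + 1) hj
      have h9 := mul_le_mul_of_nonneg_left h8 hmr
      push_cast
      nlinarith [h9, ih']
  have hfin := key N le_rfl
  rw [Nat.sub_self] at hfin
  have hlow : 1 - δ ≤ ∫ om, p.vf N G 0 (p.run (p.exte N om) N) ∂(p.pathLaw N) := by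
    have hi1 : Integrable (fun om : Fin N → Nz p.d =>
        p.vf N G 0 (p.run (p.exte N om) N)) (p.pathLaw N) :=
      V2_int hp hH _ ((hvm _).comp (hrm N)) 1 fun om => hvabs _ _
    have hi2 : Integrable (fun om : Fin N → Nz p.d =>
        (bad N).indicator (fun _ => (1 : ℝ)) (p.run (p.exte N om) N)) (p.pathLaw N) := by
      refine V2_int hp hH _ ((measurable_const.indicator (hbm N)).comp (hrm N)) 1 fun om => ?_
      by_cases hz : p.run (p.exte N om) N ∈ bad N
      · rw [Set.indicator_of_mem hz]; simp
      · rw [Set.indicator_of_notMem hz]; simp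
    have h1 : ∫ om, (1 : ℝ) ∂(p.pathLaw N) ≤
        ∫ om, (p.vf N G 0 (p.run (p.exte N om) N) +
          (bad N).indicator (fun _ => (1 : ℝ)) (p.run (p.exte N om) N)) ∂(p.pathLaw N) := by
      refine integral_mono (integrable_const _) (hi1.add hi2) fun om => ?_
      have := hbump N (p.run (p.exte N om) N)
      have h2 : p.vf N G 0 (p.run (p.exte N om) N) = bump (G N) (p.run (p.exte N om) N) := rfl
      simp only
      rw [h2]
      linarith
    rw [integral_add hi1 hi2] at h1
    have h3 := hbp N le_rfl
    have h4 : ∫ om, (1 : ℝ) ∂(p.pathLaw N) = 1 := by simp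
    linarith
  linarith

end KDB
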